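import Mathlib

/-!
# A product inequality with the golden ratio
-/

set_option autoImplicit false

namespace Pool.Agent.J4.H64.GL

open Finset Real

/-- the golden ratio -/
lemma golden_le {t : ℝ} (ht : 0 < t) (h : t + 1 ≤ t ^ 2) : goldenRatio ≤ t := by
  by_contra hcon
  push Not at hcon
  have h1 := Real.goldenRatio_sq
  have h2 := Real.one_lt_goldenRatio
  nlinarith

theorem golden_prod {ι : Type*} (s : Finset ι) (a b x : ι → ℝ) (ha : ∀ i ∈ s, 1 ≤ a i)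
    (hb : ∀ i ∈ s, 0 < b i) (hx0 : ∀ i ∈ s, 0 ≤ x i) (hx : ∀ i ∈ s, x i ≤ a i ^ 2 - b i ^ 2)
    (h1 : 1 ≤ ∏ i ∈ s, x i) (h2 : 1 ≤ ∏ i ∈ s, (a i * b i)) :
    goldenRatio ^ s.card ≤ (∏ i ∈ s, a i) ^ 2 := by
  rcases Nat.eq_zero_or_pos s.card with h0 | hn
  · rw [Finset.card_eq_zero] at h0
    subst h0
    simp
  set n := s.card with hnd
  have hn0 : (0 : ℝ) < n := by exact_mod_cast hn
  set S := ∏ i ∈ s, a i ^ 2 with hS
  have hS1 : 1 ≤ S := by
    rw [hS]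
    have : ∏ i ∈ s, (1 : ℝ) ≤ ∏ i ∈ s, a i ^ 2 :=
      Finset.prod_le_prod (fun _ _ => zero_le_one) (fun i hi => one_le_pow₀ (ha i hi))
    simpa using this
  have hS0 : 0 < S := by linarith
  set t := S ^ ((1 : ℝ) / n) with ht
  have ht0 : 0 < t := Real.rpow_pos_of_pos hS0 _
  have htn : t ^ n = S := by
    rw [ht, ← Real.rpow_natCast, ← Real.rpow_mul hS0.le]
    rw [one_div, inv_mul_cancel₀ hn0.ne', Real.rpow_one]
  have hw : ∑ _i ∈ s, (1 : ℝ) / n = 1 := by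
    rw [Finset.sum_const, nsmul_eq_mul, ← hnd]
    field_simp
  have hamgm := fun (z : ι → ℝ) (hz : ∀ i ∈ s, 0 ≤ z i) =>
    Real.geom_mean_le_arith_mean_weighted s (fun _ => (1 : ℝ) / n) z
      (fun _ _ => by positivity) hw hz
  have hpow : ∀ z : ι → ℝ, (∀ i ∈ s, 0 ≤ z i) → ∏ i ∈ s, z i ^ ((1 : ℝ) / n) =
      (∏ i ∈ s, z i) ^ ((1 : ℝ) / n) := by
    intro z hz
    exact Real.finsetProd_rpow s z hz _
  have e1 := hamgm (fun i => x i / a i ^ 2) (fun i hi => by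
    have := hx0 i hi
    positivity)
  have e2 := hamgm (fun i => b i ^ 2 / a i ^ 2) (fun i hi => by positivity)
  rw [hpow _ (fun i hi => by have := hx0 i hi; positivity), Finset.prod_div_distrib] at e1
  rw [hpow _ (fun i hi => by positivity), Finset.prod_div_distrib] at e2
  have e3 : (∑ i ∈ s, 1 / (n : ℝ) * (x i / a i ^ 2)) + ∑ i ∈ s, 1 / (n : ℝ) * (b i ^ 2 / a i ^ 2)
      ≤ 1 := by
    rw [← Finset.sum_add_distrib]
    refine le_trans (Finset.sum_le_sum (g := fun _ => (1 : ℝ) / n) fun i hi => ?_) hw.le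
    rw [← mul_add, ← add_div]
    have h3 := hx i hi
    have h4 := ha i hi
    have h5 : (x i + b i ^ 2) / a i ^ 2 ≤ 1 := by
      rw [div_le_one (by positivity)]
      linarith
    calc 1 / (n : ℝ) * ((x i + b i ^ 2) / a i ^ 2) ≤ 1 / (n : ℝ) * 1 :=
          mul_le_mul_of_nonneg_left h5 (by positivity)
      _ = 1 / n := mul_one _
  have e4 : t⁻¹ ≤ ((∏ i ∈ s, x i) / S) ^ ((1 : ℝ) / n) := by
    rw [ht, ← Real.inv_rpow hS0.le]
    apply Real.rpow_le_rpow (by positivity) _ (by positivity)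
    rw [inv_eq_one_div]
    exact div_le_div_of_nonneg_right h1 hS0.le
  have e5 : (t ^ 2)⁻¹ ≤ ((∏ i ∈ s, b i ^ 2) / S) ^ ((1 : ℝ) / n) := by
    have h3 : (t ^ 2)⁻¹ = ((S ^ 2)⁻¹) ^ ((1 : ℝ) / n) := by
      rw [Real.inv_rpow (by positivity), ht, ← Real.rpow_natCast (S ^ ((1 : ℝ) / n)) 2,
        ← Real.rpow_mul hS0.le, ← Real.rpow_natCast S 2, ← Real.rpow_mul hS0.le]
      congr 2
      ring
    rw [h3]
    apply Real.rpow_le_rpow (by positivity) _ (by positivity)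
    have h4 : 1 ≤ (∏ i ∈ s, b i ^ 2) * S := by
      have h5 : (∏ i ∈ s, b i ^ 2) * S = (∏ i ∈ s, (a i * b i)) ^ 2 := by
        rw [hS, ← Finset.prod_mul_distrib, ← Finset.prod_pow]
        refine Finset.prod_congr rfl fun i _ => by ring
      rw [h5]
      exact one_le_pow₀ h2
    rw [le_div_iff₀ hS0, pow_two, mul_inv, mul_assoc, inv_mul_cancel₀ hS0.ne', mul_one,
      inv_eq_one_div, div_le_iff₀ hS0]
    exact h4
  have e6 : t⁻¹ + (t ^ 2)⁻¹ ≤ 1 := by linarith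
  have e7 : t + 1 ≤ t ^ 2 := by
    have h3 : (t⁻¹ + (t ^ 2)⁻¹) * t ^ 2 ≤ 1 * t ^ 2 :=
      mul_le_mul_of_nonneg_right e6 (by positivity)
    have h4 : (t⁻¹ + (t ^ 2)⁻¹) * t ^ 2 = t + 1 := by field_simp
    linarith
  have e8 := golden_le ht0 e7
  calc goldenRatio ^ n ≤ t ^ n := pow_le_pow_left₀ Real.goldenRatio_pos.le e8 n
    _ = S := htn
    _ = (∏ i ∈ s, a i) ^ 2 := by rw [hS, Finset.prod_pow]

end Pool.Agent.J4.H64.GL
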