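import Mathlib
import Pool.Agent.R701.UG.Rel
import Pool.Agent.W628.AbSalem.Conj2
import Pool.Agent.J4.H64.GL.Ineq

/-!
# Lower bounds for measures relative to a totally real field
-/

set_option autoImplicit false

open Polynomial Module ComplexConjugate

namespace Pool.Agent.J4.H64.GL

open Pool.Agent.R701.UG Pool.Agent.H338R2

lemma one_le_prod_emb {k : Type*} [Field k] [NumberField k] {a : k} (ha : IsIntegral ℤ a)
    (h0 : a ≠ 0) : 1 ≤ ∏ v : k →+* ℂ, ‖v a‖ := by
  have h1 := Algebra.norm_eq_prod_embeddings ℚ ℂ a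
  have h2 : IsIntegral ℤ (Algebra.norm ℚ a) := Algebra.isIntegral_norm ℚ ha
  obtain ⟨n, hn⟩ := IsIntegrallyClosed.isIntegral_iff.1 h2
  have hn0 : n ≠ 0 := by
    rintro rfl
    rw [map_zero] at hn
    exact h0 (Algebra.norm_eq_zero_iff.1 hn.symm)
  have h3 : ∏ v : k →+* ℂ, v a = ∏ σ : k →ₐ[ℚ] ℂ, σ a :=
    Fintype.prod_equiv (RingHom.equivRatAlgHom k ℂ) _ _ fun v => rfl
  rw [← norm_prod, h3, ← h1, ← hn]
  have h4 : algebraMap ℚ ℂ (algebraMap ℤ ℚ n) = (n : ℂ) := by simp
  rw [h4, Complex.norm_intCast]
  exact_mod_cast Int.one_le_abs hn0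

lemma pl_roots' {P : ℂ[X]} (hP : P.Monic) : P = pl P.roots :=
  (IsAlgClosed.splits P).eq_prod_roots_of_monic hP

lemma norm_pl_zero' (R : Multiset ℂ) : ‖(pl R).coeff 0‖ = up R * lo R := by
  rw [up_mul_lo]
  induction R using Multiset.induction_on with
  | empty => simp [pl]
  | cons a R ih =>
    rw [pl] at ih ⊢
    rw [Multiset.map_cons, Multiset.prod_cons, Polynomial.mul_coeff_zero, norm_mul, ih,
      Multiset.map_cons, Multiset.prod_cons]
    simp

/-- The inequality of Schinzel for a polynomial over a totally real field that is not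
self-reciprocal. -/
theorem rel_golden {k : Type*} [Field k] [NumberField k]
    (hreal : ∀ (v : k →+* ℂ) (y : k), conj (v y) = v y) (F : k[X]) (hFm : F.Monic)
    (hFi : ∀ i, IsIntegral ℤ (F.coeff i)) (hF0 : F.coeff 0 ≠ 0)
    (hne : F ≠ C (F.coeff 0) * F.reverse) :
    Real.goldenRatio ^ (finrank ℚ k) ≤ (∏ v : k →+* ℂ, up (F.map v).roots) ^ 2 := by
  classical
  set w : k[X] := F - C (F.coeff 0) * F.reverse with hw
  have hw0 : w ≠ 0 := sub_ne_zero.2 hne
  set j := w.natTrailingDegree with hj
  have haj : w.coeff j ≠ 0 := by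
    rw [hj]
    exact mt Polynomial.trailingCoeff_eq_zero.1 hw0
  have hlt : ∀ i < j, w.coeff i = 0 := fun i hi =>
    Polynomial.coeff_eq_zero_of_lt_natTrailingDegree hi
  have hai : IsIntegral ℤ (w.coeff j) := by
    rw [hw, coeff_sub, coeff_C_mul, Polynomial.coeff_reverse]
    exact (hFi _).sub ((hFi _).mul (hFi _))
  have hmain : ∀ v : k →+* ℂ, ‖v (w.coeff j)‖ ≤ up (F.map v).roots ^ 2 - lo (F.map v).roots ^ 2 ∧
      0 < lo (F.map v).roots ∧ up (F.map v).roots * lo (F.map v).roots = ‖v (F.coeff 0)‖ := by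
    intro v
    set R := (F.map v).roots with hR
    have hFv : F.map v = pl R := pl_roots' (hFm.map v)
    have hrev : (F.reverse).map v = pr R := by
      have h1 : (F.reverse).map v = (F.map v).reverse := by
        ext n
        rw [Polynomial.coeff_reverse, Polynomial.coeff_map, Polynomial.coeff_reverse]
        simp only [Polynomial.natDegree_map, Polynomial.coeff_map]
      have h2 : F.map v = (F.map v).map (starRingEnd ℂ) := by
        rw [Polynomial.map_map]
        congr 1
        ext y
        exact (hreal v y).symm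
      have h3 : (F.map v).map (starRingEnd ℂ) =
          ((R.map (starRingEnd ℂ)).map (fun a => (X - C a : ℂ[X]))).prod := by
        rw [hFv, pl, Polynomial.map_multiset_prod, Multiset.map_map, Multiset.map_map]
        congr 1
        apply Multiset.map_congr rfl
        intro a _
        simp
      rw [h1, h2, h3, reverse_prod, Multiset.map_map]
      rfl
    have hwv : w.map v = pl R - C (v (F.coeff 0)) * pr R := by
      rw [hw, Polynomial.map_sub, Polynomial.map_mul, Polynomial.map_C, hrev, hFv]
    have hR0 : ∀ a ∈ R, a ≠ 0 := by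
      rintro a ha rfl
      have h1 := (Polynomial.mem_roots'.1 ha).2
      rw [Polynomial.IsRoot, ← Polynomial.coeff_zero_eq_eval_zero, coeff_map] at h1
      exact hF0 ((map_eq_zero_iff v v.injective).1 h1)
    have hm := rel_ineq R hR0 (w.map v) (v (F.coeff 0)) hwv (by rw [← hFv, coeff_map]) j
      (by rw [coeff_map]; exact fun h => haj ((map_eq_zero_iff v v.injective).1 h))
      (fun i hi => by rw [coeff_map, hlt i hi, map_zero])
    rw [coeff_map] at hm
    have hul : up R * lo R = ‖v (F.coeff 0)‖ := by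
      rw [← norm_pl_zero', ← hFv, coeff_map]
    refine ⟨hm, ?_, hul⟩
    have h1 : 0 < ‖v (F.coeff 0)‖ := by
      rw [norm_pos_iff]
      exact fun h => hF0 ((map_eq_zero_iff v v.injective).1 h)
    rw [← hul] at h1
    exact pos_of_mul_pos_right h1 (zero_le_one.trans (one_le_up R))
  have h := golden_prod (Finset.univ : Finset (k →+* ℂ)) (fun v => up (F.map v).roots)
    (fun v => lo (F.map v).roots) (fun v => ‖v (w.coeff j)‖) (fun v _ => one_le_up _)
    (fun v _ => (hmain v).2.1) (fun v _ => norm_nonneg _) (fun v _ => (hmain v).1)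
    (one_le_prod_emb hai haj) (by
      simp only [fun v => (hmain v).2.2]
      exact one_le_prod_emb (hFi 0) hF0)
  rwa [Finset.card_univ, NumberField.Embeddings.card k ℂ] at h

lemma prod_inj_le {A B : Type*} [Fintype A] [Fintype B] (Φ : A → B) (hΦ : Function.Injective Φ)
    (g : B → ℝ) (hg : ∀ b, 1 ≤ g b) : ∏ a, g (Φ a) ≤ ∏ b, g b := by
  classical
  have h1 : ∏ b ∈ Finset.univ.image Φ, g b = ∏ a, g (Φ a) :=
    Finset.prod_image fun a _ b _ h => hΦ h
  rw [← h1, ← Finset.prod_sdiff (Finset.subset_univ (Finset.univ.image Φ))]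
  have h2 : 1 ≤ ∏ b ∈ Finset.univ \ Finset.univ.image Φ, g b := by
    have : ∏ b ∈ Finset.univ \ Finset.univ.image Φ, (1 : ℝ) ≤
        ∏ b ∈ Finset.univ \ Finset.univ.image Φ, g b :=
      Finset.prod_le_prod (fun _ _ => zero_le_one) (fun b _ => hg b)
    simpa using this
  have h3 : 0 ≤ ∏ b ∈ Finset.univ.image Φ, g b :=
    Finset.prod_nonneg fun b _ => zero_le_one.trans (hg b)
  exact le_mul_of_one_le_left h3 h2

/-- an irreducible polynomial of odd degree over a totally real field which is self-reciprocal -/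
lemma odd_self_reciprocal {k : Type*} [Field k] [CharZero k] {F : k[X]} (hF : Irreducible F)
    (hm : F.Monic) (hodd : Odd F.natDegree) (h : F = C (F.coeff 0) * F.reverse) :
    F = X - 1 ∨ F = X + 1 := by
  have hlc : F.coeff 0 ^ 2 = 1 := by
    have h1 := congrArg (fun q : k[X] => q.coeff F.natDegree) h
    simp only [coeff_C_mul, Polynomial.coeff_reverse] at h1
    rw [hm.coeff_natDegree, Polynomial.revAt_le le_rfl, Nat.sub_self] at h1
    rw [pow_two]
    exact h1.symm
  have hlin : ∀ c : k, c ^ 2 = 1 → F.eval c = 0 → F = X - C c := by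
    intro c _ hc
    have h1 : X - C c ∣ F := dvd_iff_isRoot.2 hc
    have h2 := (irreducible_X_sub_C c).associated_of_dvd hF h1
    exact (eq_of_monic_of_associated hm (monic_X_sub_C c) h2.symm)
  have hrev : ∀ c : k, c ^ 2 = 1 → F.reverse.eval c = c ^ F.natDegree * F.eval c := by
    intro c hc
    have hc0 : c ≠ 0 := by
      rintro rfl
      simp at hc
    let _ : Invertible c := invertibleOfNonzero hc0
    have h1 := Polynomial.eval₂_reverse_mul_pow (RingHom.id k) c F
    have h4 : ⅟ c = c := invOf_eq_right_inv (by rw [← pow_two]; exact hc)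
    rw [h4] at h1
    have h6 : F.reverse.eval c * c ^ F.natDegree = F.eval c := h1
    have h7 : c ^ F.natDegree * c ^ F.natDegree = 1 := by
      rw [← mul_pow, ← pow_two, hc, one_pow]
    rw [← h6]
    linear_combination (-(F.reverse.eval c)) * h7
  have hu : F.coeff 0 = 1 ∨ F.coeff 0 = -1 := by
    have h1 : (F.coeff 0 - 1) * (F.coeff 0 + 1) = 0 := by linear_combination hlc
    rcases mul_eq_zero.1 h1 with h2 | h2
    · left; linear_combination h2
    · right; linear_combination h2
  rcases hu with hu | hu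
  · right
    have h1 : F.eval (-1) = 0 := by
      have h2 := congrArg (fun q : k[X] => q.eval (-1)) h
      simp only [eval_mul, eval_C] at h2
      rw [hrev (-1) (by ring), hu, hodd.neg_one_pow] at h2
      have h3 : (2 : k) * F.eval (-1) = 0 := by linear_combination h2
      exact (mul_eq_zero.1 h3).resolve_left two_ne_zero
    rw [hlin (-1) (by ring) h1]
    simp
  · left
    have h1 : F.eval 1 = 0 := by
      have h2 := congrArg (fun q : k[X] => q.eval 1) h
      simp only [eval_mul, eval_C] at h2
      rw [hrev 1 (by ring), hu, one_pow] at h2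
      have h3 : (2 : k) * F.eval 1 = 0 := by linear_combination h2
      exact (mul_eq_zero.1 h3).resolve_left two_ne_zero
    rw [hlin 1 (by ring) h1]
    simp

end Pool.Agent.J4.H64.GL
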