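import Mathlib
import Pool.Agent.J4.H64.GL.Rel

/-!
# Norms to subfields of odd degree over a totally real field
-/

set_option autoImplicit false

open Polynomial Module ComplexConjugate

namespace Pool.Agent.J4.H64.GL

open Pool.Agent.R701.UG Pool.Agent.H338R2

lemma prod_max_le {A : Type*} [Fintype A] (g : A → ℂ) :
    max 1 ‖∏ a, g a‖ ≤ ∏ a, max 1 ‖g a‖ := by
  apply max_le
  · have : ∏ _a : A, (1 : ℝ) ≤ ∏ a, max 1 ‖g a‖ :=
      Finset.prod_le_prod (fun _ _ => zero_le_one) (fun _ _ => le_max_left _ _)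
    simpa using this
  · rw [norm_prod]
    exact Finset.prod_le_prod (fun _ _ => norm_nonneg _) (fun _ _ => le_max_right _ _)

/-- Let `β = ∏ h α`. The product over the embeddings of `k` of the measures of the minimal
polynomial of `β` over `k` is at most the product of `max 1 ‖σ α‖` over all embeddings of `K`. -/
theorem up_le {k K : Type*} [Field k] [NumberField k] [Field K] [NumberField K] [Algebra k K]
    (H : Subgroup (K ≃ₐ[k] K)) (α : K) [Fintype H] :
    ∏ v : k →+* ℂ, up (((minpoly k (∏ h : H, (h : K ≃ₐ[k] K) α)).map v).roots) ≤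
      ∏ σ : K →+* ℂ, max 1 ‖σ α‖ := by
  classical
  set β := ∏ h : H, (h : K ≃ₐ[k] K) α with hβ
  haveI : IsScalarTower ℚ k K := inferInstance
  haveI : FiniteDimensional k K := FiniteDimensional.right ℚ k K
  have hint : IsIntegral k β := Algebra.IsIntegral.isIntegral β
  have hfix : ∀ h : H, (h : K ≃ₐ[k] K) β = β := by
    intro h
    rw [hβ, map_prod]
    refine Fintype.prod_equiv (Equiv.mulLeft h) _ _ fun g => ?_
    rfl
  -- the roots are distinct
  have hnd : ∀ v : k →+* ℂ, ((minpoly k β).map v).roots.Nodup := fun v =>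
    nodup_roots ((minpoly.irreducible hint).separable.map)
  have hup : ∀ v : k →+* ℂ, up (((minpoly k β).map v).roots) =
      ∏ a : {a // a ∈ ((minpoly k β).map v).roots.toFinset}, max 1 ‖(a : ℂ)‖ := by
    intro v
    rw [Finset.prod_coe_sort ((minpoly k β).map v).roots.toFinset (fun a => max 1 ‖a‖)]
    rw [up]
    change _ = (Multiset.map (fun a => max 1 ‖a‖) ((minpoly k β).map v).roots.toFinset.val).prod
    rw [Multiset.toFinset_val, Multiset.dedup_eq_self.2 (hnd v)]
  have hext : ∀ (v : k →+* ℂ) (a : {a // a ∈ ((minpoly k β).map v).roots.toFinset}),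
      ∃ σ : K →+* ℂ, σ.comp (algebraMap k K) = v ∧ σ β = a := by
    rintro v ⟨a, ha⟩
    letI : Algebra k ℂ := v.toAlgebra
    have h1 := Algebra.IsAlgebraic.range_eval_eq_rootSet_minpoly (F := k) ℂ β
    have h2 : a ∈ (minpoly k β).rootSet ℂ := by
      rw [mem_rootSet]
      rw [Multiset.mem_toFinset, mem_roots'] at ha
      refine ⟨minpoly.ne_zero hint, ?_⟩
      have h3 := ha.2
      rw [IsRoot.def, eval_map] at h3
      exact h3
    rw [← h1] at h2
    obtain ⟨ψ, hψ⟩ := h2
    exact ⟨ψ.toRingHom, ψ.comp_algebraMap, hψ⟩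
  choose s hs1 hs2 using hext
  let Φ : (Σ v : k →+* ℂ, {a // a ∈ ((minpoly k β).map v).roots.toFinset}) × H → (K →+* ℂ) :=
    fun x => (s x.1.1 x.1.2).comp ((x.2 : K ≃ₐ[k] K) : K →+* K)
  have hΦ : Function.Injective Φ := by
    rintro ⟨⟨v, a⟩, h⟩ ⟨⟨v', a'⟩, h'⟩ heq
    have hv : v = v' := by
      have h1 := congrArg (fun τ : K →+* ℂ => τ.comp (algebraMap k K)) heq
      have e : ∀ (v : k →+* ℂ) (a : {a // a ∈ ((minpoly k β).map v).roots.toFinset}) (h : H),
          ((s v a).comp ((h : K ≃ₐ[k] K) : K →+* K)).comp (algebraMap k K) = v := by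
        intro v a h
        conv_rhs => rw [← hs1 v a]
        ext y
        simp
      have h2 : ((s v a).comp ((h : K ≃ₐ[k] K) : K →+* K)).comp (algebraMap k K) =
        ((s v' a').comp ((h' : K ≃ₐ[k] K) : K →+* K)).comp (algebraMap k K) := h1
      rwa [e, e] at h2
    subst hv
    have ha : a = a' := by
      have h1 := congrArg (fun τ : K →+* ℂ => τ β) heq
      have h2 : s v a ((h : K ≃ₐ[k] K) β) = s v a' ((h' : K ≃ₐ[k] K) β) := h1
      rw [hfix, hfix, hs2, hs2] at h2
      exact Subtype.ext h2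
    subst ha
    have hh : h = h' := by
      apply Subtype.ext
      ext x
      have h1 := congrArg (fun τ : K →+* ℂ => τ x) heq
      have h2 : s v a ((h : K ≃ₐ[k] K) x) = s v a ((h' : K ≃ₐ[k] K) x) := h1
      exact (s v a).injective h2
    subst hh
    rfl
  have h1 := prod_inj_le Φ hΦ (fun σ => max 1 ‖σ α‖) (fun _ => le_max_left _ _)
  refine le_trans ?_ h1
  rw [Fintype.prod_prod_type, Fintype.prod_sigma]
  refine Finset.prod_le_prod (fun v _ => zero_le_one.trans (one_le_up _)) fun v _ => ?_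
  rw [hup v]
  refine Finset.prod_le_prod (fun a _ => zero_le_one.trans (le_max_left _ _)) fun a _ => ?_
  have h2 : (a : ℂ) = ∏ h : H, s v a ((h : K ≃ₐ[k] K) α) := by
    rw [← map_prod, ← hβ, hs2]
  have h3 := prod_max_le (fun h : H => s v a ((h : K ≃ₐ[k] K) α))
  rw [← h2] at h3
  exact h3

/-- The general lower bound. -/
theorem norm_bound {k K : Type*} [Field k] [NumberField k] [Field K] [NumberField K] [Algebra k K]
    (hreal : ∀ (v : k →+* ℂ) (y : k), conj (v y) = v y) (H : Subgroup (K ≃ₐ[k] K)) [Fintype H]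
    (hodd : Odd (finrank k (IntermediateField.fixedField H))) (α : K) (hα : IsIntegral ℤ α)
    (h0 : α ≠ 0) (hnt : ∀ n : ℕ, 0 < n → (∏ h : H, (h : K ≃ₐ[k] K) α) ^ n ≠ 1) :
    Real.goldenRatio ^ (finrank ℚ k) ≤ (∏ σ : K →+* ℂ, max 1 ‖σ α‖) ^ 2 := by
  classical
  haveI : IsScalarTower ℚ k K := inferInstance
  haveI : FiniteDimensional k K := FiniteDimensional.right ℚ k K
  set β := ∏ h : H, (h : K ≃ₐ[k] K) α with hβ
  have hβint : IsIntegral ℤ β := by
    rw [hβ]
    exact IsIntegral.prod _ fun h _ => hα.map ((h : K ≃ₐ[k] K).toAlgHom.restrictScalars ℤ)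
  have hβ0 : β ≠ 0 := by
    rw [hβ]
    exact Finset.prod_ne_zero_iff.2 fun h _ => by simpa using h0
  have hint : IsIntegral k β := Algebra.IsIntegral.isIntegral β
  set F := minpoly k β with hF
  have hFm : F.Monic := minpoly.monic hint
  have hFirr : Irreducible F := minpoly.irreducible hint
  have hFd : F ∣ (minpoly ℤ β).map (algebraMap ℤ k) := by
    apply minpoly.dvd
    rw [Polynomial.aeval_map_algebraMap, minpoly.aeval]
  have hFi : ∀ i, IsIntegral ℤ (F.coeff i) := fun i =>
    Polynomial.isIntegral_coeff_of_dvd (minpoly ℤ β) F (minpoly.monic hβint) hFm hFd i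
  have hF0 : F.coeff 0 ≠ 0 := minpoly.coeff_zero_ne_zero hint hβ0
  have hfixβ : β ∈ IntermediateField.fixedField H := by
    rw [IntermediateField.mem_fixedField_iff]
    intro g hg
    rw [hβ, map_prod]
    refine Fintype.prod_equiv (Equiv.mulLeft (⟨g, hg⟩ : H)) _ _ fun h => ?_
    rfl
  have hdeg : Odd F.natDegree := by
    have h1 : F = minpoly k (⟨β, hfixβ⟩ : IntermediateField.fixedField H) := by
      rw [hF]
      exact (minpoly.algebraMap_eq (algebraMap (IntermediateField.fixedField H) K).injective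
        (⟨β, hfixβ⟩ : IntermediateField.fixedField H))
    rw [h1]
    have h2 := minpoly.degree_dvd (K := k)
      (Algebra.IsIntegral.isIntegral (⟨β, hfixβ⟩ : IntermediateField.fixedField H))
    exact Odd.of_dvd_nat hodd h2
  have hne : F ≠ C (F.coeff 0) * F.reverse := by
    intro h
    rcases odd_self_reciprocal hFirr hFm hdeg h with h1 | h1
    · have h2 := minpoly.aeval k β
      rw [← hF, h1] at h2
      have h3 : β = 1 := by
        have : β - 1 = 0 := by simpa using h2
        linear_combination this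
      exact hnt 1 one_pos (by rw [h3, one_pow])
    · have h2 := minpoly.aeval k β
      rw [← hF, h1] at h2
      have h3 : β = -1 := by
        have : β + 1 = 0 := by simpa using h2
        linear_combination this
      exact hnt 2 two_pos (by rw [h3]; ring)
  have h1 := rel_golden hreal F hFm hFi hF0 hne
  refine h1.trans ?_
  have h2 := up_le H α
  rw [← hβ, ← hF] at h2
  have h3 : 0 ≤ ∏ v : k →+* ℂ, up ((F.map v).roots) :=
    Finset.prod_nonneg fun v _ => zero_le_one.trans (one_le_up _)
  exact pow_le_pow_left₀ h3 h2 2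

end Pool.Agent.J4.H64.GL
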