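import Mathlib
import Pool.Agent.J4.H64.GL.Main

/-!
# Measures in a number field, complex conjugations, and the Galois case
-/

set_option autoImplicit false

open Polynomial Module ComplexConjugate IntermediateField

namespace Pool.Agent.J4.H64.GL

open Pool.Agent.R701.UG Pool.Agent.H338R2 Pool.Agent.W628.AbSalem

/-- Mahler measure of an integer polynomial -/
noncomputable def MP (f : ℤ[X]) : ℝ := (f.map (Int.castRingHom ℂ)).mahlerMeasure

lemma prod_max_mahler {p : ℂ[X]} (hlc : 1 ≤ ‖p.leadingCoeff‖) (hp : p ≠ 0) (S : Finset ℂ)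
    (hS : ∀ z ∈ S, p.IsRoot z) : ∏ z ∈ S, max 1 ‖z‖ ≤ p.mahlerMeasure := by
  classical
  have h1 := prod_le_mahler hlc hp (S.filter fun z => 1 < ‖z‖)
    (fun z hz => hS z (Finset.mem_filter.1 hz).1)
  refine le_trans (le_of_eq ?_) h1
  rw [Finset.prod_filter]
  refine Finset.prod_congr rfl fun z _ => ?_
  split_ifs with h
  · exact max_eq_right h.le
  · exact max_eq_left (not_lt.1 h)

/-- The measure of `α` in `K` is at most the power of the Mahler measure of any integer
polynomial vanishing at `α`. -/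
theorem measure_le {K : Type*} [Field K] [NumberField K] (α : K) (f : ℤ[X]) (hf : f ≠ 0)
    (hα : aeval α f = 0) : ∏ σ : K →+* ℂ, max 1 ‖σ α‖ ≤ MP f ^ (finrank ℚ⟮α⟯ K) := by
  classical
  have hint : IsIntegral ℚ α := Algebra.IsIntegral.isIntegral α
  set L := ℚ⟮α⟯ with hL
  set a : L := AdjoinSimple.gen ℚ α with ha
  have haα : algebraMap L K a = α := AdjoinSimple.algebraMap_gen ℚ α
  have h1 : ∏ σ : K →+* ℂ, max 1 ‖σ α‖ = ∏ σ : K →ₐ[ℚ] ℂ, max 1 ‖σ α‖ :=
    Fintype.prod_equiv (RingHom.equivRatAlgHom K ℂ) _ _ fun v => rfl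
  have h2 : ∏ σ : K →ₐ[ℚ] ℂ, max 1 ‖σ α‖ = (∏ τ : L →ₐ[ℚ] ℂ, max 1 ‖τ a‖) ^ finrank L K := by
    rw [Fintype.prod_equiv algHomEquivSigma (fun σ : K →ₐ[ℚ] ℂ => max 1 ‖σ α‖)
      (fun σ => max 1 ‖σ.1 a‖), ← Finset.univ_sigma_univ, Finset.prod_sigma, ← Finset.prod_pow]
    · refine Finset.prod_congr rfl fun σ _ => ?_
      let _ : Algebra L ℂ := σ.toRingHom.toAlgebra
      simp_rw [Finset.prod_const]
      congr
      exact AlgHom.card L K ℂ
    · intro σ
      simp only [algHomEquivSigma, Equiv.coe_fn_mk, AlgHom.domRestrict, AlgHom.comp_apply,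
        IsScalarTower.coe_toAlgHom', haα]
  rw [h1, h2]
  have hinjZ : Function.Injective (Int.castRingHom ℂ) := RingHom.injective_int _
  have hp0 : f.map (Int.castRingHom ℂ) ≠ 0 := (Polynomial.map_ne_zero_iff hinjZ).mpr hf
  have hlc1 : 1 ≤ ‖(f.map (Int.castRingHom ℂ)).leadingCoeff‖ := by
    rw [leadingCoeff_map_of_injective hinjZ f, eq_intCast, Complex.norm_intCast]
    exact_mod_cast Int.one_le_abs (leadingCoeff_ne_zero.mpr hf)
  have h3 : ∏ τ : L →ₐ[ℚ] ℂ, max 1 ‖τ a‖ ≤ MP f := by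
    have h4 : ∏ z ∈ Finset.univ.image (fun τ : L →ₐ[ℚ] ℂ => τ a), max 1 ‖z‖ =
        ∏ τ : L →ₐ[ℚ] ℂ, max 1 ‖τ a‖ := by
      apply Finset.prod_image
      intro τ _ τ' _ h
      refine IntermediateField.algHom_ext_of_eq_adjoin ℚ hL ?_
      rintro x hx
      rw [Set.mem_singleton_iff] at hx
      subst hx
      exact h
    rw [← h4]
    apply prod_max_mahler hlc1 hp0
    intro z hz
    obtain ⟨τ, -, rfl⟩ := Finset.mem_image.1 hz
    rw [IsRoot.def, eval_map]
    have h5 : aeval a f = 0 := by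
      apply (algebraMap L K).injective
      rw [map_zero, ← aeval_algebraMap_apply, haα, hα]
    have h6 : aeval (τ a) f = τ (aeval a f) := aeval_algHom_apply (τ.restrictScalars ℤ) a f
    rw [h5, map_zero] at h6
    exact h6
  exact pow_le_pow_left₀ (Finset.prod_nonneg fun _ _ => zero_le_one.trans (le_max_left _ _)) h3 _

/-- a polynomial with a zero that is not integral has large measure -/
lemma two_le_of_not_integral {K : Type*} [Field K] [NumberField K] (α : K) (f : ℤ[X]) (hf : f ≠ 0)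
    (hα : aeval α f = 0) (hint : ¬ IsIntegral ℤ α) : 2 ≤ MP f := by
  have hlf0 : f.leadingCoeff ≠ 0 := leadingCoeff_ne_zero.mpr hf
  have h2 : 2 ≤ |f.leadingCoeff| := by
    by_contra hcon
    push Not at hcon
    have h1 : f.leadingCoeff = 1 ∨ f.leadingCoeff = -1 := by
      have h2 : |f.leadingCoeff| = 1 := by
        have := Int.one_le_abs hlf0
        omega
      exact (abs_eq (by norm_num)).mp h2
    apply hint
    rcases h1 with h1 | h1
    · exact ⟨f, h1, hα⟩
    · refine ⟨-f, ?_, ?_⟩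
      · rw [Monic, leadingCoeff_neg, h1]
        norm_num
      · rw [eval₂_neg, neg_eq_zero]
        exact hα
  have h1 : (2 : ℝ) ≤ ‖(f.map (Int.castRingHom ℂ)).leadingCoeff‖ := by
    rw [leadingCoeff_map_of_injective (RingHom.injective_int _) f, eq_intCast,
      Complex.norm_intCast]
    exact_mod_cast h2
  rw [MP, mahlerMeasure_eq_leadingCoeff_mul_prod_roots]
  have h3 := prod_one_le (f.map (Int.castRingHom ℂ)).roots
  nlinarith

/-- a nonreal embedding whose image is stable under complex conjugation -/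
theorem conj_bound {k K : Type*} [Field k] [NumberField k] [Field K] [NumberField K] [Algebra k K]
    (hreal : ∀ (v : k →+* ℂ) (y : k), conj (v y) = v y) (hd : finrank k K % 4 = 2)
    (σ : K →+* ℂ) (c : K ≃ₐ[k] K) (hc : ∀ x, conj (σ x) = σ (c x)) (hne : ∃ x, c x ≠ x)
    (α : K) (hα : IsIntegral ℤ α) (h0 : α ≠ 0) (h1 : ‖σ α‖ ≠ 1) :
    Real.goldenRatio ^ (finrank ℚ k) ≤ (∏ σ : K →+* ℂ, max 1 ‖σ α‖) ^ 2 := by
  classical
  have : FiniteDimensional k K := FiniteDimensional.right ℚ k K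
  have hcc : c * c = 1 := by
    ext x
    apply σ.injective
    have h2 : σ (c (c x)) = conj (σ (c x)) := (hc _).symm
    have h3 : σ (c x) = conj (σ x) := (hc x).symm
    rw [AlgEquiv.mul_apply, h2, h3, Complex.conj_conj]
    rfl
  have hc1 : c ≠ 1 := by
    rintro rfl
    obtain ⟨x, hx⟩ := hne
    exact hx rfl
  have hord : orderOf c = 2 := orderOf_eq_prime (by rw [pow_two]; exact hcc) hc1
  set H := Subgroup.zpowers c with hH
  have hcard : Nat.card H = 2 := by rw [hH, Nat.card_zpowers, hord]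
  have hodd : Odd (finrank k (IntermediateField.fixedField H)) := by
    have h2 := finrank_mul_finrank k (IntermediateField.fixedField H) K
    rw [IntermediateField.finrank_fixedField_eq_card, hcard] at h2
    rw [Nat.odd_iff]
    omega
  have hnorm : ∀ h ∈ H, ∀ x, ‖σ (h x)‖ = ‖σ x‖ := by
    let S : Subgroup (K ≃ₐ[k] K) :=
      { carrier := {h | ∀ x, ‖σ (h x)‖ = ‖σ x‖}
        mul_mem' := by
          intro a b ha hb x
          rw [AlgEquiv.mul_apply, ha, hb]
        one_mem' := fun x => rfl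
        inv_mem' := by
          intro a ha x
          have h2 := ha (a⁻¹ x)
          have h3 : a (a⁻¹ x) = x := a.apply_symm_apply x
          rw [h3] at h2
          exact h2.symm }
    have hle : H ≤ S := by
      rw [hH, Subgroup.zpowers_le]
      intro x
      rw [← hc, Complex.norm_conj]
    exact fun h hh => hle hh
  apply norm_bound hreal H hodd α hα h0
  intro n hn h2
  have h3 := congrArg (fun y => ‖σ y‖) h2
  simp only [map_pow, map_prod, norm_pow, norm_prod, map_one, norm_one] at h3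
  rw [Finset.prod_congr rfl (fun h _ => hnorm h.1 h.2 α), Finset.prod_const, Finset.card_univ,
    ← Nat.card_eq_fintype_card, hcard, ← pow_mul] at h3
  exact h1 ((pow_eq_one_iff_of_nonneg (norm_nonneg _) (by omega)).1 h3)

/-- extensions of degree `2` modulo `4` -/
theorem complex_bound {k K : Type*} [Field k] [NumberField k] [Field K] [NumberField K]
    [Algebra k K] [IsGalois k K]
    (hreal : ∀ (v : k →+* ℂ) (y : k), conj (v y) = v y) (hd : finrank k K % 4 = 2)
    (hcx : ∀ σ : K →+* ℂ, ∃ x, conj (σ x) ≠ σ x)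
    (α : K) (hα : IsIntegral ℤ α) (h0 : α ≠ 0) (hnt : ∀ n : ℕ, 0 < n → α ^ n ≠ 1) :
    Real.goldenRatio ^ (finrank ℚ k) ≤ (∏ σ : K →+* ℂ, max 1 ‖σ α‖) ^ 2 := by
  obtain ⟨σ, hσ⟩ : ∃ σ : K →+* ℂ, ‖σ α‖ ≠ 1 := by
    by_contra hcon
    push Not at hcon
    obtain ⟨n, hn, h1⟩ := NumberField.Embeddings.pow_eq_one_of_norm_eq_one K ℂ hα hcon
    exact hnt n hn h1
  obtain ⟨g, hg⟩ := NumberField.ComplexEmbedding.exists_comp_symm_eq_of_comp_eq (k := k) σ
    ((starRingEnd ℂ).comp σ) (by
      ext y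
      exact (hreal (σ.comp (algebraMap k K)) y).symm)
  have hc : ∀ x, conj (σ x) = σ (g.symm x) := fun x =>
    (congrArg (fun τ : K →+* ℂ => τ x) hg).symm
  refine conj_bound hreal hd σ g.symm hc ?_ α hα h0 hσ
  obtain ⟨x, hx⟩ := hcx σ
  refine ⟨x, fun h => hx ?_⟩
  rw [hc, h]

/-- Galois extensions of the rational numbers -/
theorem galois_bound {k K : Type*} [Field k] [NumberField k] [Field K] [NumberField K]
    [Algebra k K] [IsGalois ℚ K]
    (hreal : ∀ (v : k →+* ℂ) (y : k), conj (v y) = v y) (hd : ¬ 4 ∣ finrank k K)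
    (α : K) (hα : IsIntegral ℤ α) (h0 : α ≠ 0) (hnt : ∀ n : ℕ, 0 < n → α ^ n ≠ 1) :
    Real.goldenRatio ^ (finrank ℚ k) ≤ (∏ σ : K →+* ℂ, max 1 ‖σ α‖) ^ 2 := by
  classical
  have : IsScalarTower ℚ k K := inferInstance
  have : FiniteDimensional k K := FiniteDimensional.right ℚ k K
  have hgk : IsGalois k K := IsGalois.tower_top_of_isGalois ℚ k K
  by_cases hK : ∀ (σ : K →+* ℂ) (x : K), conj (σ x) = σ x
  · have h1 := norm_bound (k := K) (K := K) hK ⊤ (by
      have h2 := finrank_mul_finrank K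
        (IntermediateField.fixedField (⊤ : Subgroup (K ≃ₐ[K] K))) K
      rw [finrank_self] at h2
      have h3 := Nat.eq_one_of_mul_eq_one_right h2
      rw [h3]
      exact odd_one) α hα h0 (by
      intro n hn h2
      have h3 : ∀ h : (⊤ : Subgroup (K ≃ₐ[K] K)), (h : K ≃ₐ[K] K) α = α :=
        fun h => (h : K ≃ₐ[K] K).commutes α
      rw [Finset.prod_congr rfl (fun h _ => h3 h), Finset.prod_const, ← pow_mul] at h2
      exact hnt _ (Nat.mul_pos (Finset.card_pos.2 Finset.univ_nonempty) hn) h2)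
    refine le_trans ?_ h1
    apply pow_le_pow_right₀ Real.one_lt_goldenRatio.le
    rw [← finrank_mul_finrank ℚ k K]
    exact Nat.le_mul_of_pos_right _ finrank_pos
  · push Not at hK
    obtain ⟨σ₀, x₀, hx₀⟩ := hK
    have hcx : ∀ σ : K →+* ℂ, ∃ x, conj (σ x) ≠ σ x := by
      intro σ
      by_contra hcon
      push Not at hcon
      obtain ⟨g, hg⟩ := NumberField.ComplexEmbedding.exists_comp_symm_eq_of_comp_eq (k := ℚ) σ σ₀
        (RingHom.ext_rat _ _)
      apply hx₀
      have h1 : σ₀ x₀ = σ (g.symm x₀) := (congrArg (fun τ : K →+* ℂ => τ x₀) hg).symm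
      rw [h1]
      exact hcon _
    refine complex_bound hreal ?_ hcx α hα h0 hnt
    obtain ⟨g, hg⟩ := NumberField.ComplexEmbedding.exists_comp_symm_eq_of_comp_eq (k := k) σ₀
      ((starRingEnd ℂ).comp σ₀) (by
        ext y
        exact (hreal (σ₀.comp (algebraMap k K)) y).symm)
    have hc : ∀ x, conj (σ₀ x) = σ₀ (g.symm x) := fun x =>
      (congrArg (fun τ : K →+* ℂ => τ x) hg).symm
    set c := g.symm with hcd
    have hcc : c ^ 2 = 1 := by
      rw [pow_two]
      ext x
      apply σ₀.injective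
      have h2 : σ₀ (c (c x)) = conj (σ₀ (c x)) := (hc _).symm
      have h3 : σ₀ (c x) = conj (σ₀ x) := (hc x).symm
      rw [AlgEquiv.mul_apply, h2, h3, Complex.conj_conj]
      rfl
    have hc1 : c ≠ 1 := by
      intro h
      apply hx₀
      rw [hc, h]
      rfl
    have hord : orderOf c = 2 := orderOf_eq_prime hcc hc1
    have h2 : 2 ∣ finrank k K := by
      rw [← IsGalois.card_aut_eq_finrank, ← hord]
      exact orderOf_dvd_natCard c
    omega

end Pool.Agent.J4.H64.GL
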