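import Mathlib
import Pool.Agent.J4.H64.GL.Conv

/-!
# Norms to arbitrary subfields
-/

set_option autoImplicit false

open Polynomial Module ComplexConjugate IntermediateField

namespace Pool.Agent.J4.H64.GL

open Pool.Agent.R701.UG Pool.Agent.H338R2

/-- The measure of the norm is at most the measure. -/
theorem norm_measure_le {L K : Type*} [Field L] [NumberField L] [Field K] [NumberField K]
    [Algebra L K] (α : K) :
    ∏ s : L →+* ℂ, max 1 ‖s (Algebra.norm L α)‖ ≤ ∏ σ : K →+* ℂ, max 1 ‖σ α‖ := by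
  classical
  have : FiniteDimensional L K := FiniteDimensional.right ℚ L K
  have h1 : ∏ σ : K →+* ℂ, max 1 ‖σ α‖ = ∏ σ : K →ₐ[ℚ] ℂ, max 1 ‖σ α‖ :=
    Fintype.prod_equiv (RingHom.equivRatAlgHom K ℂ) _ _ fun v => rfl
  have h2 : ∏ s : L →+* ℂ, max 1 ‖s (Algebra.norm L α)‖ =
      ∏ s : L →ₐ[ℚ] ℂ, max 1 ‖s (Algebra.norm L α)‖ :=
    Fintype.prod_equiv (RingHom.equivRatAlgHom L ℂ) _ _ fun v => rfl
  rw [h1, h2, Fintype.prod_equiv algHomEquivSigma (fun σ : K →ₐ[ℚ] ℂ => max 1 ‖σ α‖)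
    (fun σ : Σ f : L →ₐ[ℚ] ℂ, @AlgHom L K ℂ _ _ _ _ f.toRingHom.toAlgebra =>
      max 1 ‖σ.2 α‖) (fun σ => rfl), Fintype.prod_sigma]
  refine Finset.prod_le_prod (fun _ _ => zero_le_one.trans (le_max_left _ _)) fun s _ => ?_
  let _ : Algebra L ℂ := s.toRingHom.toAlgebra
  have h3 := Algebra.norm_eq_prod_embeddings L ℂ α
  have h4 : algebraMap L ℂ (Algebra.norm L α) = s (Algebra.norm L α) := rfl
  rw [← h4, h3]
  refine le_trans (prod_max_le _) (le_of_eq ?_)
  exact Finset.prod_congr (by congr) fun _ _ => rfl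

/-- A number of odd degree over a totally real field. -/
theorem odd_bound {k L : Type*} [Field k] [NumberField k] [Field L] [NumberField L] [Algebra k L]
    (hreal : ∀ (v : k →+* ℂ) (y : k), conj (v y) = v y) (hodd : Odd (finrank k L)) (β : L)
    (hβ : IsIntegral ℤ β) (h0 : β ≠ 0) (hnt : ∀ n : ℕ, 0 < n → β ^ n ≠ 1) :
    Real.goldenRatio ^ (finrank ℚ k) ≤ (∏ σ : L →+* ℂ, max 1 ‖σ β‖) ^ 2 := by
  classical
  have : FiniteDimensional k L := FiniteDimensional.right ℚ k L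
  refine norm_bound hreal (⊥ : Subgroup (L ≃ₐ[k] L)) ?_ β hβ h0 ?_
  · have h2 := finrank_mul_finrank k (IntermediateField.fixedField (⊥ : Subgroup (L ≃ₐ[k] L))) L
    rw [← h2] at hodd
    exact Nat.Odd.of_mul_left hodd
  · intro n hn
    have h1 : ∏ h : (⊥ : Subgroup (L ≃ₐ[k] L)), (h : L ≃ₐ[k] L) β = β := by
      rw [Fintype.prod_eq_single (1 : (⊥ : Subgroup (L ≃ₐ[k] L)))]
      · rfl
      · intro h hh
        exact absurd (Subsingleton.elim h 1) hh
    rw [h1]
    exact hnt n hn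

theorem sub_bound {k L K : Type*} [Field k] [NumberField k] [Field L] [NumberField L]
    [Algebra k L] [Field K] [NumberField K] [Algebra L K]
    (hreal : ∀ (v : k →+* ℂ) (y : k), conj (v y) = v y) (hodd : Odd (finrank k L)) (α : K)
    (hα : IsIntegral ℤ α) (h0 : α ≠ 0) (hnt : ∀ n : ℕ, 0 < n → (Algebra.norm L α) ^ n ≠ 1) :
    Real.goldenRatio ^ (finrank ℚ k) ≤ (∏ σ : K →+* ℂ, max 1 ‖σ α‖) ^ 2 := by
  have : FiniteDimensional L K := FiniteDimensional.right ℚ L K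
  have h1 := odd_bound hreal hodd (Algebra.norm L α) (Algebra.isIntegral_norm L hα)
    (Algebra.norm_ne_zero_iff.2 h0) hnt
  refine h1.trans ?_
  exact pow_le_pow_left₀ (Finset.prod_nonneg fun _ _ => zero_le_one.trans (le_max_left _ _))
    (norm_measure_le α) 2

end Pool.Agent.J4.H64.GL
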