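import Mathlib
import Pool.Agent.J4.H64.GL.Sub
import Pool.Agent.W628.AbSalem.Final
import Pool.Agent.Results.MP_dc0c68_nt.QuadraticOverAbelian

/-!
# Measures of elements of abelian fields and of their quadratic extensions
-/

set_option autoImplicit false

open Polynomial Module ComplexConjugate IntermediateField

namespace Pool.Agent.J4.H64.GL

open Pool.Agent.R701.UG Pool.Agent.H338R2 Pool.Agent.W628.AbSalem

/-- measure of an element in a field -/
noncomputable def MK (K : Type*) [Field K] [NumberField K] (α : K) : ℝ :=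
  ∏ σ : K →+* ℂ, max 1 ‖σ α‖

lemma one_le_MK (K : Type*) [Field K] [NumberField K] (α : K) : 1 ≤ MK K α := by
  unfold MK
  have : ∏ _σ : K →+* ℂ, (1 : ℝ) ≤ ∏ σ : K →+* ℂ, max 1 ‖σ α‖ :=
    Finset.prod_le_prod (fun _ _ => zero_le_one) (fun _ _ => le_max_left _ _)
  simpa using this

/-- The measure in a field is a power of the Mahler measure of the minimal polynomial. -/
theorem MK_eq {K : Type*} [Field K] [NumberField K] (α : K) (hα : IsIntegral ℤ α) :
    MK K α = MP (minpoly ℤ α) ^ (finrank ℚ⟮α⟯ K) := by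
  classical
  have hint : IsIntegral ℚ α := Algebra.IsIntegral.isIntegral α
  set L := ℚ⟮α⟯ with hL
  set a : L := AdjoinSimple.gen ℚ α with ha
  have haα : algebraMap L K a = α := AdjoinSimple.algebraMap_gen ℚ α
  have h1 : MK K α = ∏ σ : K →ₐ[ℚ] ℂ, max 1 ‖σ α‖ :=
    Fintype.prod_equiv (RingHom.equivRatAlgHom K ℂ) _ _ fun v => rfl
  have h2 : ∏ σ : K →ₐ[ℚ] ℂ, max 1 ‖σ α‖ = (∏ τ : L →ₐ[ℚ] ℂ, max 1 ‖τ a‖) ^ finrank L K := by
    rw [Fintype.prod_equiv algHomEquivSigma (fun σ : K →ₐ[ℚ] ℂ => max 1 ‖σ α‖)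
      (fun σ => max 1 ‖σ.1 a‖), ← Finset.univ_sigma_univ, Finset.prod_sigma, ← Finset.prod_pow]
    · refine Finset.prod_congr rfl fun σ _ => ?_
      let _ : Algebra L ℂ := σ.toRingHom.toAlgebra
      simp_rw [Finset.prod_const]
      congr
      exact AlgHom.card L K ℂ
    · intro σ
      simp only [algHomEquivSigma, Equiv.coe_fn_mk, AlgHom.domRestrict, AlgHom.comp_apply,
        IsScalarTower.coe_toAlgHom', haα]
  rw [h1, h2]
  congr 1
  have hma : minpoly ℚ a = minpoly ℚ α := by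
    rw [← haα]
    exact (minpoly.algebraMap_eq (algebraMap L K).injective a).symm
  have haint : IsIntegral ℚ a := Algebra.IsIntegral.isIntegral a
  have hmZ : (minpoly ℤ α).map (Int.castRingHom ℂ) = (minpoly ℚ a).map (algebraMap ℚ ℂ) := by
    rw [hma, minpoly.isIntegrallyClosed_eq_field_fractions' ℚ hα, Polynomial.map_map]
    congr 1
  have hmon : ((minpoly ℤ α).map (Int.castRingHom ℂ)).Monic := (minpoly.monic hα).map _
  have hnd : ((minpoly ℤ α).map (Int.castRingHom ℂ)).roots.Nodup := by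
    rw [hmZ]
    exact nodup_roots ((minpoly.irreducible haint).separable.map)
  have h3 : MP (minpoly ℤ α) =
      ∏ z ∈ ((minpoly ℤ α).map (Int.castRingHom ℂ)).roots.toFinset, max 1 ‖z‖ := by
    rw [MP, mahlerMeasure_eq_leadingCoeff_mul_prod_roots, hmon.leadingCoeff, norm_one, one_mul]
    change _ = (Multiset.map (fun a => max 1 ‖a‖)
      ((minpoly ℤ α).map (Int.castRingHom ℂ)).roots.toFinset.val).prod
    rw [Multiset.toFinset_val, Multiset.dedup_eq_self.2 hnd]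
  have h4 : ∏ z ∈ Finset.univ.image (fun τ : L →ₐ[ℚ] ℂ => τ a), max 1 ‖z‖ =
      ∏ τ : L →ₐ[ℚ] ℂ, max 1 ‖τ a‖ := by
    apply Finset.prod_image
    intro τ _ τ' _ h
    refine IntermediateField.algHom_ext_of_eq_adjoin ℚ hL ?_
    rintro x hx
    rw [Set.mem_singleton_iff] at hx
    subst hx
    exact h
  rw [h3, ← h4]
  congr 1
  ext z
  rw [Finset.mem_image, Multiset.mem_toFinset, hmZ]
  have h5 := Algebra.IsAlgebraic.range_eval_eq_rootSet_minpoly (F := ℚ) ℂ a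
  have h6 : z ∈ (minpoly ℚ a).rootSet ℂ ↔ z ∈ ((minpoly ℚ a).map (algebraMap ℚ ℂ)).roots := by
    rw [rootSet, Finset.mem_coe, Multiset.mem_toFinset, aroots]
  rw [← h6, ← h5, Set.mem_range]
  constructor
  · rintro ⟨τ, -, h⟩
    exact ⟨τ, h⟩
  · rintro ⟨τ, h⟩
    exact ⟨τ, Finset.mem_univ _, h⟩

lemma one_le_MP {f : ℤ[X]} (hf : f ≠ 0) : 1 ≤ MP f := one_le_mahlerMeasure_of_ne_zero hf

lemma MP_le_MK {K : Type*} [Field K] [NumberField K] (α : K) (hα : IsIntegral ℤ α) :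
    MP (minpoly ℤ α) ≤ MK K α := by
  rw [MK_eq α hα]
  have : FiniteDimensional ℚ⟮α⟯ K := FiniteDimensional.right ℚ ℚ⟮α⟯ K
  exact le_self_pow₀ (one_le_MP (minpoly.monic hα).ne_zero) finrank_pos.ne'

/-- complex conjugation on an abelian field -/
theorem exists_conj {k : Type*} [Field k] [NumberField k] [IsAbelianGalois ℚ k] :
    ∃ c : k ≃ₐ[ℚ] k, ∀ (v : k →+* ℂ) (x : k), conj (v x) = v (c x) := by
  obtain ⟨v₀⟩ : Nonempty (k →+* ℂ) := inferInstance
  obtain ⟨g, hg⟩ := NumberField.ComplexEmbedding.exists_comp_symm_eq_of_comp_eq (k := ℚ) v₀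
    ((starRingEnd ℂ).comp v₀) (RingHom.ext_rat _ _)
  refine ⟨g.symm, fun v x => ?_⟩
  obtain ⟨h, hh⟩ := NumberField.ComplexEmbedding.exists_comp_symm_eq_of_comp_eq (k := ℚ) v₀ v
    (RingHom.ext_rat _ _)
  have e1 : ∀ y, v₀ (g.symm y) = conj (v₀ y) := fun y => congrArg (fun τ : k →+* ℂ => τ y) hg
  have e2 : ∀ y, v₀ (h.symm y) = v y := fun y => congrArg (fun τ : k →+* ℂ => τ y) hh
  rw [← e2, ← e2, ← e1]
  congr 1
  have h3 : g.symm * h.symm = h.symm * g.symm :=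
    (IsMulCommutative.is_comm (M := k ≃ₐ[ℚ] k)).comm _ _
  exact congrArg (fun τ : k ≃ₐ[ℚ] k => τ x) h3

lemma quarter_ineq {y : ℝ} (_hy : 0 ≤ y) : y * |y - 1| ≤ 1 / 4 * (max 1 y) ^ 3 := by
  rcases le_total y 1 with h | h
  · rw [max_eq_left h, abs_of_nonpos (by linarith)]
    nlinarith [sq_nonneg (y - 1 / 2)]
  · rw [max_eq_right h, abs_of_nonneg (by linarith)]
    have : 0 ≤ y * (y / 2 - 1) ^ 2 := by positivity
    nlinarith

/-- Elements of abelian fields. -/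
theorem abelian_bound {k : Type*} [Field k] [NumberField k] [IsAbelianGalois ℚ k] (x : k)
    (hx : IsIntegral ℤ x) (h0 : x ≠ 0) (hnt : ∀ n : ℕ, 0 < n → x ^ n ≠ 1) :
    4 ≤ MP (minpoly ℤ x) ^ 6 := by
  obtain ⟨c, hc⟩ := exists_conj (k := k)
  have hcint : IsIntegral ℤ (c x) := hx.map (c.toAlgHom.restrictScalars ℤ)
  have hδint : IsIntegral ℤ (x * c x - 1) := (hx.mul hcint).sub isIntegral_one
  have hval : ∀ v : k →+* ℂ, v (x * c x) = ((‖v x‖ ^ 2 : ℝ) : ℂ) := by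
    intro v
    rw [map_mul, ← hc, Complex.mul_conj, Complex.normSq_eq_norm_sq]
  have hδ0 : x * c x - 1 ≠ 0 := by
    intro h
    obtain ⟨n, hn, h1⟩ := NumberField.Embeddings.pow_eq_one_of_norm_eq_one k ℂ hx (by
      intro v
      have h1 := hval v
      rw [sub_eq_zero.1 h, map_one] at h1
      have h2 : ‖v x‖ ^ 2 = 1 := by exact_mod_cast h1.symm
      exact (pow_eq_one_iff_of_nonneg (norm_nonneg _) two_ne_zero).1 h2)
    exact hnt n hn h1
  have h1 := one_le_prod_emb hδint hδ0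
  have h2 := one_le_prod_emb hx h0
  have h3 : (1 : ℝ) ≤ ∏ v : k →+* ℂ, (‖v x‖ ^ 2 * ‖v (x * c x - 1)‖) := by
    rw [Finset.prod_mul_distrib, Finset.prod_pow]
    exact one_le_mul_of_one_le_of_one_le (one_le_pow₀ h2) h1
  have h4 : ∏ v : k →+* ℂ, (‖v x‖ ^ 2 * ‖v (x * c x - 1)‖) ≤
      ∏ v : k →+* ℂ, (1 / 4 * (max 1 ‖v x‖) ^ 6) := by
    refine Finset.prod_le_prod (fun v _ => by positivity) fun v _ => ?_
    have h5 : ‖v (x * c x - 1)‖ = |‖v x‖ ^ 2 - 1| := by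
      rw [map_sub, hval, map_one]
      have : ((‖v x‖ ^ 2 : ℝ) : ℂ) - 1 = ((‖v x‖ ^ 2 - 1 : ℝ) : ℂ) := by push_cast; ring
      rw [this, Complex.norm_real, Real.norm_eq_abs]
    rw [h5]
    refine (quarter_ineq (by positivity)).trans (le_of_eq ?_)
    have h6 : max 1 (‖v x‖ ^ 2) = (max 1 ‖v x‖) ^ 2 := by
      rcases le_total ‖v x‖ 1 with h | h
      · rw [max_eq_left h, max_eq_left (pow_le_one₀ (norm_nonneg _) h), one_pow]
      · rw [max_eq_right h, max_eq_right (one_le_pow₀ h)]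
    rw [h6]
    ring
  have h5 : ∏ v : k →+* ℂ, (1 / 4 * (max 1 ‖v x‖) ^ 6) = (1 / 4) ^ (finrank ℚ k) * MK k x ^ 6 := by
    rw [Finset.prod_mul_distrib, Finset.prod_const, Finset.card_univ,
      NumberField.Embeddings.card k ℂ, Finset.prod_pow]
    rfl
  rw [h5, MK_eq x hx] at h4
  have h6 := h3.trans h4
  have : FiniteDimensional ℚ⟮x⟯ k := FiniteDimensional.right ℚ ℚ⟮x⟯ k
  set m := finrank ℚ⟮x⟯ k with hm
  have hm0 : m ≠ 0 := finrank_pos.ne'
  have h7 : finrank ℚ k = finrank ℚ ℚ⟮x⟯ * m := (finrank_mul_finrank ℚ ℚ⟮x⟯ k).symm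
  have h8 : (4 : ℝ) ^ (finrank ℚ k) ≤ (MP (minpoly ℤ x) ^ m) ^ 6 := by
    have h9 : (1 / 4 : ℝ) ^ (finrank ℚ k) * 4 ^ (finrank ℚ k) = 1 := by
      rw [← mul_pow]
      norm_num
    have h10 : (0 : ℝ) < 4 ^ (finrank ℚ k) := by positivity
    calc (4 : ℝ) ^ (finrank ℚ k) = 1 * 4 ^ (finrank ℚ k) := by ring
      _ ≤ ((1 / 4) ^ (finrank ℚ k) * (MP (minpoly ℤ x) ^ m) ^ 6) * 4 ^ (finrank ℚ k) :=
          mul_le_mul_of_nonneg_right h6 h10.le
      _ = ((1 / 4 : ℝ) ^ (finrank ℚ k) * 4 ^ (finrank ℚ k)) * (MP (minpoly ℤ x) ^ m) ^ 6 := by ring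
      _ = _ := by rw [h9, one_mul]
  have h11 : (MP (minpoly ℤ x) ^ m) ^ 6 = (MP (minpoly ℤ x) ^ 6) ^ m := by ring
  rw [h7, pow_mul, h11] at h8
  have h9 := le_of_pow_le_pow_left₀ hm0 (by
    have := one_le_MP (minpoly.monic hx).ne_zero
    positivity) h8
  refine le_trans ?_ h9
  have : 0 < finrank ℚ ℚ⟮x⟯ := finrank_pos
  exact le_self_pow₀ (by norm_num) this.ne'

/-- Numbers `z` with `z + 1/z` in a cyclotomic field. -/
theorem trace_bound {z : ℂ} (hz : IsIntegral ℤ z) (h0 : z ≠ 0)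
    (hnt : ∀ n : ℕ, 0 < n → z ^ n ≠ 1)
    (hex : ∃ N : ℕ, 0 < N ∧ z + z⁻¹ ∈ IntermediateField.adjoin ℚ {w : ℂ | w ^ N = 1}) :
    1.21 < MP (minpoly ℤ z) := by
  by_cases hin : ∃ N : ℕ, 0 < N ∧ z ∈ IntermediateField.adjoin ℚ {w : ℂ | w ^ N = 1}
  · obtain ⟨N, hN, hmem⟩ := hin
    have : NeZero N := ⟨by omega⟩
    have hζ : IsPrimitiveRoot (Complex.exp (2 * Real.pi * Complex.I / N)) N :=
      Complex.isPrimitiveRoot_exp N (NeZero.ne N)
    set ζ := Complex.exp (2 * Real.pi * Complex.I / N) with hζdef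
    rw [cyc_eq hζ] at hmem
    set F := IntermediateField.adjoin ℚ {ζ} with hF
    have hcyc : IsCyclotomicExtension {N} ℚ F := cyc_inst hζ
    have : NumberField F := IsCyclotomicExtension.numberField {N} ℚ F
    have : IsAbelianGalois ℚ F := IsCyclotomicExtension.isAbelianGalois {N} ℚ F
    have hinj : Function.Injective (algebraMap F ℂ) := (algebraMap F ℂ).injective
    have h1 := abelian_bound (⟨z, hmem⟩ : F) ((isIntegral_algebraMap_iff hinj).mp hz)
      (fun h => h0 (congrArg Subtype.val h))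
      (fun n hn h => hnt n hn (by
        have := congrArg Subtype.val h
        simpa using this))
    have h2 : minpoly ℤ (⟨z, hmem⟩ : F) = minpoly ℤ z :=
      (minpoly.algebraMap_eq hinj (⟨z, hmem⟩ : F)).symm
    rw [h2] at h1
    by_contra hcon
    push Not at hcon
    have h3 : 0 ≤ MP (minpoly ℤ z) := mahlerMeasure_nonneg _
    have h4 : MP (minpoly ℤ z) ^ 6 ≤ 1.21 ^ 6 := pow_le_pow_left₀ h3 hcon 6
    norm_num at h4
    linarith
  · push Not at hin
    exact Pool.Agent.Results.MP_dc0c68_nt.QuadraticOverAbelian.result (minpoly ℤ z)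
      (minpoly.monic hz).ne_zero z (minpoly.aeval ℤ z) hex hin

end Pool.Agent.J4.H64.GL
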