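import Mathlib
import Pool.Agent.J4.H64.GL.Ab

/-!
# Fields with a central Frobenius automorphism: the base field
-/

set_option autoImplicit false

open Polynomial Module ComplexConjugate IntermediateField

namespace Pool.Agent.J4.H64.GL

open Pool.Agent.R701.UG Pool.Agent.H338R2

/-- `φ x` is congruent to `x ^ p` modulo `p` for all integers `x` of the field -/
def IsFrob {k : Type*} [Field k] [NumberField k] (p : ℕ) (φ : k ≃ₐ[ℚ] k) : Prop :=
  ∀ x : k, IsIntegral ℤ x → ∃ y : k, IsIntegral ℤ y ∧ x ^ p - φ x = p * y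

section

variable {k : Type*} [Field k] [NumberField k] {p : ℕ} {φ : k ≃ₐ[ℚ] k}

lemma iter_eq (x : k) (h : x ^ p = φ x) (m : ℕ) : x ^ (p ^ m) = (φ ^ m) x := by
  induction m with
  | zero => simp
  | succ m ih =>
    rw [pow_succ, pow_mul, ih, ← map_pow, h, pow_succ, AlgEquiv.mul_apply]

lemma torsion_of_eq (hp : 2 ≤ p) (x : k) (h0 : x ≠ 0) (h : x ^ p = φ x) :
    ∃ n : ℕ, 0 < n ∧ x ^ n = 1 := by
  have h1 := iter_eq x h (orderOf φ)
  rw [pow_orderOf_eq_one] at h1
  have h2 : 0 < orderOf φ := orderOf_pos φ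
  have h3 : 1 < p ^ orderOf φ := Nat.one_lt_pow h2.ne' (by omega)
  refine ⟨p ^ orderOf φ - 1, by omega, ?_⟩
  have h4 : x ^ (p ^ orderOf φ - 1) * x = 1 * x := by
    rw [← pow_succ, one_mul]
    have : p ^ orderOf φ - 1 + 1 = p ^ orderOf φ := by omega
    rw [this, h1]
    rfl
  exact mul_right_cancel₀ h0 h4

lemma pow_le_prod_of {e y : k} (hy : IsIntegral ℤ y) (he : e = p * y) (he0 : e ≠ 0) :
    (p : ℝ) ^ (finrank ℚ k) ≤ ∏ v : k →+* ℂ, ‖v e‖ := by
  have hy0 : y ≠ 0 := by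
    rintro rfl
    exact he0 (by rw [he, mul_zero])
  have h1 := one_le_prod_emb hy hy0
  have h2 : ∏ v : k →+* ℂ, ‖v e‖ = (p : ℝ) ^ (finrank ℚ k) * ∏ v : k →+* ℂ, ‖v y‖ := by
    rw [← NumberField.Embeddings.card k ℂ, ← Finset.card_univ, ← Finset.prod_const,
      ← Finset.prod_mul_distrib]
    refine Finset.prod_congr rfl fun v _ => ?_
    rw [he, map_mul, norm_mul, map_natCast, Complex.norm_natCast]
  rw [h2]
  exact le_mul_of_one_le_right (by positivity) h1

lemma prod_comp_aut (g : (k →+* ℂ) → ℝ) (φ : k ≃ₐ[ℚ] k) :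
    ∏ v : k →+* ℂ, g (v.comp (φ : k →+* k)) = ∏ v : k →+* ℂ, g v := by
  refine Fintype.prod_equiv ⟨fun σ => σ.comp (φ : k →+* k), fun σ => σ.comp (φ.symm : k →+* k),
    fun σ => by ext x; simp, fun σ => by ext x; simp⟩ _ _ fun σ => rfl

/-- Elements of the base field. -/
theorem frob_base (hp : 2 ≤ p) (hφ : IsFrob p φ) (x : k) (hx : IsIntegral ℤ x) (h0 : x ≠ 0)
    (hnt : ∀ n : ℕ, 0 < n → x ^ n ≠ 1) :
    (p : ℝ) ^ (finrank ℚ k) ≤ 2 ^ (finrank ℚ k) * MK k x ^ (p + 1) := by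
  obtain ⟨y, hy, he⟩ := hφ x hx
  have he0 : x ^ p - φ x ≠ 0 := by
    intro h
    obtain ⟨n, hn, h1⟩ := torsion_of_eq hp x h0 (sub_eq_zero.1 h)
    exact hnt n hn h1
  refine (pow_le_prod_of hy he he0).trans ?_
  have h1 : ∏ v : k →+* ℂ, ‖v (x ^ p - φ x)‖ ≤
      ∏ v : k →+* ℂ, (2 * ((max 1 ‖v x‖) ^ p * max 1 ‖(v.comp (φ : k →+* k)) x‖)) := by
    refine Finset.prod_le_prod (fun v _ => norm_nonneg _) fun v _ => ?_
    rw [map_sub, map_pow]
    refine (norm_sub_le _ _).trans ?_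
    rw [norm_pow]
    have h2 : ‖v x‖ ^ p ≤ (max 1 ‖v x‖) ^ p := pow_le_pow_left₀ (norm_nonneg _) (le_max_right _ _) p
    have h3 : ‖v (φ x)‖ ≤ max 1 ‖(v.comp (φ : k →+* k)) x‖ := le_max_right _ _
    have h4 : 1 ≤ (max 1 ‖v x‖) ^ p := one_le_pow₀ (le_max_left _ _)
    have h5 : 1 ≤ max 1 ‖(v.comp (φ : k →+* k)) x‖ := le_max_left _ _
    nlinarith [mul_nonneg (sub_nonneg.2 h4) (sub_nonneg.2 h5)]
  refine h1.trans (le_of_eq ?_)
  rw [Finset.prod_mul_distrib, Finset.prod_const, Finset.card_univ,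
    NumberField.Embeddings.card k ℂ, Finset.prod_mul_distrib, Finset.prod_pow,
    prod_comp_aut (fun v => max 1 ‖v x‖) φ]
  unfold MK
  ring

lemma frob_torsion (hp : 3 ≤ p) (hφ : IsFrob p φ) (x : k) (hx : IsIntegral ℤ x) {n : ℕ}
    (hn : 0 < n) (h : x ^ n = 1) : x ^ p = φ x := by
  obtain ⟨y, hy, he⟩ := hφ x hx
  by_contra hne
  have he0 : x ^ p - φ x ≠ 0 := sub_ne_zero.2 hne
  have h1 := pow_le_prod_of hy he he0
  have hone : ∀ v : k →+* ℂ, ‖v x‖ = 1 := by
    intro v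
    have h2 := congrArg (fun x => ‖v x‖) h
    simp only [map_pow, norm_pow, map_one, norm_one] at h2
    exact (pow_eq_one_iff_of_nonneg (norm_nonneg _) hn.ne').1 h2
  have h2 : ∏ v : k →+* ℂ, ‖v (x ^ p - φ x)‖ ≤ ∏ _v : k →+* ℂ, (2 : ℝ) := by
    refine Finset.prod_le_prod (fun v _ => norm_nonneg _) fun v _ => ?_
    rw [map_sub, map_pow]
    refine (norm_sub_le _ _).trans ?_
    rw [norm_pow, hone v]
    have h3 : ‖v (φ x)‖ = 1 := hone (v.comp (φ : k →+* k))
    rw [h3]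
    norm_num
  rw [Finset.prod_const, Finset.card_univ, NumberField.Embeddings.card k ℂ] at h2
  have h3 : (2 : ℝ) ^ (finrank ℚ k) < (p : ℝ) ^ (finrank ℚ k) := by
    have : (3 : ℝ) ≤ p := by exact_mod_cast hp
    exact pow_lt_pow_left₀ (by linarith) (by norm_num) finrank_pos.ne'
  linarith

end

/-- power sums in terms of sum and product -/
def ps {R : Type*} [CommRing R] (x y : R) : ℕ → R
  | 0 => 2
  | 1 => x
  | n + 2 => x * ps x y (n + 1) - y * ps x y n

lemma ps_eq {R : Type*} [CommRing R] (a b : R) (n : ℕ) : ps (a + b) (a * b) n = a ^ n + b ^ n := by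
  induction n using Nat.strong_induction_on with
  | _ n ih =>
    match n with
    | 0 => simp [ps]; norm_num
    | 1 => simp [ps]
    | n + 2 =>
      rw [ps, ih (n + 1) (by omega), ih n (by omega)]
      ring

lemma map_ps {R S F : Type*} [CommRing R] [CommRing S] [FunLike F R S] [RingHomClass F R S]
    (f : F) (x y : R) (n : ℕ) : f (ps x y n) = ps (f x) (f y) n := by
  induction n using Nat.strong_induction_on with
  | _ n ih =>
    match n with
    | 0 => rw [ps, ps, map_ofNat]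
    | 1 => simp [ps]
    | n + 2 => rw [ps, ps, map_sub, map_mul, map_mul, ih (n + 1) (by omega), ih n (by omega)]

/-- the power sum is congruent to the power of the sum -/
lemma power_sum_mod {R : Type*} [CommRing R] {p : ℕ} (hp : p.Prime) (a b : R) (ha : IsIntegral ℤ a)
    (hb : IsIntegral ℤ b) : ∃ w : R, IsIntegral ℤ w ∧ a ^ p + b ^ p = (a + b) ^ p - p * w := by
  refine ⟨∑ j ∈ Finset.Ico 1 p, ((p.choose j / p : ℕ) : R) * (a ^ j * b ^ (p - j)), ?_, ?_⟩
  · refine IsIntegral.sum _ fun j _ => ?_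
    have h1 : IsIntegral ℤ ((p.choose j / p : ℕ) : R) := by
      rw [← map_natCast (algebraMap ℤ R)]
      exact isIntegral_algebraMap
    exact h1.mul ((ha.pow _).mul (hb.pow _))
  · rw [add_pow, Finset.mul_sum]
    have h1 : ∀ j ∈ Finset.Ico 1 p, (p : R) * (((p.choose j / p : ℕ) : R) *
        (a ^ j * b ^ (p - j))) = a ^ j * b ^ (p - j) * (p.choose j : R) := by
      intro j hj
      rw [Finset.mem_Ico] at hj
      have h2 : p ∣ p.choose j := hp.dvd_choose_self (by omega) hj.2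
      have h3 : ((p * (p.choose j / p) : ℕ) : R) = (p.choose j : R) := by
        rw [Nat.mul_div_cancel' h2]
      rw [← h3]
      push_cast
      ring
    rw [Finset.sum_congr rfl h1, Finset.sum_range_succ, Finset.range_eq_Ico,
      Finset.sum_eq_sum_Ico_succ_bot hp.pos]
    simp
    ring

end Pool.Agent.J4.H64.GL
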