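import Mathlib
import Pool.Agent.J4.H64.GL.Ab

/-!
# Measures of elements of quadratic extensions of abelian fields
-/

set_option autoImplicit false

open Polynomial Module ComplexConjugate IntermediateField

namespace Pool.Agent.J4.H64.GL

open Pool.Agent.R701.UG Pool.Agent.H338R2 Pool.Agent.W628.AbSalem

/-- the field embeds in a cyclotomic field -/
def InCyclotomic (k : Type*) [Field k] : Prop :=
  ∃ N : ℕ, 0 < N ∧ ∃ ι : k →+* ℂ, ∀ x, ι x ∈ IntermediateField.adjoin ℚ {w : ℂ | w ^ N = 1}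

lemma InCyclotomic.isAbelian {k : Type*} [Field k] [NumberField k] (h : InCyclotomic k) :
    IsAbelianGalois ℚ k := by
  obtain ⟨N, hN, ι, hι⟩ := h
  have : NeZero N := ⟨by omega⟩
  have hζ : IsPrimitiveRoot (Complex.exp (2 * Real.pi * Complex.I / N)) N :=
    Complex.isPrimitiveRoot_exp N (NeZero.ne N)
  set ζ := Complex.exp (2 * Real.pi * Complex.I / N) with hζdef
  rw [cyc_eq hζ] at hι
  set F := IntermediateField.adjoin ℚ {ζ} with hF
  have hcyc : IsCyclotomicExtension {N} ℚ F := cyc_inst hζ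
  have : NumberField F := IsCyclotomicExtension.numberField {N} ℚ F
  have : IsAbelianGalois ℚ F := IsCyclotomicExtension.isAbelianGalois {N} ℚ F
  let g : k →+* F := ι.codRestrict F hι
  exact IsAbelianGalois.of_algHom (M := F) g.toRatAlgHom

lemma InCyclotomic.emb {k : Type*} [Field k] [NumberField k] (h : InCyclotomic k) :
    ∃ N : ℕ, 0 < N ∧ ∀ (v : k →+* ℂ) (x : k),
      v x ∈ IntermediateField.adjoin ℚ {w : ℂ | w ^ N = 1} := by
  have := h.isAbelian
  obtain ⟨N, hN, ι, hι⟩ := h
  refine ⟨N, hN, fun v x => ?_⟩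
  obtain ⟨g, hg⟩ := NumberField.ComplexEmbedding.exists_comp_symm_eq_of_comp_eq (k := ℚ) ι v
    (RingHom.ext_rat _ _)
  have e1 : v x = ι (g.symm x) := (congrArg (fun τ : k →+* ℂ => τ x) hg).symm
  rw [e1]
  exact hι _

lemma MK_aut {L : Type*} [Field L] [NumberField L] (s : L ≃+* L) (β : L) :
    MK L (s β) = MK L β := by
  unfold MK
  refine Fintype.prod_equiv ⟨fun σ => σ.comp (s : L →+* L), fun σ => σ.comp (s.symm : L →+* L),
    fun σ => by ext x; simp, fun σ => by ext x; simp⟩ _ _ fun σ => rfl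

lemma pair_real {r : ℝ} (hr : 1 ≤ r) : 2 * (r - 1 / r) ≤ 2 / 5 * r ^ 4 := by
  have h0 : 0 < r := by linarith
  have h1 : 5 * (r ^ 2 - 1) ≤ r ^ 5 := by
    nlinarith [sq_nonneg (r - 5 / 4), sq_nonneg (r ^ 2 - 8 / 5), mul_nonneg h0.le
      (sq_nonneg (r ^ 2 - 8 / 5)), mul_nonneg h0.le (sq_nonneg (r - 5 / 4))]
  have h2 : 2 * (r - 1 / r) = 2 * (r ^ 2 - 1) / r := by field_simp
  rw [h2, div_le_iff₀ h0]
  nlinarith

lemma pair_ineq' {z w : ℂ} (h : ‖z‖ * ‖w‖ = 1) (h1 : 1 ≤ ‖z‖) :
    ‖z + w - z * w * (conj z + conj w)‖ ≤ 2 / 5 * (max 1 ‖z‖ * max 1 ‖w‖) ^ 4 := by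
  set r := ‖z‖ with hr
  have hr0 : 0 < r := by linarith
  have hw : ‖w‖ = 1 / r := by field_simp; linarith
  have hw1 : ‖w‖ ≤ 1 := by rw [hw, div_le_one hr0]; exact h1
  rw [max_eq_right h1, max_eq_left hw1, mul_one]
  have e1 : z * conj z = ((r ^ 2 : ℝ) : ℂ) := by
    rw [Complex.mul_conj, Complex.normSq_eq_norm_sq]
  have e2 : w * conj w = (((1 / r) ^ 2 : ℝ) : ℂ) := by
    rw [Complex.mul_conj, Complex.normSq_eq_norm_sq, hw]
  have e3 : z + w - z * w * (conj z + conj w) =
      z * (1 - (((1 / r) ^ 2 : ℝ) : ℂ)) - w * (((r ^ 2 : ℝ) : ℂ) - 1) := by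
    linear_combination (-w) * e1 - z * e2
  rw [e3]
  have e4 : ‖(1 : ℂ) - (((1 / r) ^ 2 : ℝ) : ℂ)‖ = 1 - (1 / r) ^ 2 := by
    rw [← Complex.ofReal_one, ← Complex.ofReal_sub, Complex.norm_real, Real.norm_eq_abs,
      abs_of_nonneg]
    have : 1 / r ≤ 1 := by rw [div_le_one hr0]; exact h1
    have h2 : (1 / r) ^ 2 ≤ 1 := pow_le_one₀ (by positivity) this
    linarith
  have e5 : ‖((r ^ 2 : ℝ) : ℂ) - 1‖ = r ^ 2 - 1 := by
    rw [← Complex.ofReal_one, ← Complex.ofReal_sub, Complex.norm_real, Real.norm_eq_abs,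
      abs_of_nonneg]
    nlinarith
  refine (norm_sub_le _ _).trans ?_
  rw [norm_mul, norm_mul, e4, e5, ← hr, hw]
  refine le_trans (le_of_eq ?_) (pair_real h1)
  field_simp
  ring

lemma pair_ineq {z w : ℂ} (h : ‖z‖ * ‖w‖ = 1) :
    ‖z + w - z * w * (conj z + conj w)‖ ≤ 2 / 5 * (max 1 ‖z‖ * max 1 ‖w‖) ^ 4 := by
  rcases le_total 1 ‖z‖ with h1 | h1
  · exact pair_ineq' h h1
  · have h2 : 1 ≤ ‖w‖ := by
      by_contra hcon
      push Not at hcon
      nlinarith [norm_nonneg z, norm_nonneg w]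
    have h3 := pair_ineq' (z := w) (w := z) (by rw [mul_comm]; exact h) h2
    rw [mul_comm (max 1 ‖z‖)]
    refine le_trans (le_of_eq ?_) h3
    congr 1
    ring

/-- Quadratic extensions of abelian fields. -/
theorem quad_bound {k L : Type*} [Field k] [NumberField k] [Field L] [NumberField L] [Algebra k L]
    [IsGalois k L] (hk : InCyclotomic k) (hd : finrank k L = 2) (β : L) (hβ : IsIntegral ℤ β)
    (h0 : β ≠ 0) (hnt : ∀ n : ℕ, 0 < n → β ^ n ≠ 1) : 1.21 < MK L β := by
  classical
  have hab := hk.isAbelian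
  obtain ⟨N, hN, hemb⟩ := hk.emb
  have hfd : FiniteDimensional k L := FiniteDimensional.right ℚ k L
  obtain ⟨c, hc⟩ := exists_conj (k := k)
  have hM1 := one_le_MK L β
  -- the nontrivial automorphism
  obtain ⟨s, hs1, hs⟩ : ∃ s : L ≃ₐ[k] L, (1 : L ≃ₐ[k] L) ≠ s ∧
      (Finset.univ : Finset (L ≃ₐ[k] L)) = {1, s} := by
    have h1 : (Finset.univ : Finset (L ≃ₐ[k] L)).card = 2 := by
      rw [Finset.card_univ, ← Nat.card_eq_fintype_card, IsGalois.card_aut_eq_finrank, hd]
    obtain ⟨x, y, hxy, h2⟩ := Finset.card_eq_two.1 h1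
    have h3 : (1 : L ≃ₐ[k] L) ∈ ({x, y} : Finset (L ≃ₐ[k] L)) := by
      rw [← h2]
      exact Finset.mem_univ _
    rw [Finset.mem_insert, Finset.mem_singleton] at h3
    rcases h3 with h3 | h3
    · subst h3
      exact ⟨y, hxy, h2⟩
    · subst h3
      exact ⟨x, hxy.symm, by rw [h2, Finset.pair_comm]⟩
  set β' := s β with hβ'
  have hβ'0 : β' ≠ 0 := by rw [hβ']; simpa using h0
  set γ := Algebra.norm k β with hγ
  set B := Algebra.trace k L β with hB
  have eγ : algebraMap k L γ = β * β' := by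
    rw [hγ, Algebra.norm_eq_prod_automorphisms, hs, Finset.prod_pair hs1]
    rfl
  have eB : algebraMap k L B = β + β' := by
    rw [hB, trace_eq_sum_automorphisms, hs, Finset.sum_pair hs1]
    rfl
  have hγint : IsIntegral ℤ γ := Algebra.isIntegral_norm k hβ
  have hBint : IsIntegral ℤ B := Algebra.isIntegral_trace hβ
  have hγ0 : γ ≠ 0 := Algebra.norm_ne_zero_iff.2 h0
  by_cases htor : ∀ n : ℕ, 0 < n → γ ^ n ≠ 1
  · have h1 := abelian_bound γ hγint hγ0 htor
    have h2 : MP (minpoly ℤ γ) ≤ MK L β := (MP_le_MK γ hγint).trans (norm_measure_le β)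
    have h3 : 0 ≤ MP (minpoly ℤ γ) := mahlerMeasure_nonneg _
    by_contra hcon
    push Not at hcon
    have h4 : MP (minpoly ℤ γ) ^ 6 ≤ 1.21 ^ 6 := pow_le_pow_left₀ h3 (h2.trans hcon) 6
    norm_num at h4
    linarith
  push Not at htor
  obtain ⟨n, hn, hγn⟩ := htor
  have hvγ : ∀ v : k →+* ℂ, ‖v γ‖ = 1 := by
    intro v
    have h1 := congrArg (fun x => ‖v x‖) hγn
    simp only [map_pow, norm_pow, map_one, norm_one] at h1
    exact (pow_eq_one_iff_of_nonneg (norm_nonneg _) hn.ne').1 h1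
  have hpair : ∀ σ : L →+* ℂ, ‖σ β‖ * ‖σ β'‖ = 1 := by
    intro σ
    rw [← norm_mul, ← map_mul, ← eγ]
    exact hvγ (σ.comp (algebraMap k L))
  have hcint : ∀ x : k, IsIntegral ℤ x → IsIntegral ℤ (c x) := fun x hx =>
    hx.map (c.toAlgHom.restrictScalars ℤ)
  by_cases hD : B - γ * c B = 0
  swap
  · -- the second inequality
    set D := B - γ * c B with hDd
    have hDint : IsIntegral ℤ D := hBint.sub (hγint.mul (hcint B hBint))
    have hD'0 : algebraMap k L D ≠ 0 := by
      simpa using hD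
    have hD'int : IsIntegral ℤ (algebraMap k L D) := hDint.algebraMap
    have h1 := one_le_prod_emb hD'int hD'0
    have h2 : ∏ σ : L →+* ℂ, ‖σ (algebraMap k L D)‖ ≤
        ∏ σ : L →+* ℂ, (2 / 5 * (max 1 ‖σ β‖ * max 1 ‖σ β'‖) ^ 4) := by
      refine Finset.prod_le_prod (fun σ _ => norm_nonneg _) fun σ _ => ?_
      have h3 : σ (algebraMap k L (c B)) = conj (σ β) + conj (σ β') := by
        have h4 := hc (σ.comp (algebraMap k L)) B
        simp only [RingHom.comp_apply] at h4
        rw [← h4, eB, map_add, map_add]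
      have h4 : σ (algebraMap k L D) = σ β + σ β' - σ β * σ β' * (conj (σ β) + conj (σ β')) := by
        rw [hDd, map_sub, map_mul, map_sub, map_mul, h3, eB, eγ, map_add, map_mul]
      rw [h4]
      exact pair_ineq (hpair σ)
    have h3 : ∏ σ : L →+* ℂ, (2 / 5 * (max 1 ‖σ β‖ * max 1 ‖σ β'‖) ^ 4) =
        (2 / 5 : ℝ) ^ (finrank ℚ L) * MK L β ^ 8 := by
      rw [Finset.prod_mul_distrib, Finset.prod_const, Finset.card_univ,
        NumberField.Embeddings.card L ℂ, Finset.prod_pow, Finset.prod_mul_distrib]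
      have h4 : ∏ σ : L →+* ℂ, max 1 ‖σ β'‖ = MK L β := MK_aut (s : L ≃+* L) β
      have h5 : ∏ σ : L →+* ℂ, max 1 ‖σ β‖ = MK L β := rfl
      rw [h4, h5]
      ring
    rw [h3] at h2
    have h4 := h1.trans h2
    have h5 : 2 ≤ finrank ℚ L := by
      rw [← finrank_mul_finrank ℚ k L, hd]
      have : 0 < finrank ℚ k := finrank_pos
      omega
    have h6 : (2 / 5 : ℝ) ^ (finrank ℚ L) ≤ (2 / 5) ^ 2 :=
      pow_le_pow_of_le_one (by norm_num) (by norm_num) h5
    by_contra hcon
    push Not at hcon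
    have h7 : MK L β ^ 8 ≤ 1.21 ^ 8 := pow_le_pow_left₀ (by linarith) hcon 8
    have h8 : (2 / 5 : ℝ) ^ (finrank ℚ L) * MK L β ^ 8 ≤ (2 / 5) ^ 2 * 1.21 ^ 8 :=
      mul_le_mul h6 h7 (by positivity) (by positivity)
    norm_num at h8
    linarith
  have eBc : B = γ * c B := sub_eq_zero.1 hD
  have hcc : ∀ x : k, c (c x) = x := by
    intro x
    obtain ⟨v⟩ : Nonempty (k →+* ℂ) := inferInstance
    apply v.injective
    rw [← hc, ← hc, Complex.conj_conj]
  set σ₀ : L →+* ℂ := Classical.choice (inferInstance : Nonempty (L →+* ℂ)) with hσ₀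
  have hmp : ∀ x : L, minpoly ℤ (σ₀ x) = minpoly ℤ x := fun x =>
    minpoly.algHom_eq σ₀.toIntAlgHom σ₀.injective x
  have hsmall : ∀ x : L, IsIntegral ℤ x → x ≠ 0 → (∀ n : ℕ, 0 < n → x ^ n ≠ 1) →
      ∀ t : k, algebraMap k L t = x + x⁻¹ → 1.21 < MP (minpoly ℤ x) := by
    intro x hx hx0 hxnt t ht
    rw [← hmp]
    apply trace_bound
    · exact hx.map σ₀.toIntAlgHom
    · simpa using hx0
    · intro n hn h
      apply hxnt n hn
      apply σ₀.injective
      rw [map_pow, h, map_one]
    · refine ⟨N, hN, ?_⟩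
      rw [← map_inv₀, ← map_add, ← ht]
      exact hemb (σ₀.comp (algebraMap k L)) t
  by_cases hc1 : ∀ x, c x = x
  · -- totally real base field
    have hγ2 : γ ^ 2 = 1 := by
      obtain ⟨v⟩ : Nonempty (k →+* ℂ) := inferInstance
      apply v.injective
      have h1 := hc v γ
      rw [hc1] at h1
      have h2 := hvγ v
      have h3 : v γ * conj (v γ) = ((‖v γ‖ ^ 2 : ℝ) : ℂ) := by
        rw [Complex.mul_conj, Complex.normSq_eq_norm_sq]
      rw [h1, h2] at h3
      rw [map_pow, pow_two, h3]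
      simp
    rw [hc1] at eBc
    have hγ1 : γ = 1 := by
      by_contra hne
      have h1 : (γ - 1) * B = 0 := by linear_combination -eBc
      have hB0 : B = 0 := (mul_eq_zero.1 h1).resolve_left (sub_ne_zero.2 hne)
      rw [hB0, map_zero] at eB
      have h2 : β' = -β := by linear_combination -eB
      rw [h2] at eγ
      apply hnt 4 (by norm_num)
      have h3 : algebraMap k L (γ ^ 2) = 1 := by rw [hγ2, map_one]
      rw [map_pow, eγ] at h3
      linear_combination h3
    rw [hγ1, map_one] at eγ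
    have h1 : β' = β⁻¹ := eq_inv_of_mul_eq_one_left (by rw [mul_comm]; exact eγ.symm)
    exact (hsmall β hβ h0 hnt B (by rw [eB, h1])).trans_le (MP_le_MK β hβ)
  · -- the quotient of the conjugates
    push Not at hc1
    obtain ⟨x₀, hx₀⟩ := hc1
    set κ := β / β' with hκ
    have hκ0 : κ ≠ 0 := div_ne_zero h0 hβ'0
    have hκint : IsIntegral ℤ κ := by
      have h1 : κ = β ^ 2 * algebraMap k L (γ ^ (n - 1)) := by
        have h2 : algebraMap k L (γ ^ (n - 1)) * (β * β') = 1 := by
          rw [← eγ, ← map_mul, ← pow_succ, Nat.sub_add_cancel hn, hγn, map_one]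
        rw [hκ, div_eq_iff hβ'0]
        linear_combination (-β) * h2
      rw [h1]
      exact (hβ.pow 2).mul (hγint.pow (n - 1)).algebraMap
    have hκnt : ∀ m : ℕ, 0 < m → κ ^ m ≠ 1 := by
      intro m hm h
      have h1 : β ^ m = β' ^ m := by
        rw [hκ, div_pow, div_eq_one_iff_eq (pow_ne_zero _ hβ'0)] at h
        exact h
      have h2 : (β * β') ^ n = 1 := by rw [← eγ, ← map_pow, hγn, map_one]
      apply hnt (2 * m * n) (by positivity)
      calc β ^ (2 * m * n) = (β ^ m * β ^ m) ^ n := by ring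
        _ = (β ^ m * β' ^ m) ^ n := by rw [← h1]
        _ = ((β * β') ^ n) ^ m := by ring
        _ = 1 := by rw [h2, one_pow]
    set t := B * c B - 2 with ht
    have htκ : algebraMap k L t = κ + κ⁻¹ := by
      have h1 : algebraMap k L B = β * β' * algebraMap k L (c B) := by
        rw [← eγ, ← map_mul, ← eBc]
      rw [ht, map_sub, map_mul, map_ofNat, hκ, inv_div]
      have h2 : algebraMap k L (c B) = (β + β') / (β * β') := by
        rw [eq_div_iff (mul_ne_zero h0 hβ'0), ← eB, h1]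
        ring
      rw [h2, eB]
      field_simp
      ring
    have h1 := hsmall κ hκint hκ0 hκnt t htκ
    have hct : c t = t := by
      rw [ht, map_sub, map_mul, hcc, map_ofNat]
      ring
    -- the degree of `L` over `ℚ(κ)`
    have hdeg : 2 ≤ finrank ℚ⟮κ⟯ L := by
      have hfd2 : FiniteDimensional ℚ⟮κ⟯ L := FiniteDimensional.right ℚ ℚ⟮κ⟯ L
      by_contra hcon
      have h2 : finrank ℚ⟮κ⟯ L = 1 := by
        have : 0 < finrank ℚ⟮κ⟯ L := finrank_pos
        omega
      have htop : ℚ⟮κ⟯ = ⊤ := IntermediateField.finrank_eq_one_iff_eq_top.1 h2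
      set H := Subgroup.zpowers c with hH
      set k₀ := IntermediateField.fixedField H with hk₀
      have hcord : orderOf c = 2 := by
        apply orderOf_eq_prime
        · rw [pow_two]
          ext x
          exact hcc x
        · rintro rfl
          exact hx₀ rfl
      have h3 : finrank k₀ k = 2 := by
        rw [hk₀, IntermediateField.finrank_fixedField_eq_card, hH, Nat.card_zpowers, hcord]
      have h4 : finrank k₀ L = 4 := by
        have := finrank_mul_finrank k₀ k L
        rw [h3, hd] at this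
        exact this.symm
      have htmem : t ∈ k₀ := by
        rw [hk₀, IntermediateField.mem_fixedField_iff]
        intro g hg
        obtain ⟨j, rfl⟩ := Subgroup.mem_zpowers_iff.1 hg
        have h5 : H ≤ MulAction.stabilizer (k ≃ₐ[ℚ] k) t := by
          rw [hH, Subgroup.zpowers_le]
          exact hct
        exact h5 hg
      set t₀ : k₀ := ⟨t, htmem⟩ with ht₀
      set q : k₀[X] := X ^ 2 - C t₀ * X + 1 with hq
      have hqdeg : q.natDegree = 2 := by rw [hq]; compute_degree!
      have hqm : q.Monic := by rw [hq]; monicity!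
      have hqκ : aeval κ q = 0 := by
        rw [hq]
        simp only [map_sub, map_add, map_mul, map_pow, aeval_X, aeval_C, map_one]
        have h5 : algebraMap k₀ L t₀ = κ + κ⁻¹ := htκ
        rw [h5]
        field_simp
        ring
      have hint0 : IsIntegral k₀ κ := ⟨q, hqm, hqκ⟩
      have h5 : IntermediateField.adjoin k₀ {κ} = ⊤ := by
        rw [eq_top_iff]
        intro x _
        have hx : x ∈ ℚ⟮κ⟯ := by rw [htop]; trivial
        induction hx using IntermediateField.adjoin_induction with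
        | mem x hx => exact IntermediateField.subset_adjoin _ _ hx
        | algebraMap x =>
          rw [eq_ratCast]
          exact SubfieldClass.ratCast_mem _ x
        | add x y _ _ hx hy => exact add_mem (hx trivial) (hy trivial)
        | inv x _ hx => exact inv_mem (hx trivial)
        | mul x y _ _ hx hy => exact mul_mem (hx trivial) (hy trivial)
      have h6 : finrank k₀ L ≤ 2 := by
        have h7 : finrank k₀ (IntermediateField.adjoin k₀ {κ}) = (minpoly k₀ κ).natDegree :=
          IntermediateField.adjoin.finrank hint0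
        have h8 : (minpoly k₀ κ).natDegree ≤ q.natDegree :=
          natDegree_le_of_dvd (minpoly.dvd k₀ _ hqκ) hqm.ne_zero
        rw [h5, IntermediateField.finrank_top'] at h7
        omega
      omega
    -- the measures
    have h2 : MK L κ = MK L β ^ 2 := by
      unfold MK
      rw [← Finset.prod_pow]
      refine Finset.prod_congr rfl fun σ _ => ?_
      have h3 := hpair σ
      have h4 : ‖σ κ‖ = ‖σ β‖ ^ 2 := by
        rw [hκ, map_div₀, norm_div]
        have h5 : ‖σ β'‖ ≠ 0 := by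
          intro h
          rw [h, mul_zero] at h3
          exact zero_ne_one h3
        rw [div_eq_iff h5]
        linear_combination (-‖σ β‖) * h3
      rw [h4]
      rcases le_total ‖σ β‖ 1 with h | h
      · rw [max_eq_left h, max_eq_left (pow_le_one₀ (norm_nonneg _) h), one_pow]
      · rw [max_eq_right h, max_eq_right (one_le_pow₀ h)]
    have h3 := MK_eq κ hκint
    have h4 : MP (minpoly ℤ κ) ^ 2 ≤ MK L β ^ 2 := by
      rw [← h2, h3]
      exact pow_le_pow_right₀ (one_le_MP (minpoly.monic hκint).ne_zero) hdeg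
    exact h1.trans_le (le_of_pow_le_pow_left₀ two_ne_zero (by linarith) h4)

end Pool.Agent.J4.H64.GL
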