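import Mathlib
import Pool.Agent.J4.H64.GL.Quad

/-!
# Measures of elements of multiquadratic extensions of abelian fields
-/

set_option autoImplicit false

open Polynomial Module ComplexConjugate IntermediateField

namespace Pool.Agent.J4.H64.GL

universe u v

/-- one of the norms to the quadratic subextensions is not a root of unity -/
lemma exists_norm {K : Type*} [Field K] {G : Type*} [Group G] [MulSemiringAction G K] (α : K)
    (g h : G) (hgh : g * h = h * g) (hnt : ∀ n : ℕ, 0 < n → α ^ n ≠ 1) :
    (∀ n : ℕ, 0 < n → (α * (g • α)) ^ n ≠ 1) ∨ (∀ n : ℕ, 0 < n → (α * (h • α)) ^ n ≠ 1) ∨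
      (∀ n : ℕ, 0 < n → (α * ((g * h) • α)) ^ n ≠ 1) := by
  by_contra hcon
  push Not at hcon
  obtain ⟨⟨a, ha, h1⟩, ⟨b, hb, h2⟩, ⟨c, hc, h3⟩⟩ := hcon
  apply hnt (2 * (a * b * c)) (by positivity)
  have e1 : (α * (g • α)) ^ (a * b * c) = 1 := by
    rw [mul_assoc, pow_mul, h1, one_pow]
  have e2 : (α * (h • α)) ^ (a * b * c) = 1 := by
    rw [mul_comm a b, mul_assoc, pow_mul, h2, one_pow]
  have e3 : (α * ((g * h) • α)) ^ (a * b * c) = 1 := by
    rw [mul_comm, mul_comm (a * b) c, pow_mul, mul_comm, h3, one_pow]
  have e4 : (h • (α * (g • α))) ^ (a * b * c) = 1 := by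
    rw [← smul_pow', e1, smul_one]
  have e5 : h • (α * (g • α)) = (h • α) * ((g * h) • α) := by
    rw [smul_mul', smul_smul, hgh]
  rw [e5] at e4
  have e6 : α ^ 2 * ((α * (g • α)) * ((h • α) * ((g * h) • α))) =
      (α * (g • α)) * (α * (h • α)) * (α * ((g * h) • α)) := by ring
  have e7 : (α ^ 2 * ((α * (g • α)) * ((h • α) * ((g * h) • α)))) ^ (a * b * c) =
      ((α * (g • α)) * (α * (h • α)) * (α * ((g * h) • α))) ^ (a * b * c) := by rw [e6]
  rw [mul_pow, mul_pow (α * (g • α)) ((h • α) * ((g * h) • α)), e1, e4,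
    mul_pow (α * (g • α) * (α * (h • α))), mul_pow (α * (g • α)), e1, e2, e3, one_mul, mul_one,
    mul_one, ← pow_mul] at e7
  exact e7

theorem multi_bound {k : Type v} [Field k] [NumberField k] (hk : InCyclotomic k) :
    ∀ n : ℕ, ∀ (K : Type u) [Field K] [NumberField K] [Algebra k K] [IsGalois k K],
      (∀ g : K ≃ₐ[k] K, g * g = 1) → finrank k K ≤ n → ∀ α : K, IsIntegral ℤ α → α ≠ 0 →
      (∀ m : ℕ, 0 < m → α ^ m ≠ 1) → 1.21 < MK K α := by
  intro n
  induction n with
  | zero =>
    intro K _ _ _ _ _ hn
    have : FiniteDimensional k K := FiniteDimensional.right ℚ k K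
    have : 0 < finrank k K := finrank_pos
    omega
  | succ n ih =>
    intro K _ _ _ _ hexp hn α hα h0 hnt
    classical
    have hfd : FiniteDimensional k K := FiniteDimensional.right ℚ k K
    have hpos : 0 < finrank k K := finrank_pos
    have hab := hk.isAbelian
    by_cases h1 : finrank k K = 1
    · obtain ⟨a, ha⟩ : ∃ a : k, algebraMap k K a = α := by
        have h2 : (⊥ : Subalgebra k K) = ⊤ := Subalgebra.bot_eq_top_of_finrank_eq_one h1
        have h3 : α ∈ (⊥ : Subalgebra k K) := by rw [h2]; trivial
        exact Algebra.mem_bot.1 h3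
      have hinj := (algebraMap k K).injective
      have haint : IsIntegral ℤ a := by
        rw [← ha] at hα
        exact (isIntegral_algebraMap_iff hinj).mp hα
      have h2 := abelian_bound a haint (by rintro rfl; exact h0 (by rw [← ha, map_zero]))
        (fun m hm h => hnt m hm (by rw [← ha, ← map_pow, h, map_one]))
      have h3 : minpoly ℤ a = minpoly ℤ α := by
        rw [← ha]
        exact (minpoly.algebraMap_eq hinj a).symm
      rw [h3] at h2
      have h4 := MP_le_MK α hα
      have h5 : 0 ≤ MP (minpoly ℤ α) := mahlerMeasure_nonneg _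
      by_contra hcon
      push Not at hcon
      have h6 : MP (minpoly ℤ α) ^ 6 ≤ 1.21 ^ 6 := pow_le_pow_left₀ h5 (h4.trans hcon) 6
      norm_num at h6
      linarith
    by_cases h2 : finrank k K = 2
    · exact quad_bound hk h2 α hα h0 hnt
    have hcomm : ∀ a b : K ≃ₐ[k] K, a * b = b * a := by
      intro a b
      have e := hexp (a * b)
      have ea := hexp a
      have eb := hexp b
      calc a * b = (b * b) * (a * b) := by rw [eb, one_mul]
        _ = b * (b * (a * b)) := by group
        _ = b * (((a * a) * b) * (a * b)) := by rw [ea, one_mul]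
        _ = b * (a * ((a * b) * (a * b))) := by group
        _ = b * a := by rw [e, mul_one]
    have hcard : Fintype.card (K ≃ₐ[k] K) = finrank k K := by
      rw [← Nat.card_eq_fintype_card, IsGalois.card_aut_eq_finrank]
    obtain ⟨g, hg⟩ : ∃ g : K ≃ₐ[k] K, g ≠ 1 := by
      by_contra hcon
      push Not at hcon
      have : Fintype.card (K ≃ₐ[k] K) ≤ 1 :=
        Fintype.card_le_one_iff.2 fun a b => by rw [hcon a, hcon b]
      omega
    obtain ⟨h, hh⟩ : ∃ h : K ≃ₐ[k] K, h ∉ ({1, g} : Finset (K ≃ₐ[k] K)) := by
      by_contra hcon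
      push Not at hcon
      have h3 : (Finset.univ : Finset (K ≃ₐ[k] K)) ⊆ {1, g} := fun a _ => hcon a
      have h4 := Finset.card_le_card h3
      have h5 : ({1, g} : Finset (K ≃ₐ[k] K)).card ≤ 2 := Finset.card_le_two
      rw [Finset.card_univ, hcard] at h4
      omega
    rw [Finset.mem_insert, Finset.mem_singleton, not_or] at hh
    have hgh : g * h ≠ 1 := by
      intro e
      apply hh.2
      calc h = (g * g) * h := by rw [hexp g, one_mul]
        _ = g * (g * h) := by group
        _ = g := by rw [e, mul_one]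
    obtain ⟨x, hx1, hxnt⟩ : ∃ x : K ≃ₐ[k] K, x ≠ 1 ∧
        (∀ m : ℕ, 0 < m → (α * (x α)) ^ m ≠ 1) := by
      rcases exists_norm α g h (hcomm g h) hnt with h3 | h3 | h3
      · exact ⟨g, hg, h3⟩
      · exact ⟨h, hh.1, h3⟩
      · exact ⟨g * h, hgh, h3⟩
    -- the fixed field
    set H := Subgroup.zpowers x with hH
    have hnormal : H.Normal := ⟨fun a ha b => by
      rw [hcomm b a, mul_assoc, mul_inv_cancel, mul_one]
      exact ha⟩
    set L := IntermediateField.fixedField H with hL
    have hgal : IsGalois k L := IsGalois.of_fixedField_normal_subgroup H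
    have : NumberField L := NumberField.of_module_finite k L
    have hord : orderOf x = 2 := orderOf_eq_prime (by rw [pow_two]; exact hexp x) hx1
    have hLK : finrank L K = 2 := by
      rw [hL, IntermediateField.finrank_fixedField_eq_card, hH, Nat.card_zpowers, hord]
    have hkL : finrank k L * 2 = finrank k K := by
      rw [← hLK]
      exact finrank_mul_finrank k L K
    have hgal2 : IsGalois L K := IsGalois.tower_top_of_isGalois k L K
    let x' : K ≃ₐ[L] K :=
      { (x : K ≃+* K) with
        commutes' := by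
          intro y
          exact (IntermediateField.mem_fixedField_iff H _).1 y.2 x (Subgroup.mem_zpowers x) }
    have hx' : ∀ y, x' y = x y := fun y => rfl
    have hx'1 : (1 : K ≃ₐ[L] K) ≠ x' := by
      intro e
      apply hx1
      ext y
      rw [← hx', ← e]
      rfl
    have huniv : (Finset.univ : Finset (K ≃ₐ[L] K)) = {1, x'} := by
      symm
      apply Finset.eq_univ_of_card
      rw [Finset.card_pair hx'1, ← Nat.card_eq_fintype_card, IsGalois.card_aut_eq_finrank, hLK]
    set β := Algebra.norm L α with hβ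
    have hβe : algebraMap L K β = α * x α := by
      rw [hβ, Algebra.norm_eq_prod_automorphisms, huniv, Finset.prod_pair hx'1]
      rfl
    have hlt := ih L (by
      intro τ
      ext y
      have e1 : ∀ z : L, algebraMap L K (τ z) = (τ.liftNormal K) (algebraMap L K z) := fun z =>
        (τ.liftNormal_commutes K z).symm
      have e2 := congrArg (fun w : K ≃ₐ[k] K => w (algebraMap L K y)) (hexp (τ.liftNormal K))
      have e3 : algebraMap L K (τ (τ y)) = algebraMap L K y := by
        rw [e1, e1]
        exact e2
      exact congrArg (algebraMap L K) ((algebraMap L K).injective e3)) (by omega) β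
      (Algebra.isIntegral_norm L hα) (Algebra.norm_ne_zero_iff.2 h0)
      (fun m hm e => hxnt m hm (by rw [← hβe, ← map_pow, e, map_one]))
    exact hlt.trans_le (norm_measure_le α)

end Pool.Agent.J4.H64.GL
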