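import Mathlib
import Pool.Agent.J4.H64.GL.FrobBase
import Pool.Agent.J4.H64.GL.Multi

/-!
# Fields with a central Frobenius automorphism: quadratic extensions
-/

set_option autoImplicit false

open Polynomial Module ComplexConjugate IntermediateField

namespace Pool.Agent.J4.H64.GL

open Pool.Agent.R701.UG Pool.Agent.H338R2

/-- the weight function -/
noncomputable def WW (x : ℝ) : ℝ := (x + 1) ^ 2 / (4 * x)

lemma WW_one_le {x : ℝ} (hx : 1 ≤ x) : 1 ≤ WW x := by
  unfold WW
  rw [le_div_iff₀ (by linarith)]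
  nlinarith [sq_nonneg (x - 1)]

lemma WW_mul {x y : ℝ} (hx : 1 ≤ x) (hy : 1 ≤ y) : WW x * WW y ≤ WW (x * y) := by
  unfold WW
  have hx0 : 0 < x := by linarith
  have hy0 : 0 < y := by linarith
  rw [div_mul_div_comm, div_le_div_iff₀ (by positivity) (by positivity)]
  have h1 : (x + 1) * (y + 1) ≤ 2 * (x * y + 1) := by nlinarith [mul_nonneg (sub_nonneg.2 hx) (sub_nonneg.2 hy)]
  have h2 : 0 ≤ (x + 1) * (y + 1) := by positivity
  have h3 : ((x + 1) * (y + 1)) ^ 2 ≤ (2 * (x * y + 1)) ^ 2 := pow_le_pow_left₀ h2 h1 2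
  have h4 : 0 < x * y := by positivity
  nlinarith [mul_le_mul_of_nonneg_left h3 h4.le]

lemma WW_mono {x y : ℝ} (hx : 1 ≤ x) (hxy : x ≤ y) : WW x ≤ WW y := by
  unfold WW
  have hx0 : 0 < x := by linarith
  have hy0 : 0 < y := by linarith
  rw [div_le_div_iff₀ (by positivity) (by positivity)]
  nlinarith [mul_nonneg (sub_nonneg.2 hxy) (sub_nonneg.2 (one_le_mul_of_one_le_of_one_le hx
    (hx.trans hxy)))]

lemma WW_prod {ι : Type*} (s : Finset ι) (g : ι → ℝ) (hg : ∀ i ∈ s, 1 ≤ g i) :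
    1 ≤ ∏ i ∈ s, g i ∧ ∏ i ∈ s, WW (g i) ≤ WW (∏ i ∈ s, g i) := by
  classical
  induction s using Finset.induction_on with
  | empty => simp [WW]; norm_num
  | insert a s ha ih =>
    rw [Finset.prod_insert ha, Finset.prod_insert ha]
    obtain ⟨h1, h2⟩ := ih fun i hi => hg i (Finset.mem_insert_of_mem hi)
    have h3 := hg a (Finset.mem_insert_self a s)
    refine ⟨one_le_mul_of_one_le_of_one_le h3 h1, ?_⟩
    exact (mul_le_mul_of_nonneg_left h2 (by linarith [WW_one_le h3])).trans (WW_mul h3 h1)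

/-- the local inequality -/
lemma WW_bound {p : ℕ} (hp : 1 ≤ p) {a b c d : ℝ} (ha : 0 < a) (hb : 0 < b) (hc : 0 < c)
    (hd : 0 < d) (hab : a * b = 1) (hcd : c * d = 1) :
    a ^ p + b ^ p + (c + d) ≤
      4 * (WW ((max 1 a * max 1 b) ^ p) * WW ((max 1 c * max 1 d) ^ p)) := by
  have key : ∀ {a b : ℝ}, 0 < a → 0 < b → a * b = 1 →
      ∃ R : ℝ, 1 ≤ R ∧ max 1 a * max 1 b = R ∧ a ^ p + b ^ p = R ^ p + (1 / R) ^ p ∧
        a + b = R + 1 / R := by
    intro a b ha hb hab
    rcases le_total 1 a with h | h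
    · have hb1 : b = 1 / a := by field_simp; linarith
      have hb2 : b ≤ 1 := by rw [hb1, div_le_one ha]; exact h
      refine ⟨a, h, ?_, ?_, ?_⟩
      · rw [max_eq_right h, max_eq_left hb2, mul_one]
      · rw [hb1]
      · rw [hb1]
    · have ha1 : a = 1 / b := by field_simp; linarith
      have hb2 : 1 ≤ b := by
        by_contra hcon
        push Not at hcon
        nlinarith
      refine ⟨b, hb2, ?_, ?_, ?_⟩
      · rw [max_eq_left h, max_eq_right hb2, one_mul]
      · rw [ha1]; ring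
      · rw [ha1]; ring
  obtain ⟨R, hR, h1, h2, -⟩ := key ha hb hab
  obtain ⟨S, hS, h3, -, h4⟩ := key hc hd hcd
  rw [h1, h2, h3, h4]
  have hRp : 1 ≤ R ^ p := one_le_pow₀ hR
  have hSp : 1 ≤ S ^ p := one_le_pow₀ hS
  set X := R ^ p with hX
  set Y := S ^ p with hY
  have hR0 : 0 < R := by linarith
  have hS0 : 0 < S := by linarith
  have h5 : (1 / R) ^ p = 1 / X := by rw [div_pow, one_pow]
  have hSY : S ≤ Y := le_self_pow₀ hS (by omega)
  have h6 : S + 1 / S ≤ Y + 1 / Y := by
    have e : Y + 1 / Y - (S + 1 / S) = (Y - S) * (Y * S - 1) / (Y * S) := by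
      field_simp
      ring
    have h7 : 0 ≤ (Y - S) * (Y * S - 1) / (Y * S) := by
      apply div_nonneg _ (by positivity)
      apply mul_nonneg (by linarith)
      nlinarith
    linarith
  rw [h5]
  have h8 : X + 1 / X + (Y + 1 / Y) ≤ 4 * (WW X * WW Y) := by
    have hX0 : 0 < X := by linarith
    have hY0 : 0 < Y := by linarith
    have eX : WW X = (X + 1 / X + 2) / 4 := by unfold WW; field_simp; ring
    have eY : WW Y = (Y + 1 / Y + 2) / 4 := by unfold WW; field_simp; ring
    have gX : 2 ≤ X + 1 / X := by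
      have e : X + 1 / X - 2 = (X - 1) ^ 2 / X := by field_simp; ring
      have : 0 ≤ (X - 1) ^ 2 / X := by positivity
      linarith
    have gY : 2 ≤ Y + 1 / Y := by
      have e : Y + 1 / Y - 2 = (Y - 1) ^ 2 / Y := by field_simp; ring
      have : 0 ≤ (Y - 1) ^ 2 / Y := by positivity
      linarith
    rw [eX, eY]
    nlinarith [mul_nonneg (sub_nonneg.2 gX) (sub_nonneg.2 gY)]
  linarith

/-- products over the embeddings of an extension -/
lemma prod_restrict {k L : Type*} [Field k] [NumberField k] [Field L] [NumberField L]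
    [Algebra k L] (g : (k →+* ℂ) → ℝ) :
    ∏ σ : L →+* ℂ, g (σ.comp (algebraMap k L)) = (∏ v, g v) ^ (finrank k L) := by
  classical
  have : FiniteDimensional k L := FiniteDimensional.right ℚ k L
  have h1 : ∏ σ : L →+* ℂ, g (σ.comp (algebraMap k L)) =
      ∏ σ : L →ₐ[ℚ] ℂ, g ((σ : L →+* ℂ).comp (algebraMap k L)) :=
    Fintype.prod_equiv (RingHom.equivRatAlgHom L ℂ) _ _ fun v => rfl
  have h2 : ∏ v : k →+* ℂ, g v = ∏ v : k →ₐ[ℚ] ℂ, g (v : k →+* ℂ) :=
    Fintype.prod_equiv (RingHom.equivRatAlgHom k ℂ) _ _ fun v => rfl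
  rw [h1, h2, Fintype.prod_equiv algHomEquivSigma
    (fun σ : L →ₐ[ℚ] ℂ => g ((σ : L →+* ℂ).comp (algebraMap k L)))
    (fun σ : Σ f : k →ₐ[ℚ] ℂ, @AlgHom k L ℂ _ _ _ _ f.toRingHom.toAlgebra =>
      g (σ.1 : k →+* ℂ)) (fun σ => rfl), ← Finset.univ_sigma_univ, Finset.prod_sigma,
      ← Finset.prod_pow]
  refine Finset.prod_congr rfl fun v _ => ?_
  let _ : Algebra k ℂ := v.toRingHom.toAlgebra
  simp_rw [Finset.prod_const]
  congr
  exact AlgHom.card k L ℂ

/-- the nontrivial automorphism of a quadratic extension -/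
lemma quad_aut {k L : Type*} [Field k] [Field L] [Algebra k L] [FiniteDimensional k L]
    [IsGalois k L] (hd : finrank k L = 2) : ∃ s : L ≃ₐ[k] L, ∀ x : L,
      algebraMap k L (Algebra.norm k x) = x * s x ∧
      algebraMap k L (Algebra.trace k L x) = x + s x := by
  classical
  obtain ⟨s, hs1, hs⟩ : ∃ s : L ≃ₐ[k] L, (1 : L ≃ₐ[k] L) ≠ s ∧
      (Finset.univ : Finset (L ≃ₐ[k] L)) = {1, s} := by
    have h1 : (Finset.univ : Finset (L ≃ₐ[k] L)).card = 2 := by
      rw [Finset.card_univ, ← Nat.card_eq_fintype_card, IsGalois.card_aut_eq_finrank, hd]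
    obtain ⟨x, y, hxy, h2⟩ := Finset.card_eq_two.1 h1
    have h3 : (1 : L ≃ₐ[k] L) ∈ ({x, y} : Finset (L ≃ₐ[k] L)) := by
      rw [← h2]
      exact Finset.mem_univ _
    rw [Finset.mem_insert, Finset.mem_singleton] at h3
    rcases h3 with h3 | h3
    · subst h3
      exact ⟨y, hxy, h2⟩
    · subst h3
      exact ⟨x, hxy.symm, by rw [h2, Finset.pair_comm]⟩
  refine ⟨s, fun x => ⟨?_, ?_⟩⟩
  · rw [Algebra.norm_eq_prod_automorphisms, hs, Finset.prod_pair hs1]
    rfl
  · rw [trace_eq_sum_automorphisms, hs, Finset.sum_pair hs1]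
    rfl

/-- The quadratic step. -/
theorem frob_quad {k L : Type*} [Field k] [NumberField k] [Field L] [NumberField L] [Algebra k L]
    [IsGalois k L] {p : ℕ} (hpp : p.Prime) (hp : 3 ≤ p) {φ : k ≃ₐ[ℚ] k} (hφ : IsFrob p φ)
    (hd : finrank k L = 2) (β : L) (hβ : IsIntegral ℤ β) (h0 : β ≠ 0)
    (hnt : ∀ n : ℕ, 0 < n → β ^ n ≠ 1) :
    (p : ℝ) ^ (finrank ℚ k) ≤ 2 ^ (finrank ℚ k) * MK L β ^ (p + 1) ∨
    (p : ℝ) ^ (finrank ℚ k) ≤ 4 ^ (finrank ℚ k) * WW (MK L β ^ p) ^ 2 := by
  classical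
  have hfd : FiniteDimensional k L := FiniteDimensional.right ℚ k L
  obtain ⟨s, hs⟩ := quad_aut (k := k) (L := L) hd
  set β' := s β with hβ'
  have hβ'0 : β' ≠ 0 := by rw [hβ']; simpa using h0
  have hβ'int : IsIntegral ℤ β' := hβ.map (s.toAlgHom.restrictScalars ℤ)
  set γ := Algebra.norm k β with hγ
  set B := Algebra.trace k L β with hB
  have eγ : algebraMap k L γ = β * β' := (hs β).1
  have eB : algebraMap k L B = β + β' := (hs β).2
  have hγint : IsIntegral ℤ γ := Algebra.isIntegral_norm k hβ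
  have hBint : IsIntegral ℤ B := Algebra.isIntegral_trace hβ
  have hγ0 : γ ≠ 0 := Algebra.norm_ne_zero_iff.2 h0
  by_cases htor : ∀ n : ℕ, 0 < n → γ ^ n ≠ 1
  · left
    have h1 := frob_base (by omega) hφ γ hγint hγ0 htor
    have h2 : MK k γ ≤ MK L β := norm_measure_le β
    refine h1.trans ?_
    exact mul_le_mul_of_nonneg_left (pow_le_pow_left₀ (by linarith [one_le_MK k γ]) h2 _)
      (by positivity)
  right
  push Not at htor
  obtain ⟨n, hn, hγn⟩ := htor
  have hvγ : ∀ v : k →+* ℂ, ‖v γ‖ = 1 := by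
    intro v
    have h1 := congrArg (fun x => ‖v x‖) hγn
    simp only [map_pow, norm_pow, map_one, norm_one] at h1
    exact (pow_eq_one_iff_of_nonneg (norm_nonneg _) hn.ne').1 h1
  have hpair : ∀ σ : L →+* ℂ, ‖σ β‖ * ‖σ β'‖ = 1 := by
    intro σ
    rw [← norm_mul, ← map_mul, ← eγ]
    exact hvγ (σ.comp (algebraMap k L))
  have hγφ := frob_torsion hp hφ γ hγint hn hγn
  set e := Algebra.trace k L (β ^ p) - φ B with he
  have etr : algebraMap k L (Algebra.trace k L (β ^ p)) = β ^ p + β' ^ p := by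
    rw [(hs (β ^ p)).2, map_pow]
  -- divisibility
  obtain ⟨y, hy, hyB⟩ := hφ B hBint
  obtain ⟨w, hw, hww⟩ := power_sum_mod hpp β β' hβ hβ'int
  have hp0 : (p : k) ≠ 0 := by exact_mod_cast hpp.ne_zero
  have hey : e = p * (e / p) := by field_simp
  have heint : IsIntegral ℤ (e / p) := by
    rw [← isIntegral_algebraMap_iff (algebraMap k L).injective]
    have h1 : algebraMap k L (e / p) = algebraMap k L y - w := by
      have hp0' : (p : L) ≠ 0 := by exact_mod_cast hpp.ne_zero
      rw [map_div₀, map_natCast, div_eq_iff hp0', he, map_sub, etr, hww, ← eB, ← map_pow]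
      have h2 : φ B = B ^ p - p * y := by linear_combination -hyB
      rw [h2, map_sub, map_mul, map_natCast]
      ring
    rw [h1]
    exact hy.algebraMap.sub hw
  -- nonvanishing
  have he0 : e ≠ 0 := by
    intro hzero
    have h1 : ps B γ p = φ B := by
      apply (algebraMap k L).injective
      rw [map_ps, eB, eγ, ps_eq, ← etr, sub_eq_zero.1 hzero]
    have h2 : ∀ m : ℕ, β ^ (p ^ m) + β' ^ (p ^ m) = algebraMap k L ((φ ^ m) B) ∧
        β ^ (p ^ m) * β' ^ (p ^ m) = algebraMap k L ((φ ^ m) γ) := by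
      intro m
      induction m with
      | zero => simp [eB, eγ]
      | succ m ih =>
        constructor
        · rw [pow_succ p m, pow_mul, pow_mul, ← ps_eq, ih.1, ih.2, ← map_ps, ← map_ps, h1,
            pow_succ φ m, AlgEquiv.mul_apply]
        · rw [pow_succ p m, pow_mul, pow_mul, ← mul_pow, ih.2, ← map_pow, ← map_pow, hγφ,
            pow_succ φ m, AlgEquiv.mul_apply]
    obtain ⟨h3, h4⟩ := h2 (orderOf φ)
    rw [pow_orderOf_eq_one] at h3 h4
    have h5 : 0 < orderOf φ := orderOf_pos φ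
    have h6 : 1 < p ^ orderOf φ := Nat.one_lt_pow h5.ne' (by omega)
    set P := p ^ orderOf φ with hP
    have h3' : β ^ P + β' ^ P = β + β' := by rw [h3, ← eB]; rfl
    have h4' : β ^ P * β' ^ P = β * β' := by rw [h4, ← eγ]; rfl
    have h7 : (β ^ P - β) * (β ^ P - β') = 0 := by
      linear_combination (β ^ P) * h3' - h4'
    have hfin : ∀ Q : ℕ, 1 < Q → β ^ Q = β → False := by
      intro Q hQ h
      apply hnt (Q - 1) (by omega)
      have h8 : β ^ (Q - 1) * β = 1 * β := by
        rw [← pow_succ, one_mul]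
        have : Q - 1 + 1 = Q := by omega
        rw [this, h]
      exact mul_right_cancel₀ h0 h8
    rcases mul_eq_zero.1 h7 with h8 | h8
    · exact hfin P h6 (sub_eq_zero.1 h8)
    · have h9 : β ^ P = β' := sub_eq_zero.1 h8
      have h10 : β' ^ P = β := by
        rw [h9] at h3'
        linear_combination h3'
      apply hfin (P * P) (by nlinarith)
      rw [pow_mul, h9, h10]
  have hmain := pow_le_prod_of heint hey he0
  refine hmain.trans ?_
  -- upper bound
  have hext : ∀ v : k →+* ℂ, ∃ σ : L →+* ℂ, σ.comp (algebraMap k L) = v := by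
    intro v
    let _ : Algebra k ℂ := v.toAlgebra
    let ψ : L →ₐ[k] ℂ := IsAlgClosed.lift
    exact ⟨ψ.toRingHom, ψ.comp_algebraMap⟩
  choose E hE using hext
  set R : (k →+* ℂ) → ℝ := fun v => max 1 ‖E v β‖ * max 1 ‖E v β'‖ with hR
  have hR1 : ∀ v, 1 ≤ R v := fun v =>
    one_le_mul_of_one_le_of_one_le (le_max_left _ _) (le_max_left _ _)
  have hEv : ∀ (v : k →+* ℂ) (x : k), v x = E v (algebraMap k L x) := fun v x =>
    (congrArg (fun τ : k →+* ℂ => τ x) (hE v)).symm
  have hb : ∀ v : k →+* ℂ, ‖v e‖ ≤ 4 * (WW (R v ^ p) * WW (R (v.comp (φ : k →+* k)) ^ p)) := by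
    intro v
    set v' := v.comp (φ : k →+* k) with hv'
    have h1 : v (φ B) = E v' β + E v' β' := by
      have : v (φ B) = v' B := rfl
      rw [this, hEv, eB, map_add]
    have h2 : v e = (E v β) ^ p + (E v β') ^ p - (E v' β + E v' β') := by
      rw [he, map_sub, h1, hEv v (Algebra.trace k L (β ^ p)), etr, map_add, map_pow, map_pow]
    rw [h2]
    have hpos : ∀ (u : k →+* ℂ), 0 < ‖E u β‖ ∧ 0 < ‖E u β'‖ := fun u =>
      ⟨norm_pos_iff.2 (by simpa using h0), norm_pos_iff.2 (by simpa using hβ'0)⟩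
    have h3 := WW_bound (p := p) (by omega) (hpos v).1 (hpos v).2 (hpos v').1 (hpos v').2
      (hpair _) (hpair _)
    refine le_trans ?_ h3
    refine (norm_sub_le _ _).trans (add_le_add ?_ (norm_add_le _ _))
    refine (norm_add_le _ _).trans (le_of_eq ?_)
    rw [norm_pow, norm_pow]
  have h1 : ∏ v : k →+* ℂ, ‖v e‖ ≤ 4 ^ (finrank ℚ k) * (∏ v : k →+* ℂ, WW (R v ^ p)) ^ 2 := by
    refine (Finset.prod_le_prod (fun v _ => norm_nonneg _) fun v _ => hb v).trans (le_of_eq ?_)
    rw [Finset.prod_mul_distrib, Finset.prod_const, Finset.card_univ,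
      NumberField.Embeddings.card k ℂ, Finset.prod_mul_distrib,
      prod_comp_aut (fun v => WW (R v ^ p)) φ]
    ring
  refine h1.trans ?_
  have h2 := WW_prod (Finset.univ : Finset (k →+* ℂ)) (fun v => R v ^ p)
    (fun v _ => one_le_pow₀ (hR1 v))
  rw [Finset.prod_pow] at h2
  -- the product of the `R v` is the measure
  have h3 : ∏ v : k →+* ℂ, R v = MK L β := by
    have h4 : ∀ σ : L →+* ℂ, R (σ.comp (algebraMap k L)) = max 1 ‖σ β‖ * max 1 ‖σ β'‖ := by
      intro σ
      set v := σ.comp (algebraMap k L) with hv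
      have h5 : E v β + E v β' = σ β + σ β' := by
        rw [← map_add, ← map_add, ← eB, ← hEv]
        rfl
      have h6 : E v β * E v β' = σ β * σ β' := by
        rw [← map_mul, ← map_mul, ← eγ, ← hEv]
        rfl
      have h7 : (E v β - σ β) * (E v β - σ β') = 0 := by
        linear_combination (E v β) * h5 - h6
      rcases mul_eq_zero.1 h7 with h8 | h8
      · have h9 : E v β = σ β := sub_eq_zero.1 h8
        have h10 : E v β' = σ β' := by
          rw [h9] at h5
          linear_combination h5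
        simp only [hR]
        rw [h9, h10]
      · have h9 : E v β = σ β' := sub_eq_zero.1 h8
        have h10 : E v β' = σ β := by
          rw [h9] at h5
          linear_combination h5
        simp only [hR]
        rw [h9, h10, mul_comm]
    have h5 := prod_restrict (L := L) R
    rw [hd, Finset.prod_congr rfl (fun σ _ => h4 σ), Finset.prod_mul_distrib] at h5
    have h6 : ∏ σ : L →+* ℂ, max 1 ‖σ β'‖ = MK L β := MK_aut (s : L ≃+* L) β
    have h7 : ∏ σ : L →+* ℂ, max 1 ‖σ β‖ = MK L β := rfl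
    rw [h6, h7, ← pow_two] at h5
    have h8 : 0 ≤ ∏ v : k →+* ℂ, R v := Finset.prod_nonneg fun v _ => zero_le_one.trans (hR1 v)
    exact ((pow_left_inj₀ (by linarith [one_le_MK L β]) h8 two_ne_zero).1 h5).symm
  rw [h3] at h2
  have h4 : 0 ≤ ∏ v : k →+* ℂ, WW (R v ^ p) := Finset.prod_nonneg fun v _ =>
    zero_le_one.trans (WW_one_le (one_le_pow₀ (hR1 v)))
  exact mul_le_mul_of_nonneg_left (pow_le_pow_left₀ h4 h2.2 2) (by positivity)

end Pool.Agent.J4.H64.GL
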