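import Mathlib
import Pool.Agent.J4.H64.GL.FrobQuad

/-!
# Measures of elements of multiquadratic extensions: general reduction, and the Frobenius case
-/

set_option autoImplicit false

open Polynomial Module ComplexConjugate IntermediateField

namespace Pool.Agent.J4.H64.GL

universe u v

theorem multi_gen {k : Type v} [Field k] [NumberField k] (P : ℝ → Prop)
    (hP : ∀ x y : ℝ, 1 ≤ x → x ≤ y → P x → P y)
    (hbase : ∀ x : k, IsIntegral ℤ x → x ≠ 0 → (∀ m : ℕ, 0 < m → x ^ m ≠ 1) → P (MK k x))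
    (hquad : ∀ (L : Type u) [Field L] [NumberField L] [Algebra k L] [IsGalois k L],
      finrank k L = 2 → ∀ β : L, IsIntegral ℤ β → β ≠ 0 → (∀ m : ℕ, 0 < m → β ^ m ≠ 1) →
      P (MK L β)) :
    ∀ n : ℕ, ∀ (K : Type u) [Field K] [NumberField K] [Algebra k K] [IsGalois k K],
      (∀ g : K ≃ₐ[k] K, g * g = 1) → finrank k K ≤ n → ∀ α : K, IsIntegral ℤ α → α ≠ 0 →
      (∀ m : ℕ, 0 < m → α ^ m ≠ 1) → P (MK K α) := by
  intro n
  induction n with
  | zero =>
    intro K _ _ _ _ _ hn
    have : FiniteDimensional k K := FiniteDimensional.right ℚ k K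
    have : 0 < finrank k K := finrank_pos
    omega
  | succ n ih =>
    intro K _ _ _ _ hexp hn α hα h0 hnt
    classical
    have hfd : FiniteDimensional k K := FiniteDimensional.right ℚ k K
    have hpos : 0 < finrank k K := finrank_pos
    by_cases h1 : finrank k K = 1
    · obtain ⟨a, ha⟩ : ∃ a : k, algebraMap k K a = α := by
        have h2 : (⊥ : Subalgebra k K) = ⊤ := Subalgebra.bot_eq_top_of_finrank_eq_one h1
        have h3 : α ∈ (⊥ : Subalgebra k K) := by rw [h2]; trivial
        exact Algebra.mem_bot.1 h3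
      have hinj := (algebraMap k K).injective
      have haint : IsIntegral ℤ a := by
        rw [← ha] at hα
        exact (isIntegral_algebraMap_iff hinj).mp hα
      have h2 := hbase a haint (by rintro rfl; exact h0 (by rw [← ha, map_zero]))
        (fun m hm h => hnt m hm (by rw [← ha, ← map_pow, h, map_one]))
      refine hP _ _ (one_le_MK k a) ?_ h2
      have h3 := norm_measure_le (L := k) α
      have h4 : Algebra.norm k α = a := by
        rw [← ha, Algebra.norm_algebraMap, h1, pow_one]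
      rw [h4] at h3
      exact h3
    by_cases h2 : finrank k K = 2
    · exact hquad K h2 α hα h0 hnt
    have hcomm : ∀ a b : K ≃ₐ[k] K, a * b = b * a := by
      intro a b
      have e := hexp (a * b)
      have ea := hexp a
      have eb := hexp b
      calc a * b = (b * b) * (a * b) := by rw [eb, one_mul]
        _ = b * (b * (a * b)) := by group
        _ = b * (((a * a) * b) * (a * b)) := by rw [ea, one_mul]
        _ = b * (a * ((a * b) * (a * b))) := by group
        _ = b * a := by rw [e, mul_one]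
    have hcard : Fintype.card (K ≃ₐ[k] K) = finrank k K := by
      rw [← Nat.card_eq_fintype_card, IsGalois.card_aut_eq_finrank]
    obtain ⟨g, hg⟩ : ∃ g : K ≃ₐ[k] K, g ≠ 1 := by
      by_contra hcon
      push Not at hcon
      have : Fintype.card (K ≃ₐ[k] K) ≤ 1 :=
        Fintype.card_le_one_iff.2 fun a b => by rw [hcon a, hcon b]
      omega
    obtain ⟨h, hh⟩ : ∃ h : K ≃ₐ[k] K, h ∉ ({1, g} : Finset (K ≃ₐ[k] K)) := by
      by_contra hcon
      push Not at hcon
      have h3 : (Finset.univ : Finset (K ≃ₐ[k] K)) ⊆ {1, g} := fun a _ => hcon a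
      have h4 := Finset.card_le_card h3
      have h5 : ({1, g} : Finset (K ≃ₐ[k] K)).card ≤ 2 := Finset.card_le_two
      rw [Finset.card_univ, hcard] at h4
      omega
    rw [Finset.mem_insert, Finset.mem_singleton, not_or] at hh
    have hgh : g * h ≠ 1 := by
      intro e
      apply hh.2
      calc h = (g * g) * h := by rw [hexp g, one_mul]
        _ = g * (g * h) := by group
        _ = g := by rw [e, mul_one]
    obtain ⟨x, hx1, hxnt⟩ : ∃ x : K ≃ₐ[k] K, x ≠ 1 ∧
        (∀ m : ℕ, 0 < m → (α * (x α)) ^ m ≠ 1) := by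
      rcases exists_norm α g h (hcomm g h) hnt with h3 | h3 | h3
      · exact ⟨g, hg, h3⟩
      · exact ⟨h, hh.1, h3⟩
      · exact ⟨g * h, hgh, h3⟩
    -- the fixed field
    set H := Subgroup.zpowers x with hH
    have hnormal : H.Normal := ⟨fun a ha b => by
      rw [hcomm b a, mul_assoc, mul_inv_cancel, mul_one]
      exact ha⟩
    set L := IntermediateField.fixedField H with hL
    have hgal : IsGalois k L := IsGalois.of_fixedField_normal_subgroup H
    have : NumberField L := NumberField.of_module_finite k L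
    have hord : orderOf x = 2 := orderOf_eq_prime (by rw [pow_two]; exact hexp x) hx1
    have hLK : finrank L K = 2 := by
      rw [hL, IntermediateField.finrank_fixedField_eq_card, hH, Nat.card_zpowers, hord]
    have hkL : finrank k L * 2 = finrank k K := by
      rw [← hLK]
      exact finrank_mul_finrank k L K
    have hgal2 : IsGalois L K := IsGalois.tower_top_of_isGalois k L K
    let x' : K ≃ₐ[L] K :=
      { (x : K ≃+* K) with
        commutes' := by
          intro y
          exact (IntermediateField.mem_fixedField_iff H _).1 y.2 x (Subgroup.mem_zpowers x) }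
    have hx' : ∀ y, x' y = x y := fun y => rfl
    have hx'1 : (1 : K ≃ₐ[L] K) ≠ x' := by
      intro e
      apply hx1
      ext y
      rw [← hx', ← e]
      rfl
    have huniv : (Finset.univ : Finset (K ≃ₐ[L] K)) = {1, x'} := by
      symm
      apply Finset.eq_univ_of_card
      rw [Finset.card_pair hx'1, ← Nat.card_eq_fintype_card, IsGalois.card_aut_eq_finrank, hLK]
    set β := Algebra.norm L α with hβ
    have hβe : algebraMap L K β = α * x α := by
      rw [hβ, Algebra.norm_eq_prod_automorphisms, huniv, Finset.prod_pair hx'1]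
      rfl
    have hlt := ih L (by
      intro τ
      ext y
      have e1 : ∀ z : L, algebraMap L K (τ z) = (τ.liftNormal K) (algebraMap L K z) := fun z =>
        (τ.liftNormal_commutes K z).symm
      have e2 := congrArg (fun w : K ≃ₐ[k] K => w (algebraMap L K y)) (hexp (τ.liftNormal K))
      have e3 : algebraMap L K (τ (τ y)) = algebraMap L K y := by
        rw [e1, e1]
        exact e2
      exact congrArg (algebraMap L K) ((algebraMap L K).injective e3)) (by omega) β
      (Algebra.isIntegral_norm L hα) (Algebra.norm_ne_zero_iff.2 h0)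
      (fun m hm e => hxnt m hm (by rw [← hβe, ← map_pow, e, map_one]))
    exact hP _ _ (one_le_MK L β) (norm_measure_le α) hlt


lemma inCyclotomic_of_one {k : Type*} [Field k] [NumberField k] (h : finrank ℚ k = 1) :
    InCyclotomic k := by
  refine ⟨1, one_pos, Classical.choice (inferInstance : Nonempty (k →+* ℂ)), fun x => ?_⟩
  obtain ⟨q, rfl⟩ : ∃ q : ℚ, algebraMap ℚ k q = x := by
    have h2 : (⊥ : Subalgebra ℚ k) = ⊤ := Subalgebra.bot_eq_top_of_finrank_eq_one h
    have h3 : x ∈ (⊥ : Subalgebra ℚ k) := by rw [h2]; trivial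
    exact Algebra.mem_bot.1 h3
  rw [eq_ratCast, map_ratCast]
  exact SubfieldClass.ratCast_mem _ q

/-- the inequality for the measure `m`, with `n = [k : ℚ]` -/
def Ineq (p n : ℕ) (m : ℝ) : Prop :=
  (p : ℝ) ^ n ≤ 2 ^ n * m ^ (p + 1) ∨ (p : ℝ) ^ n ≤ 4 ^ n * WW (m ^ p) ^ 2

lemma Ineq.mono {p n : ℕ} {x y : ℝ} (hx : 1 ≤ x) (hxy : x ≤ y) (h : Ineq p n x) :
    Ineq p n y := by
  rcases h with h | h
  · left
    exact h.trans (mul_le_mul_of_nonneg_left (pow_le_pow_left₀ (by linarith) hxy _)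
      (by positivity))
  · right
    have h1 : 1 ≤ x ^ p := one_le_pow₀ hx
    have h2 : x ^ p ≤ y ^ p := pow_le_pow_left₀ (by linarith) hxy _
    exact h.trans (mul_le_mul_of_nonneg_left (pow_le_pow_left₀
      (zero_le_one.trans (WW_one_le h1)) (WW_mono h1 h2) 2) (by positivity))

theorem frob_multi {k : Type v} [Field k] [NumberField k] {K : Type u} [Field K] [NumberField K]
    [Algebra k K] [IsGalois k K] {p : ℕ} (hpp : p.Prime) (hp : 3 ≤ p) {φ : k ≃ₐ[ℚ] k}
    (hφ : IsFrob p φ) (hexp : ∀ g : K ≃ₐ[k] K, g * g = 1) (α : K) (hα : IsIntegral ℤ α)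
    (h0 : α ≠ 0) (hnt : ∀ n : ℕ, 0 < n → α ^ n ≠ 1) : Ineq p (finrank ℚ k) (MK K α) :=
  multi_gen (fun x => Ineq p (finrank ℚ k) x) (fun _ _ hx hxy h => h.mono hx hxy)
    (fun x hx hx0 hxnt => Or.inl (frob_base (by omega) hφ x hx hx0 hxnt))
    (fun _ _ _ _ _ hd β hβ hβ0 hβnt => frob_quad hpp hp hφ hd β hβ hβ0 hβnt)
    (finrank k K) K hexp le_rfl α hα h0 hnt

lemma Ineq.large {p n : ℕ} (hp : p = 5 ∨ p = 7 ∨ p = 11 ∨ p = 13) (hn : 2 ≤ n) {m : ℝ}
    (hm : 1 ≤ m) (h : Ineq p n m) : 6 / 5 < m := by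
  by_contra hcon
  push Not at hcon
  obtain ⟨j, rfl⟩ : ∃ j, n = j + 2 := ⟨n - 2, by omega⟩
  have h1 := h.mono hm hcon
  have hp5 : (5 : ℝ) ≤ p := by
    have : 5 ≤ p := by omega
    exact_mod_cast this
  rcases h1 with h2 | h2
  · have h3 : (2 : ℝ) ^ j ≤ (p : ℝ) ^ j := pow_le_pow_left₀ (by norm_num) (by linarith) j
    have h4 : (0 : ℝ) < 2 ^ j := by positivity
    have h5 : (p : ℝ) ^ 2 ≤ 4 * (6 / 5 : ℝ) ^ (p + 1) := by
      rw [pow_add, pow_add] at h2
      have h6 : (2 : ℝ) ^ j * (p : ℝ) ^ 2 ≤ 2 ^ j * (4 * (6 / 5 : ℝ) ^ (p + 1)) := by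
        calc (2 : ℝ) ^ j * (p : ℝ) ^ 2 ≤ (p : ℝ) ^ j * (p : ℝ) ^ 2 :=
              mul_le_mul_of_nonneg_right h3 (by positivity)
          _ ≤ 2 ^ j * 2 ^ 2 * (6 / 5 : ℝ) ^ (p + 1) := h2
          _ = _ := by ring
      exact le_of_mul_le_mul_left h6 h4
    rcases hp with rfl | rfl | rfl | rfl <;> norm_num at h5
  · have h3 : (4 : ℝ) ^ j ≤ (p : ℝ) ^ j := pow_le_pow_left₀ (by norm_num) (by linarith) j
    have h4 : (0 : ℝ) < 4 ^ j := by positivity
    have h5 : (p : ℝ) ^ 2 ≤ 16 * WW ((6 / 5 : ℝ) ^ p) ^ 2 := by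
      rw [pow_add, pow_add] at h2
      have h6 : (4 : ℝ) ^ j * (p : ℝ) ^ 2 ≤ 4 ^ j * (16 * WW ((6 / 5 : ℝ) ^ p) ^ 2) := by
        calc (4 : ℝ) ^ j * (p : ℝ) ^ 2 ≤ (p : ℝ) ^ j * (p : ℝ) ^ 2 :=
              mul_le_mul_of_nonneg_right h3 (by positivity)
          _ ≤ 4 ^ j * 4 ^ 2 * WW ((6 / 5 : ℝ) ^ p) ^ 2 := h2
          _ = _ := by ring
      exact le_of_mul_le_mul_left h6 h4
    unfold WW at h5
    rcases hp with rfl | rfl | rfl | rfl <;> norm_num at h5

end Pool.Agent.J4.H64.GL
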