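import Mathlib
import Pool.Agent.J4.H64.GL.Gen

/-!
# Traces of Frobenius powers in extensions of small degree
-/

set_option autoImplicit false

open Polynomial Module ComplexConjugate IntermediateField

namespace Pool.Agent.J4.H64.GL

open Pool.Agent.R701.UG Pool.Agent.H338R2

/-- weights -/
noncomputable def V (d : ℕ) (x : ℝ) : ℝ := 1 + (x - 1) / (2 * d)

lemma V_one_le {d : ℕ} (hd : 1 ≤ d) {x : ℝ} (hx : 1 ≤ x) : 1 ≤ V d x := by
  unfold V
  have : (0 : ℝ) < d := by exact_mod_cast hd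
  have h : 0 ≤ (x - 1) / (2 * d) := div_nonneg (by linarith) (by positivity)
  linarith

lemma V_mono {d : ℕ} (hd : 1 ≤ d) {x y : ℝ} (hxy : x ≤ y) : V d x ≤ V d y := by
  unfold V
  have : (0 : ℝ) < d := by exact_mod_cast hd
  have h : (x - 1) / (2 * d) ≤ (y - 1) / (2 * d) :=
    div_le_div_of_nonneg_right (by linarith) (by positivity)
  linarith

lemma V_mul {d : ℕ} (hd : 1 ≤ d) {x y : ℝ} (hx : 1 ≤ x) (hy : 1 ≤ y) :
    V d x * V d y ≤ V d (x * y) := by
  unfold V
  have h0 : (1 : ℝ) ≤ d := by exact_mod_cast hd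
  have hd0 : (0 : ℝ) < 2 * d := by linarith
  set D : ℝ := 2 * d with hD
  have hD1 : 1 ≤ D := by linarith
  set a := x - 1 with ha
  set b := y - 1 with hb
  have ha0 : 0 ≤ a := by linarith
  have hb0 : 0 ≤ b := by linarith
  have e1 : x * y - 1 = a * b + a + b := by rw [ha, hb]; ring
  rw [e1]
  have e2 : (1 + (a * b + a + b) / D) - (1 + a / D) * (1 + b / D) = a * b * (D - 1) / D ^ 2 := by
    field_simp
    ring
  have h1 : 0 ≤ a * b * (D - 1) / D ^ 2 := by
    apply div_nonneg _ (by positivity)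
    exact mul_nonneg (mul_nonneg ha0 hb0) (by linarith)
  linarith

lemma V_prod {d : ℕ} (hd : 1 ≤ d) {ι : Type*} (s : Finset ι) (g : ι → ℝ)
    (hg : ∀ i ∈ s, 1 ≤ g i) :
    1 ≤ ∏ i ∈ s, g i ∧ ∏ i ∈ s, V d (g i) ≤ V d (∏ i ∈ s, g i) := by
  classical
  induction s using Finset.induction_on with
  | empty => simp [V]
  | insert a s ha ih =>
    rw [Finset.prod_insert ha, Finset.prod_insert ha]
    obtain ⟨h1, h2⟩ := ih fun i hi => hg i (Finset.mem_insert_of_mem hi)
    have h3 := hg a (Finset.mem_insert_self a s)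
    refine ⟨one_le_mul_of_one_le_of_one_le h3 h1, ?_⟩
    exact (mul_le_mul_of_nonneg_left h2 (by linarith [V_one_le hd h3])).trans (V_mul hd h3 h1)

lemma V_bound {d : ℕ} (hd : 1 ≤ d) {x y : ℝ} (hx : 1 ≤ x) (hy : 1 ≤ y) :
    x + (d - 1) + (y + (d - 1)) ≤ 2 * d * (V d x * V d y) := by
  unfold V
  have h0 : (1 : ℝ) ≤ d := by exact_mod_cast hd
  set D : ℝ := (d : ℝ) with hD
  have e : 2 * D * ((1 + (x - 1) / (2 * D)) * (1 + (y - 1) / (2 * D))) -
      (x + (D - 1) + (y + (D - 1))) = (x - 1) * (y - 1) / (2 * D) := by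
    field_simp
    ring
  have h1 : 0 ≤ (x - 1) * (y - 1) / (2 * D) :=
    div_nonneg (mul_nonneg (by linarith) (by linarith)) (by linarith)
  linarith

lemma sum_le_prod {ι : Type*} (s : Finset ι) (hs : s.Nonempty) (y : ι → ℝ)
    (hy : ∀ i ∈ s, 0 ≤ y i) :
    ∑ i ∈ s, y i ≤ ∏ i ∈ s, max 1 (y i) + (s.card - 1) := by
  classical
  induction hs using Finset.Nonempty.cons_induction with
  | singleton a => simp
  | cons a s ha hs ih =>
    rw [Finset.sum_cons, Finset.prod_cons, Finset.card_cons]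
    have h1 := ih fun i hi => hy i (Finset.mem_cons_of_mem hi)
    have h2 : 1 ≤ ∏ i ∈ s, max 1 (y i) := by
      have : ∏ _i ∈ s, (1 : ℝ) ≤ ∏ i ∈ s, max 1 (y i) :=
        Finset.prod_le_prod (fun _ _ => zero_le_one) (fun _ _ => le_max_left _ _)
      simpa using this
    have h3 : 1 ≤ max 1 (y a) := le_max_left _ _
    have h4 : y a ≤ max 1 (y a) := le_max_right _ _
    push_cast
    nlinarith [mul_nonneg (sub_nonneg.2 h2) (sub_nonneg.2 h3)]

/-- embeddings over a given embedding of the base field -/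
abbrev Ov {k K : Type*} [Field k] [Field K] [Algebra k K] (w : k →+* ℂ) : Type _ :=
  {σ : K →+* ℂ // σ.comp (algebraMap k K) = w}

section

variable {k K : Type*} [Field k] [NumberField k] [Field K] [NumberField K] [Algebra k K]

noncomputable instance (w : k →+* ℂ) : Fintype (Ov (K := K) w) := by
  classical
  exact Subtype.fintype _

/-- equivalence with the algebra homomorphisms -/
noncomputable def ovEquiv (w : k →+* ℂ) :
    @AlgHom k K ℂ _ _ _ _ w.toAlgebra ≃ Ov (K := K) w :=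
  letI := w.toAlgebra
  { toFun := fun ψ => ⟨ψ.toRingHom, ψ.comp_algebraMap⟩
    invFun := fun σ => { σ.1 with commutes' := fun x => congrArg (fun τ : k →+* ℂ => τ x) σ.2 }
    left_inv := fun ψ => by ext x; rfl
    right_inv := fun σ => by ext x; rfl }

lemma sum_ov (w : k →+* ℂ) (x : K) : ∑ σ : Ov (K := K) w, σ.1 x = w (Algebra.trace k K x) := by
  classical
  have : FiniteDimensional k K := FiniteDimensional.right ℚ k K
  let _ : Algebra k ℂ := w.toAlgebra
  have h1 : algebraMap k ℂ (Algebra.trace k K x) = ∑ σ : K →ₐ[k] ℂ, σ x :=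
    trace_eq_sum_embeddings ℂ
  have h2 : algebraMap k ℂ (Algebra.trace k K x) = w (Algebra.trace k K x) := rfl
  rw [← h2, h1]
  exact (Fintype.sum_equiv (ovEquiv w) _ _ fun ψ => rfl).symm

lemma prod_ov (w : k →+* ℂ) (x : K) : ∏ σ : Ov (K := K) w, σ.1 x = w (Algebra.norm k x) := by
  classical
  have : FiniteDimensional k K := FiniteDimensional.right ℚ k K
  let _ : Algebra k ℂ := w.toAlgebra
  have h1 := Algebra.norm_eq_prod_embeddings k ℂ x
  have h2 : algebraMap k ℂ (Algebra.norm k x) = w (Algebra.norm k x) := rfl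
  rw [← h2, h1]
  exact (Fintype.prod_equiv (ovEquiv w) _ _ fun ψ => rfl).symm

lemma card_ov (w : k →+* ℂ) : Fintype.card (Ov (K := K) w) = finrank k K := by
  classical
  have : FiniteDimensional k K := FiniteDimensional.right ℚ k K
  let _ : Algebra k ℂ := w.toAlgebra
  rw [← AlgHom.card k K ℂ]
  exact (Fintype.card_congr (ovEquiv w)).symm

lemma prod_all (g : (K →+* ℂ) → ℝ) :
    ∏ w : k →+* ℂ, ∏ σ : Ov (K := K) w, g σ.1 = ∏ σ : K →+* ℂ, g σ := by
  classical
  rw [← Fintype.prod_sigma']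
  refine Fintype.prod_equiv ⟨fun x => x.2.1, fun σ => ⟨σ.comp (algebraMap k K), ⟨σ, rfl⟩⟩, ?_, ?_⟩
    _ _ fun x => rfl
  · rintro ⟨w, σ, rfl⟩
    rfl
  · intro σ
    rfl

lemma sum_pow_mod {R ι : Type*} [CommRing R] {q : ℕ} (hq : q.Prime) (s : Finset ι) (x : ι → R)
    (hx : ∀ i ∈ s, IsIntegral ℤ (x i)) :
    ∃ u : R, IsIntegral ℤ u ∧ ∑ i ∈ s, x i ^ q = (∑ i ∈ s, x i) ^ q - q * u := by
  classical
  induction s using Finset.induction_on with
  | empty => exact ⟨0, isIntegral_zero, by simp [hq.ne_zero]⟩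
  | insert a s ha ih =>
    obtain ⟨u, hu, h1⟩ := ih fun i hi => hx i (Finset.mem_insert_of_mem hi)
    obtain ⟨w, hw, h2⟩ := power_sum_mod hq (x a) (∑ i ∈ s, x i) (hx a (Finset.mem_insert_self a s))
      (IsIntegral.sum _ fun i hi => hx i (Finset.mem_insert_of_mem hi))
    refine ⟨u + w, hu.add hw, ?_⟩
    rw [Finset.sum_insert ha, Finset.sum_insert ha, h1]
    linear_combination h2

/-- the trace of a prime power -/
lemma trace_pow {q : ℕ} (hq : q.Prime) (x : K) (hx : IsIntegral ℤ x) :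
    ∃ u : k, IsIntegral ℤ u ∧
      Algebra.trace k K (x ^ q) = (Algebra.trace k K x) ^ q - q * u := by
  classical
  obtain ⟨w⟩ : Nonempty (k →+* ℂ) := inferInstance
  obtain ⟨u', hu', h1⟩ := sum_pow_mod hq (Finset.univ : Finset (Ov (K := K) w)) (fun σ => σ.1 x)
    (fun σ _ => hx.map σ.1.toIntAlgHom)
  have hq0 : (q : k) ≠ 0 := by exact_mod_cast hq.ne_zero
  have hq0' : (q : ℂ) ≠ 0 := by exact_mod_cast hq.ne_zero
  refine ⟨((Algebra.trace k K x) ^ q - Algebra.trace k K (x ^ q)) / q, ?_, by field_simp; ring⟩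
  have h2 : w (((Algebra.trace k K x) ^ q - Algebra.trace k K (x ^ q)) / q) = u' := by
    rw [map_div₀, map_natCast, div_eq_iff hq0', map_sub, map_pow, ← sum_ov, ← sum_ov]
    have h3 : ∑ σ : Ov (K := K) w, σ.1 (x ^ q) = ∑ σ : Ov (K := K) w, (σ.1 x) ^ q :=
      Finset.sum_congr rfl fun σ _ => map_pow _ _ _
    rw [h3, h1]
    ring
  have h4 : IsIntegral ℤ (w (((Algebra.trace k K x) ^ q - Algebra.trace k K (x ^ q)) / q)) := by
    rw [h2]
    exact hu'
  exact (isIntegral_algHom_iff w.toIntAlgHom w.injective).1 h4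

/-- the basic estimate: if the number `e = Tr(y ^ p) - φ(Tr y)` is a nonzero multiple of `c` -/
theorem trace_estimate {p : ℕ} {φ : k ≃ₐ[ℚ] k} {y : K} {c : ℕ}
    {e z : k} (he : e = Algebra.trace k K (y ^ p) - φ (Algebra.trace k K y)) (hz : IsIntegral ℤ z)
    (hez : e = c * z) (he0 : e ≠ 0) :
    (c : ℝ) ^ (finrank ℚ k) ≤ (2 * (finrank k K : ℝ)) ^ (finrank ℚ k) *
      (V (finrank k K) (MK K y ^ p) * V (finrank k K) (MK K y)) := by
  classical
  have hfd : FiniteDimensional k K := FiniteDimensional.right ℚ k K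
  set d := finrank k K with hd
  have hd1 : 1 ≤ d := finrank_pos
  set X : (k →+* ℂ) → ℝ := fun w => ∏ σ : Ov (K := K) w, max 1 ‖σ.1 y‖ with hX
  have hX1 : ∀ w, 1 ≤ X w := by
    intro w
    have : ∏ _σ : Ov (K := K) w, (1 : ℝ) ≤ ∏ σ : Ov (K := K) w, max 1 ‖σ.1 y‖ :=
      Finset.prod_le_prod (fun _ _ => zero_le_one) (fun _ _ => le_max_left _ _)
    simpa [hX] using this
  have hne : ∀ w : k →+* ℂ, (Finset.univ : Finset (Ov (K := K) w)).Nonempty := by
    intro w
    rw [← Finset.card_pos, Finset.card_univ, card_ov]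
    exact hd1
  have hXprod : ∏ w : k →+* ℂ, X w = MK K y := by
    rw [hX]
    exact prod_all (fun σ : K →+* ℂ => max 1 ‖σ y‖)
  have hbound : ∀ w : k →+* ℂ, ‖w e‖ ≤ 2 * (d : ℝ) * (V d (X w ^ p) *
      V d (X (w.comp (φ : k →+* k)))) := by
    intro w
    rw [he, map_sub]
    refine (norm_sub_le _ _).trans ?_
    have h1 : ‖w (Algebra.trace k K (y ^ p))‖ ≤ X w ^ p + (d - 1) := by
      rw [← sum_ov]
      refine (norm_sum_le _ _).trans ?_
      have h2 := sum_le_prod (Finset.univ : Finset (Ov (K := K) w)) (hne w)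
        (fun σ => ‖σ.1 (y ^ p)‖) (fun _ _ => norm_nonneg _)
      rw [Finset.card_univ, card_ov] at h2
      refine h2.trans (add_le_add (le_of_eq ?_) le_rfl)
      rw [hX, ← Finset.prod_pow]
      refine Finset.prod_congr rfl fun σ _ => ?_
      rw [map_pow, norm_pow]
      rcases le_total 1 ‖σ.1 y‖ with h | h
      · rw [max_eq_right h, max_eq_right (one_le_pow₀ h)]
      · rw [max_eq_left h, max_eq_left (pow_le_one₀ (norm_nonneg _) h), one_pow]
    have h3 : ‖w (φ (Algebra.trace k K y))‖ ≤ X (w.comp (φ : k →+* k)) + (d - 1) := by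
      have h4 : w (φ (Algebra.trace k K y)) =
          (w.comp (φ : k →+* k)) (Algebra.trace k K y) := rfl
      rw [h4, ← sum_ov]
      refine (norm_sum_le _ _).trans ?_
      have h2 := sum_le_prod (Finset.univ : Finset (Ov (K := K) (w.comp (φ : k →+* k)))) (hne _)
        (fun σ => ‖σ.1 y‖) (fun _ _ => norm_nonneg _)
      rw [Finset.card_univ, card_ov] at h2
      exact h2
    exact (add_le_add h1 h3).trans (V_bound hd1 (one_le_pow₀ (hX1 w)) (hX1 _))
  have h1 : (c : ℝ) ^ (finrank ℚ k) ≤ ∏ w : k →+* ℂ, ‖w e‖ := pow_le_prod_of hz hez he0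
  refine h1.trans ?_
  refine (Finset.prod_le_prod (fun v _ => norm_nonneg _) fun v _ => hbound v).trans ?_
  rw [Finset.prod_mul_distrib, Finset.prod_const, Finset.card_univ,
    NumberField.Embeddings.card k ℂ, Finset.prod_mul_distrib,
    prod_comp_aut (fun v => V d (X v)) φ]
  refine mul_le_mul_of_nonneg_left ?_ (by positivity)
  have h2 := V_prod hd1 (Finset.univ : Finset (k →+* ℂ)) (fun v => X v ^ p)
    (fun v _ => one_le_pow₀ (hX1 v))
  have h3 := V_prod hd1 (Finset.univ : Finset (k →+* ℂ)) X (fun v _ => hX1 v)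
  have h4 : ∏ v, X v ^ p = MK K y ^ p := by rw [Finset.prod_pow, hXprod]
  rw [h4] at h2
  rw [hXprod] at h3
  refine mul_le_mul h2.2 h3.2 (Finset.prod_nonneg fun v _ => ?_) ?_
  · exact zero_le_one.trans (V_one_le hd1 (hX1 v))
  · exact zero_le_one.trans (V_one_le hd1 (one_le_pow₀ (one_le_MK K y)))

/-- divisibility by `p` -/
lemma trace_dvd {p : ℕ} (hp : p.Prime) {φ : k ≃ₐ[ℚ] k} (hφ : IsFrob p φ) (y : K)
    (hy : IsIntegral ℤ y) : ∃ z : k, IsIntegral ℤ z ∧
      Algebra.trace k K (y ^ p) - φ (Algebra.trace k K y) = p * z := by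
  have hfd : FiniteDimensional k K := FiniteDimensional.right ℚ k K
  obtain ⟨u, hu, h1⟩ := trace_pow (k := k) hp y hy
  obtain ⟨v, hv, h2⟩ := hφ (Algebra.trace k K y) (Algebra.isIntegral_trace hy)
  refine ⟨v - u, hv.sub hu, ?_⟩
  rw [h1]
  linear_combination h2

end

end Pool.Agent.J4.H64.GL
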