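import Mathlib
import Pool.Agent.J4.H64.GL.Tr

/-!
# Elements of bounded degree over a field with a Frobenius automorphism
-/

set_option autoImplicit false

open Polynomial Module ComplexConjugate IntermediateField

namespace Pool.Agent.J4.H64.GL

/-- Newton: equal power sums give equal elementary symmetric functions -/
lemma esymm_eq_of_psum {ι : Type*} [Fintype ι] (x y : ι → ℂ) (d : ℕ)
    (h : ∀ j : ℕ, 1 ≤ j → j ≤ d → ∑ i, x i ^ j = ∑ i, y i ^ j) :
    ∀ m : ℕ, m ≤ d → MvPolynomial.aeval x (MvPolynomial.esymm ι ℂ m) =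
      MvPolynomial.aeval y (MvPolynomial.esymm ι ℂ m) := by
  intro m
  induction m using Nat.strong_induction_on with
  | _ m ih =>
    intro hm
    rcases Nat.eq_zero_or_pos m with rfl | hpos
    · simp
    have h1 := congrArg (MvPolynomial.aeval x) (MvPolynomial.mul_esymm_eq_sum ι ℂ m)
    have h2 := congrArg (MvPolynomial.aeval y) (MvPolynomial.mul_esymm_eq_sum ι ℂ m)
    simp only [map_mul, map_natCast, map_pow, map_neg, map_one, map_sum] at h1 h2
    have h3 : (m : ℂ) ≠ 0 := by exact_mod_cast hpos.ne'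
    apply mul_left_cancel₀ h3
    rw [h1, h2]
    congr 1
    refine Finset.sum_congr rfl fun a ha => ?_
    rw [Finset.mem_filter, Finset.HasAntidiagonal.mem_antidiagonal] at ha
    obtain ⟨ha1, ha2⟩ := ha
    rw [ih a.1 ha2 (by omega)]
    congr 1
    rw [MvPolynomial.psum, map_sum, map_sum]
    have h4 := h a.2 (by omega) (by omega)
    simpa using h4

lemma exists_of_psum {ι : Type*} [Fintype ι] (x y : ι → ℂ)
    (h : ∀ j : ℕ, 1 ≤ j → j ≤ Fintype.card ι → ∑ i, x i ^ j = ∑ i, y i ^ j) (i : ι) :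
    ∃ i', x i = y i' := by
  classical
  have h1 := esymm_eq_of_psum x y (Fintype.card ι) h
  set s : Multiset ℂ := Finset.univ.val.map x with hs
  set t : Multiset ℂ := Finset.univ.val.map y with ht
  have hs1 : Multiset.card s = Fintype.card ι := by simp [hs]
  have ht1 : Multiset.card t = Fintype.card ι := by simp [ht]
  have h2 : (s.map fun a => (X - C a : ℂ[X])).prod = (t.map fun a => (X - C a : ℂ[X])).prod := by
    rw [Multiset.prod_X_sub_X_eq_sum_esymm, Multiset.prod_X_sub_X_eq_sum_esymm, hs1, ht1]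
    refine Finset.sum_congr rfl fun j hj => ?_
    rw [Finset.mem_range] at hj
    have h3 := h1 j (by omega)
    rw [MvPolynomial.aeval_esymm_eq_multiset_esymm, MvPolynomial.aeval_esymm_eq_multiset_esymm] at h3
    rw [h3]
  have h3 : s = t := by
    have h4 := congrArg Polynomial.roots h2
    rwa [Polynomial.roots_multiset_prod_X_sub_C, Polynomial.roots_multiset_prod_X_sub_C] at h4
  have h4 : x i ∈ s := Multiset.mem_map.2 ⟨i, Finset.mem_univ_val i, rfl⟩
  rw [h3] at h4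
  obtain ⟨i', -, h5⟩ := Multiset.mem_map.1 h4
  exact ⟨i', h5.symm⟩

/-- if the `p`-th powers of the conjugates are conjugates then the number is a root of unity -/
lemma torsion_of_conj {K : Type*} [Field K] [NumberField K] {p : ℕ} (hp : 2 ≤ p) (β : K)
    (h0 : β ≠ 0) (h : ∀ σ : K →+* ℂ, ∃ σ' : K →+* ℂ, (σ β) ^ p = σ' β) :
    ∃ n : ℕ, 0 < n ∧ β ^ n = 1 := by
  classical
  choose F hF using h
  obtain ⟨σ₀⟩ : Nonempty (K →+* ℂ) := inferInstance
  have h1 : ∀ j : ℕ, (σ₀ β) ^ (p ^ j) = (F^[j] σ₀) β := by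
    intro j
    induction j with
    | zero => simp
    | succ j ih => rw [pow_succ, pow_mul, ih, hF, Function.iterate_succ_apply']
  have h2 : ¬ Function.Injective (fun j : ℕ => F^[j] σ₀) := not_injective_infinite_finite _
  rw [Function.Injective] at h2
  push Not at h2
  obtain ⟨i, j, hij, hne⟩ := h2
  wlog hlt : i < j generalizing i j
  · exact this j i hij.symm hne.symm (by omega)
  have h3 : (σ₀ β) ^ (p ^ i) = (σ₀ β) ^ (p ^ j) := by
    rw [h1, h1]
    exact congrArg (fun τ : K →+* ℂ => τ β) hij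
  have h4 : p ^ i < p ^ j := Nat.pow_lt_pow_right (by omega) hlt
  refine ⟨p ^ j - p ^ i, by omega, ?_⟩
  apply σ₀.injective
  rw [map_pow, map_one]
  have h5 : (σ₀ β) ^ (p ^ i) ≠ 0 := pow_ne_zero _ (by simpa using h0)
  apply mul_right_cancel₀ h5
  rw [one_mul, ← pow_add]
  have h6 : p ^ j - p ^ i + p ^ i = p ^ j := by omega
  rw [h6, h3]

lemma MK_pow {K : Type*} [Field K] [NumberField K] (β : K) (j : ℕ) :
    MK K (β ^ j) = MK K β ^ j := by
  unfold MK
  rw [← Finset.prod_pow]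
  refine Finset.prod_congr rfl fun σ _ => ?_
  rw [map_pow, norm_pow]
  rcases le_total 1 ‖σ β‖ with h | h
  · rw [max_eq_right h, max_eq_right (one_le_pow₀ h)]
  · rw [max_eq_left h, max_eq_left (pow_le_one₀ (norm_nonneg _) h), one_pow]

section

variable {k K : Type*} [Field k] [NumberField k] [Field K] [NumberField K] [Algebra k K]

/-- the difference of the trace of the `p`-th power and the conjugate of the trace -/
noncomputable def EE (p : ℕ) (φ : k ≃ₐ[ℚ] k) (y : K) : k :=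
  Algebra.trace k K (y ^ p) - φ (Algebra.trace k K y)

lemma sums_of_EE {p : ℕ} {φ : k ≃ₐ[ℚ] k} {y : K} (h : EE p φ y = 0) (w : k →+* ℂ) :
    ∑ σ : Ov (K := K) w, (σ.1 y) ^ p = ∑ σ : Ov (K := K) (w.comp (φ : k →+* k)), σ.1 y := by
  rw [sum_ov]
  have h1 := congrArg w (sub_eq_zero.1 h)
  rw [← sum_ov] at h1
  simp only [map_pow] at h1
  exact h1

theorem EE_estimate {p : ℕ} (hp : p.Prime) {φ : k ≃ₐ[ℚ] k} (hφ : IsFrob p φ) (y : K)
    (hy : IsIntegral ℤ y) (he0 : EE p φ y ≠ 0) :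
    (p : ℝ) ^ (finrank ℚ k) ≤ (2 * (finrank k K : ℝ)) ^ (finrank ℚ k) *
      (V (finrank k K) (MK K y ^ p) * V (finrank k K) (MK K y)) := by
  obtain ⟨z, hz, h1⟩ := trace_dvd hp hφ y hy
  exact trace_estimate rfl hz h1 he0

/-- Elements of arbitrary degree. -/
theorem general_degree {p : ℕ} (hp : p.Prime) {φ : k ≃ₐ[ℚ] k} (hφ : IsFrob p φ) (β : K)
    (hβ : IsIntegral ℤ β) (h0 : β ≠ 0) (hnt : ∀ n : ℕ, 0 < n → β ^ n ≠ 1) :
    ∃ j : ℕ, 1 ≤ j ∧ j ≤ finrank k K ∧
      (p : ℝ) ^ (finrank ℚ k) ≤ (2 * (finrank k K : ℝ)) ^ (finrank ℚ k) *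
      (V (finrank k K) (MK K β ^ (j * p)) * V (finrank k K) (MK K β ^ j)) := by
  classical
  by_contra hcon
  push Not at hcon
  have hE : ∀ j : ℕ, 1 ≤ j → j ≤ finrank k K → EE p φ (β ^ j) = 0 := by
    intro j h1 h2
    by_contra hne
    have h3 := EE_estimate hp hφ (β ^ j) (hβ.pow j) hne
    rw [MK_pow, ← pow_mul] at h3
    exact absurd h3 (not_le.2 (hcon j h1 h2))
  have hconj : ∀ σ : K →+* ℂ, ∃ σ' : K →+* ℂ, (σ β) ^ p = σ' β := by
    intro σ
    set w := σ.comp (algebraMap k K) with hw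
    have hcard : Fintype.card (Ov (K := K) w) =
        Fintype.card (Ov (K := K) (w.comp (φ : k →+* k))) := by
      rw [card_ov, card_ov]
    obtain ⟨Φ⟩ : Nonempty (Ov (K := K) w ≃ Ov (K := K) (w.comp (φ : k →+* k))) :=
      ⟨Fintype.equivOfCardEq hcard⟩
    obtain ⟨σ', h1⟩ := exists_of_psum (fun τ : Ov (K := K) w => (τ.1 β) ^ p)
      (fun τ => (Φ τ).1 β) (fun j hj1 hj2 => by
        rw [card_ov] at hj2
        have h2 := sums_of_EE (hE j hj1 hj2) w
        rw [← Equiv.sum_comp Φ] at h2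
        simp only [map_pow] at h2
        rw [← h2]
        exact Finset.sum_congr rfl fun τ _ => by rw [← pow_mul, ← pow_mul, mul_comm]) ⟨σ, rfl⟩
    exact ⟨(Φ σ').1, h1⟩
  obtain ⟨n, hn, h1⟩ := torsion_of_conj hp.two_le β h0 hconj
  exact hnt n hn h1

lemma V_le_self {d : ℕ} (hd : 1 ≤ d) {x : ℝ} (hx : 1 ≤ x) : V d x ≤ x := by
  unfold V
  have h0 : (1 : ℝ) ≤ d := by exact_mod_cast hd
  have h1 : (x - 1) / (2 * d) ≤ x - 1 := by
    apply div_le_self (by linarith) (by linarith)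
  linarith

/-- the simple form -/
theorem general_simple {p : ℕ} (hp : p.Prime) {φ : k ≃ₐ[ℚ] k} (hφ : IsFrob p φ) (β : K)
    (hβ : IsIntegral ℤ β) (h0 : β ≠ 0) (hnt : ∀ n : ℕ, 0 < n → β ^ n ≠ 1) :
    (p : ℝ) ^ (finrank ℚ k) ≤ (2 * (finrank k K : ℝ)) ^ (finrank ℚ k) *
      MK K β ^ (finrank k K * (p + 1)) := by
  obtain ⟨j, hj1, hj2, h⟩ := general_degree (K := K) hp hφ β hβ h0 hnt
  have hd1 : 1 ≤ finrank k K := hj1.trans hj2
  refine h.trans (mul_le_mul_of_nonneg_left ?_ (by positivity))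
  have hm := one_le_MK K β
  have h1 := V_le_self hd1 (one_le_pow₀ hm (n := j * p))
  have h2 := V_le_self hd1 (one_le_pow₀ hm (n := j))
  have h3 := V_one_le hd1 (one_le_pow₀ hm (n := j))
  refine (mul_le_mul h1 h2 (by linarith) (by positivity)).trans ?_
  rw [← pow_add]
  refine pow_le_pow_right₀ hm ?_
  nlinarith

end

end Pool.Agent.J4.H64.GL
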