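import Mathlib
import Pool.Agent.J4.H64.GL.Tr2

/-!
# Degrees three, four and five over a field with a Frobenius automorphism
-/

set_option autoImplicit false

open Polynomial Module ComplexConjugate IntermediateField

namespace Pool.Agent.J4.H64.GL

lemma fin3 (x y : Fin 3 → ℂ) (hx : ∀ i, x i ≠ 0) (hy : ∀ i, y i ≠ 0) (h1 : ∑ i, x i = ∑ i, y i)
    (h2 : ∑ i, (x i)⁻¹ = ∑ i, (y i)⁻¹) (h3 : ∏ i, x i = ∏ i, y i) (i : Fin 3) :
    ∃ i', x i = y i' := by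
  simp only [Fin.sum_univ_three, Fin.prod_univ_three] at h1 h2 h3
  have e2 : ∀ z : Fin 3 → ℂ, (∀ i, z i ≠ 0) → z 0 * z 1 + z 0 * z 2 + z 1 * z 2 =
      (z 0 * z 1 * z 2) * ((z 0)⁻¹ + (z 1)⁻¹ + (z 2)⁻¹) := by
    intro z hz
    have := hz 0
    have := hz 1
    have := hz 2
    field_simp
    ring
  have h4 : x 0 * x 1 + x 0 * x 2 + x 1 * x 2 = y 0 * y 1 + y 0 * y 2 + y 1 * y 2 := by
    rw [e2 x hx, e2 y hy, h2, h3]
  have h5 : (x i - x 0) * (x i - x 1) * (x i - x 2) = 0 := by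
    fin_cases i <;> simp
  have h6 : (x i - y 0) * (x i - y 1) * (x i - y 2) = 0 := by
    linear_combination h5 + (x i) ^ 2 * h1 - (x i) * h4 + h3
  rcases mul_eq_zero.1 h6 with h7 | h7
  · rcases mul_eq_zero.1 h7 with h8 | h8
    · exact ⟨0, sub_eq_zero.1 h8⟩
    · exact ⟨1, sub_eq_zero.1 h8⟩
  · exact ⟨2, sub_eq_zero.1 h7⟩

lemma fin4 (x y : Fin 4 → ℂ) (hx : ∀ i, x i ≠ 0) (hy : ∀ i, y i ≠ 0) (h1 : ∑ i, x i = ∑ i, y i)
    (h2 : ∑ i, (x i)⁻¹ = ∑ i, (y i)⁻¹) (h3 : ∏ i, x i = ∏ i, y i)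
    (h4 : ∑ i, (x i) ^ 2 = ∑ i, (y i) ^ 2) (i : Fin 4) :
    ∃ i', x i = y i' := by
  simp only [Fin.sum_univ_four, Fin.prod_univ_four] at h1 h2 h3 h4
  have e3 : ∀ z : Fin 4 → ℂ, (∀ i, z i ≠ 0) →
      z 1 * z 2 * z 3 + z 0 * z 2 * z 3 + z 0 * z 1 * z 3 + z 0 * z 1 * z 2 =
      (z 0 * z 1 * z 2 * z 3) * ((z 0)⁻¹ + (z 1)⁻¹ + (z 2)⁻¹ + (z 3)⁻¹) := by
    intro z hz
    have := hz 0
    have := hz 1
    have := hz 2
    have := hz 3
    field_simp
  have h5 := e3 x hx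
  have h6 := e3 y hy
  rw [h2, h3, ← h6] at h5
  have h7 : (x i - x 0) * (x i - x 1) * (x i - x 2) * (x i - x 3) = 0 := by
    fin_cases i <;> simp
  have h8 : x 0 * x 1 + x 0 * x 2 + x 0 * x 3 + x 1 * x 2 + x 1 * x 3 + x 2 * x 3 =
      y 0 * y 1 + y 0 * y 2 + y 0 * y 3 + y 1 * y 2 + y 1 * y 3 + y 2 * y 3 := by
    linear_combination (1 / 2) * ((x 0 + x 1 + x 2 + x 3) + (y 0 + y 1 + y 2 + y 3)) * h1 -
      (1 / 2) * h4
  have h9 : (x i - y 0) * (x i - y 1) * (x i - y 2) * (x i - y 3) = 0 := by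
    linear_combination h7 + (x i) ^ 3 * h1 - (x i) ^ 2 * h8 + (x i) * h5 - h3
  rcases mul_eq_zero.1 h9 with h7 | h7
  · rcases mul_eq_zero.1 h7 with h8 | h8
    · rcases mul_eq_zero.1 h8 with h8 | h8
      · exact ⟨0, sub_eq_zero.1 h8⟩
      · exact ⟨1, sub_eq_zero.1 h8⟩
    · exact ⟨2, sub_eq_zero.1 h8⟩
  · exact ⟨3, sub_eq_zero.1 h7⟩

lemma fin5 (x y : Fin 5 → ℂ) (hx : ∀ i, x i ≠ 0) (hy : ∀ i, y i ≠ 0) (h1 : ∑ i, x i = ∑ i, y i)
    (h2 : ∑ i, (x i)⁻¹ = ∑ i, (y i)⁻¹) (h3 : ∏ i, x i = ∏ i, y i)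
    (h4 : ∑ i, (x i) ^ 2 = ∑ i, (y i) ^ 2) (h5 : ∑ i, ((x i)⁻¹) ^ 2 = ∑ i, ((y i)⁻¹) ^ 2)
    (i : Fin 5) : ∃ i', x i = y i' := by
  simp only [Fin.sum_univ_five, Fin.prod_univ_five] at h1 h2 h3 h4 h5
  have e4 : ∀ z : Fin 5 → ℂ, (∀ i, z i ≠ 0) →
      z 1 * z 2 * z 3 * z 4 + z 0 * z 2 * z 3 * z 4 + z 0 * z 1 * z 3 * z 4 +
        z 0 * z 1 * z 2 * z 4 + z 0 * z 1 * z 2 * z 3 =
      (z 0 * z 1 * z 2 * z 3 * z 4) * ((z 0)⁻¹ + (z 1)⁻¹ + (z 2)⁻¹ + (z 3)⁻¹ + (z 4)⁻¹) := by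
    intro z hz
    have := hz 0
    have := hz 1
    have := hz 2
    have := hz 3
    have := hz 4
    field_simp
  have e3 : ∀ z : Fin 5 → ℂ, (∀ i, z i ≠ 0) →
      z 2 * z 3 * z 4 + z 1 * z 3 * z 4 + z 1 * z 2 * z 4 + z 1 * z 2 * z 3 + z 0 * z 3 * z 4 +
        z 0 * z 2 * z 4 + z 0 * z 2 * z 3 + z 0 * z 1 * z 4 + z 0 * z 1 * z 3 + z 0 * z 1 * z 2 =
      (z 0 * z 1 * z 2 * z 3 * z 4) * ((1 / 2) * (((z 0)⁻¹ + (z 1)⁻¹ + (z 2)⁻¹ + (z 3)⁻¹ +
        (z 4)⁻¹) ^ 2 - (((z 0)⁻¹) ^ 2 + ((z 1)⁻¹) ^ 2 + ((z 2)⁻¹) ^ 2 + ((z 3)⁻¹) ^ 2 +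
        ((z 4)⁻¹) ^ 2))) := by
    intro z hz
    have := hz 0
    have := hz 1
    have := hz 2
    have := hz 3
    have := hz 4
    field_simp
    ring
  have h6 := e4 x hx
  rw [h2, h3, ← e4 y hy] at h6
  have h7 := e3 x hx
  rw [h2, h3, h5, ← e3 y hy] at h7
  have h8 : x 0 * x 1 + x 0 * x 2 + x 0 * x 3 + x 0 * x 4 + x 1 * x 2 + x 1 * x 3 + x 1 * x 4 +
      x 2 * x 3 + x 2 * x 4 + x 3 * x 4 =
      y 0 * y 1 + y 0 * y 2 + y 0 * y 3 + y 0 * y 4 + y 1 * y 2 + y 1 * y 3 + y 1 * y 4 +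
      y 2 * y 3 + y 2 * y 4 + y 3 * y 4 := by
    linear_combination (1 / 2) * ((x 0 + x 1 + x 2 + x 3 + x 4) + (y 0 + y 1 + y 2 + y 3 + y 4)) *
      h1 - (1 / 2) * h4
  have h9 : (x i - x 0) * (x i - x 1) * (x i - x 2) * (x i - x 3) * (x i - x 4) = 0 := by
    fin_cases i <;> simp
  have h10 : (x i - y 0) * (x i - y 1) * (x i - y 2) * (x i - y 3) * (x i - y 4) = 0 := by
    linear_combination h9 + (x i) ^ 4 * h1 - (x i) ^ 3 * h8 + (x i) ^ 2 * h7 - (x i) * h6 + h3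
  rcases mul_eq_zero.1 h10 with h7 | h7
  · rcases mul_eq_zero.1 h7 with h8 | h8
    · rcases mul_eq_zero.1 h8 with h8 | h8
      · rcases mul_eq_zero.1 h8 with h8 | h8
        · exact ⟨0, sub_eq_zero.1 h8⟩
        · exact ⟨1, sub_eq_zero.1 h8⟩
      · exact ⟨2, sub_eq_zero.1 h8⟩
    · exact ⟨3, sub_eq_zero.1 h8⟩
  · exact ⟨4, sub_eq_zero.1 h7⟩

section

variable {k K : Type*} [Field k] [NumberField k] [Field K] [NumberField K] [Algebra k K]

lemma transfer {p d : ℕ} {φ : k ≃ₐ[ℚ] k} (hd : finrank k K = d) (β : K) (h0 : β ≠ 0)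
    (hγ : (Algebra.norm k β) ^ p = φ (Algebra.norm k β)) (σ : K →+* ℂ) :
    ∃ x y : Fin d → ℂ, (∀ i, x i ≠ 0) ∧ (∀ i, y i ≠ 0) ∧ (∏ i, x i = ∏ i, y i) ∧
      (∀ j : ℤ, EE p φ (β ^ j) = 0 → ∑ i, (x i) ^ j = ∑ i, (y i) ^ j) ∧
      (∃ i, x i = (σ β) ^ p) ∧ (∀ i, ∃ σ' : K →+* ℂ, y i = σ' β) := by
  classical
  set w := σ.comp (algebraMap k K) with hw
  obtain ⟨e⟩ : Nonempty (Ov (K := K) w ≃ Fin d) :=
    ⟨Fintype.equivOfCardEq (by rw [card_ov, hd, Fintype.card_fin])⟩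
  obtain ⟨e'⟩ : Nonempty (Ov (K := K) (w.comp (φ : k →+* k)) ≃ Fin d) :=
    ⟨Fintype.equivOfCardEq (by rw [card_ov, hd, Fintype.card_fin])⟩
  refine ⟨fun i => ((e.symm i).1 β) ^ p, fun i => (e'.symm i).1 β, ?_, ?_, ?_, ?_, ?_, ?_⟩
  · intro i
    exact pow_ne_zero _ (by simpa using h0)
  · intro i
    simpa using h0
  · rw [Equiv.prod_comp e.symm (fun τ : Ov (K := K) w => (τ.1 β) ^ p),
      Equiv.prod_comp e'.symm (fun τ : Ov (K := K) (w.comp (φ : k →+* k)) => τ.1 β),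
      Finset.prod_pow, prod_ov, prod_ov, ← map_pow, hγ]
    rfl
  · intro j hj
    rw [Equiv.sum_comp e.symm (fun τ : Ov (K := K) w => ((τ.1 β) ^ p) ^ j),
      Equiv.sum_comp e'.symm (fun τ : Ov (K := K) (w.comp (φ : k →+* k)) => (τ.1 β) ^ j)]
    have h2 := sums_of_EE hj w
    simp only [map_zpow₀] at h2
    rw [← h2]
    refine Finset.sum_congr rfl fun τ _ => ?_
    rw [← zpow_natCast, ← zpow_natCast, ← zpow_mul, ← zpow_mul, mul_comm]
  · exact ⟨e ⟨σ, rfl⟩, by simp only [Equiv.symm_apply_apply]⟩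
  · intro i
    exact ⟨(e'.symm i).1, rfl⟩

/-- the second power: an additional factor two -/
lemma EE_sq {p : ℕ} (hp : p.Prime) (hp3 : 3 ≤ p) {φ : k ≃ₐ[ℚ] k} (hφ : IsFrob p φ) (β : K)
    (hβ : IsIntegral ℤ β) (h : EE p φ β = 0) :
    ∃ z : k, IsIntegral ℤ z ∧ EE p φ (β ^ 2) = ((2 * p : ℕ) : k) * z := by
  obtain ⟨u, hu, h1⟩ := trace_pow (k := k) Nat.prime_two (β ^ p) (hβ.pow p)
  obtain ⟨u', hu', h2⟩ := trace_pow (k := k) Nat.prime_two β hβ
  obtain ⟨b, hb, h3⟩ := trace_dvd hp hφ (β ^ 2) (hβ.pow 2)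
  obtain ⟨r, hr⟩ : ∃ r, p = 2 * r + 1 := by
    rcases hp.eq_two_or_odd' with h | h
    · omega
    · exact h
  have h4 := sub_eq_zero.1 h
  have h5 : (β ^ 2) ^ p = (β ^ p) ^ 2 := by rw [← pow_mul, ← pow_mul, mul_comm]
  have h6 : EE p φ (β ^ 2) = 2 * (φ u' - u) := by
    rw [EE, h5, h1, h2, h4, map_sub, map_mul, map_pow, map_natCast]
    push_cast
    ring
  have hu'' : IsIntegral ℤ (φ u') := hu'.map (φ.toAlgHom.restrictScalars ℤ)
  have hr' : IsIntegral ℤ ((r : ℕ) : k) := by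
    rw [← map_natCast (algebraMap ℤ k)]
    exact isIntegral_algebraMap
  refine ⟨(φ u' - u) - r * b, (hu''.sub hu).sub (hr'.mul hb), ?_⟩
  have h7 : EE p φ (β ^ 2) = p * b := h3
  have h8 : (p : k) = 2 * r + 1 := by
    rw [hr]
    push_cast
    ring
  push_cast
  rw [h8] at h7 ⊢
  linear_combination (2 * (r : k) + 1) * (h6) - 2 * (r : k) * h7

/-- the inverse of a number with norm a root of unity -/
lemma inv_of_norm {γ : k} (β : K) (hβ : IsIntegral ℤ β) (hγ : γ = Algebra.norm k β)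
    {n : ℕ} (hn : 0 < n) (h : γ ^ n = 1) : IsIntegral ℤ β⁻¹ ∧ MK K β⁻¹ = MK K β := by
  classical
  have hfd : FiniteDimensional k K := FiniteDimensional.right ℚ k K
  have hγ0 : γ ≠ 0 := by
    rintro rfl
    rw [zero_pow hn.ne'] at h
    exact zero_ne_one h
  have h0 : β ≠ 0 := by
    rintro rfl
    rw [hγ] at hγ0
    exact Algebra.norm_ne_zero_iff.1 hγ0 rfl
  have hvγ : ∀ v : k →+* ℂ, ‖v γ‖ = 1 := by
    intro v
    have h1 := congrArg (fun x => ‖v x‖) h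
    simp only [map_pow, norm_pow, map_one, norm_one] at h1
    exact (pow_eq_one_iff_of_nonneg (norm_nonneg _) hn.ne').1 h1
  have hprod : ∏ σ : K →+* ℂ, ‖σ β‖ = 1 := by
    rw [← prod_all (k := k) (fun σ : K →+* ℂ => ‖σ β‖)]
    refine Finset.prod_eq_one fun w _ => ?_
    rw [← norm_prod, prod_ov, ← hγ, hvγ]
  constructor
  · have h1 : (Algebra.norm ℚ β) ^ n = 1 := by
      rw [← Algebra.norm_norm (S := k), ← hγ, ← map_pow, h, map_one]
    have h2 : |Algebra.norm ℚ β| = 1 := by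
      have h3 := congrArg (fun x : ℚ => |x|) h1
      simp only [abs_pow, abs_one] at h3
      exact (pow_eq_one_iff_of_nonneg (abs_nonneg _) hn.ne').1 h3
    set b : NumberField.RingOfIntegers K := ⟨β, hβ⟩ with hb
    have h4 : IsUnit b := by
      rw [NumberField.isUnit_iff_norm]
      exact h2
    obtain ⟨c, hc⟩ := h4.exists_right_inv
    have h5 : β * (c : K) = 1 := by
      have h6 := congrArg (algebraMap (NumberField.RingOfIntegers K) K) hc
      rw [map_mul, map_one] at h6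
      exact h6
    rw [inv_eq_of_mul_eq_one_right h5]
    exact c.2
  · unfold MK
    have h1 : ∀ σ : K →+* ℂ, max 1 ‖σ β‖ = ‖σ β‖ * max 1 ‖σ β⁻¹‖ := by
      intro σ
      have h2 : 0 < ‖σ β‖ := norm_pos_iff.2 (by simpa using h0)
      rw [map_inv₀, norm_inv, mul_max_of_nonneg _ _ h2.le, mul_one, mul_inv_cancel₀ h2.ne',
        max_comm]
    rw [Finset.prod_congr rfl (fun σ _ => h1 σ), Finset.prod_mul_distrib, hprod, one_mul]

/-- degree three -/
theorem deg_three {p : ℕ} (hp : p.Prime) (hp3 : 3 ≤ p) {φ : k ≃ₐ[ℚ] k} (hφ : IsFrob p φ)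
    (hd : finrank k K = 3) (β : K) (hβ : IsIntegral ℤ β) (h0 : β ≠ 0)
    (hnt : ∀ n : ℕ, 0 < n → β ^ n ≠ 1) :
    (p : ℝ) ^ (finrank ℚ k) ≤ 2 ^ (finrank ℚ k) * MK K β ^ (p + 1) ∨
    (p : ℝ) ^ (finrank ℚ k) ≤ 6 ^ (finrank ℚ k) * (V 3 (MK K β ^ p) * V 3 (MK K β)) := by
  have hfd : FiniteDimensional k K := FiniteDimensional.right ℚ k K
  set γ := Algebra.norm k β with hγ
  have hγint : IsIntegral ℤ γ := Algebra.isIntegral_norm k hβ
  have hγ0 : γ ≠ 0 := Algebra.norm_ne_zero_iff.2 h0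
  by_cases htor : ∀ n : ℕ, 0 < n → γ ^ n ≠ 1
  · left
    have h1 := frob_base (by omega) hφ γ hγint hγ0 htor
    have h2 : MK k γ ≤ MK K β := norm_measure_le β
    refine h1.trans ?_
    exact mul_le_mul_of_nonneg_left (pow_le_pow_left₀ (by linarith [one_le_MK k γ]) h2 _)
      (by positivity)
  right
  push Not at htor
  obtain ⟨n, hn, hγn⟩ := htor
  have hγφ := frob_torsion hp3 hφ γ hγint hn hγn
  obtain ⟨hi1, hi2⟩ := inv_of_norm β hβ hγ hn hγn
  by_cases h1 : EE p φ β = 0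
  · by_cases h2 : EE p φ β⁻¹ = 0
    · exfalso
      obtain ⟨m, hm, h3⟩ := torsion_of_conj hp.two_le β h0 (fun σ => by
        obtain ⟨x, y, hx, hy, h3, h4, ⟨i, hi⟩, h6⟩ := transfer hd β h0 hγφ σ
        have e1 := h4 1 (by simpa using h1)
        have e2 := h4 (-1) (by simpa using h2)
        simp only [zpow_one, zpow_neg_one] at e1 e2
        obtain ⟨i', hi'⟩ := fin3 x y hx hy e1 e2 h3 i
        obtain ⟨σ', hσ'⟩ := h6 i'
        exact ⟨σ', by rw [← hi, hi', hσ']⟩)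
      exact hnt m hm h3
    · have h3 := EE_estimate hp hφ β⁻¹ hi1 h2
      rw [hi2, hd] at h3
      norm_num at h3 ⊢
      exact h3
  · have h3 := EE_estimate hp hφ β hβ h1
    rw [hd] at h3
    norm_num at h3 ⊢
    exact h3

/-- degree four -/
theorem deg_four {p : ℕ} (hp : p.Prime) (hp3 : 3 ≤ p) {φ : k ≃ₐ[ℚ] k} (hφ : IsFrob p φ)
    (hd : finrank k K = 4) (β : K) (hβ : IsIntegral ℤ β) (h0 : β ≠ 0)
    (hnt : ∀ n : ℕ, 0 < n → β ^ n ≠ 1) :
    (p : ℝ) ^ (finrank ℚ k) ≤ 2 ^ (finrank ℚ k) * MK K β ^ (p + 1) ∨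
    (p : ℝ) ^ (finrank ℚ k) ≤ 8 ^ (finrank ℚ k) * (V 4 (MK K β ^ p) * V 4 (MK K β)) ∨
    (2 * p : ℝ) ^ (finrank ℚ k) ≤ 8 ^ (finrank ℚ k) * (V 4 (MK K β ^ (2 * p)) *
      V 4 (MK K β ^ 2)) := by
  have hfd : FiniteDimensional k K := FiniteDimensional.right ℚ k K
  set γ := Algebra.norm k β with hγ
  have hγint : IsIntegral ℤ γ := Algebra.isIntegral_norm k hβ
  have hγ0 : γ ≠ 0 := Algebra.norm_ne_zero_iff.2 h0
  by_cases htor : ∀ n : ℕ, 0 < n → γ ^ n ≠ 1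
  · left
    have h1 := frob_base (by omega) hφ γ hγint hγ0 htor
    have h2 : MK k γ ≤ MK K β := norm_measure_le β
    refine h1.trans ?_
    exact mul_le_mul_of_nonneg_left (pow_le_pow_left₀ (by linarith [one_le_MK k γ]) h2 _)
      (by positivity)
  right
  push Not at htor
  obtain ⟨n, hn, hγn⟩ := htor
  have hγφ := frob_torsion hp3 hφ γ hγint hn hγn
  obtain ⟨hi1, hi2⟩ := inv_of_norm β hβ hγ hn hγn
  by_cases h1 : EE p φ β = 0
  swap
  · left
    have h3 := EE_estimate hp hφ β hβ h1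
    rw [hd] at h3
    norm_num at h3 ⊢
    exact h3
  by_cases h2 : EE p φ β⁻¹ = 0
  swap
  · left
    have h3 := EE_estimate hp hφ β⁻¹ hi1 h2
    rw [hi2, hd] at h3
    norm_num at h3 ⊢
    exact h3
  by_cases h3 : EE p φ (β ^ 2) = 0
  swap
  · right
    obtain ⟨z, hz, h4⟩ := EE_sq hp hp3 hφ β hβ h1
    have h5 := trace_estimate (K := K) (φ := φ) (p := p) (y := β ^ 2) (e := EE p φ (β ^ 2)) rfl hz
      h4 h3
    rw [hd, MK_pow, ← pow_mul] at h5
    norm_num at h5 ⊢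
    exact h5
  exfalso
  obtain ⟨m, hm, h4⟩ := torsion_of_conj hp.two_le β h0 (fun σ => by
    obtain ⟨x, y, hx, hy, h3', h4, ⟨i, hi⟩, h6⟩ := transfer hd β h0 hγφ σ
    have e1 := h4 1 (by simpa using h1)
    have e2 := h4 (-1) (by simpa using h2)
    have e3 := h4 2 (by exact_mod_cast h3)
    simp only [zpow_one, zpow_neg_one] at e1 e2
    obtain ⟨i', hi'⟩ := fin4 x y hx hy e1 e2 h3' (by exact_mod_cast e3) i
    obtain ⟨σ', hσ'⟩ := h6 i'
    exact ⟨σ', by rw [← hi, hi', hσ']⟩)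
  exact hnt m hm h4

/-- degree five -/
theorem deg_five {p : ℕ} (hp : p.Prime) (hp3 : 3 ≤ p) {φ : k ≃ₐ[ℚ] k} (hφ : IsFrob p φ)
    (hd : finrank k K = 5) (β : K) (hβ : IsIntegral ℤ β) (h0 : β ≠ 0)
    (hnt : ∀ n : ℕ, 0 < n → β ^ n ≠ 1) :
    (p : ℝ) ^ (finrank ℚ k) ≤ 2 ^ (finrank ℚ k) * MK K β ^ (p + 1) ∨
    (p : ℝ) ^ (finrank ℚ k) ≤ 10 ^ (finrank ℚ k) * (V 5 (MK K β ^ p) * V 5 (MK K β)) ∨
    (2 * p : ℝ) ^ (finrank ℚ k) ≤ 10 ^ (finrank ℚ k) * (V 5 (MK K β ^ (2 * p)) *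
      V 5 (MK K β ^ 2)) := by
  have hfd : FiniteDimensional k K := FiniteDimensional.right ℚ k K
  set γ := Algebra.norm k β with hγ
  have hγint : IsIntegral ℤ γ := Algebra.isIntegral_norm k hβ
  have hγ0 : γ ≠ 0 := Algebra.norm_ne_zero_iff.2 h0
  by_cases htor : ∀ n : ℕ, 0 < n → γ ^ n ≠ 1
  · left
    have h1 := frob_base (by omega) hφ γ hγint hγ0 htor
    have h2 : MK k γ ≤ MK K β := norm_measure_le β
    refine h1.trans ?_
    exact mul_le_mul_of_nonneg_left (pow_le_pow_left₀ (by linarith [one_le_MK k γ]) h2 _)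
      (by positivity)
  right
  push Not at htor
  obtain ⟨n, hn, hγn⟩ := htor
  have hγφ := frob_torsion hp3 hφ γ hγint hn hγn
  obtain ⟨hi1, hi2⟩ := inv_of_norm β hβ hγ hn hγn
  by_cases h1 : EE p φ β = 0
  swap
  · left
    have h3 := EE_estimate hp hφ β hβ h1
    rw [hd] at h3
    norm_num at h3 ⊢
    exact h3
  by_cases h2 : EE p φ β⁻¹ = 0
  swap
  · left
    have h3 := EE_estimate hp hφ β⁻¹ hi1 h2
    rw [hi2, hd] at h3
    norm_num at h3 ⊢
    exact h3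
  by_cases h3 : EE p φ (β ^ 2) = 0
  swap
  · right
    obtain ⟨z, hz, h4⟩ := EE_sq hp hp3 hφ β hβ h1
    have h5 := trace_estimate (K := K) (φ := φ) (p := p) (y := β ^ 2) (e := EE p φ (β ^ 2)) rfl hz
      h4 h3
    rw [hd, MK_pow, ← pow_mul] at h5
    norm_num at h5 ⊢
    exact h5
  by_cases h3' : EE p φ (β⁻¹ ^ 2) = 0
  swap
  · right
    obtain ⟨z, hz, h4⟩ := EE_sq hp hp3 hφ β⁻¹ hi1 h2
    have h5 := trace_estimate (K := K) (φ := φ) (p := p) (y := β⁻¹ ^ 2) (e := EE p φ (β⁻¹ ^ 2)) rfl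
      hz h4 h3'
    rw [hd, MK_pow, hi2, ← pow_mul] at h5
    norm_num at h5 ⊢
    exact h5
  exfalso
  obtain ⟨m, hm, h4⟩ := torsion_of_conj hp.two_le β h0 (fun σ => by
    obtain ⟨x, y, hx, hy, h3'', h4, ⟨i, hi⟩, h6⟩ := transfer hd β h0 hγφ σ
    have e1 := h4 1 (by simpa using h1)
    have e2 := h4 (-1) (by simpa using h2)
    have e3 := h4 2 (by exact_mod_cast h3)
    have e4 := h4 (-2) (by
      rw [zpow_neg, ← inv_zpow]
      exact_mod_cast h3')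
    have e5 : ∀ z : ℂ, z ^ (-2 : ℤ) = z⁻¹ ^ 2 := by
      intro z
      rw [zpow_neg, ← inv_zpow]
      norm_cast
    simp only [zpow_one, zpow_neg_one] at e1 e2
    simp only [e5] at e4
    obtain ⟨i', hi'⟩ := fin5 x y hx hy e1 e2 h3'' (by exact_mod_cast e3) e4 i
    obtain ⟨σ', hσ'⟩ := h6 i'
    exact ⟨σ', by rw [← hi, hi', hσ']⟩)
  exact hnt m hm h4

end

/-! ### numerical consequences -/

lemma pow_cancel {a b X : ℝ} {n m : ℕ} (hb : 0 < b) (hab : b ≤ a) (h : a ^ n ≤ b ^ n * X)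
    (hn : m ≤ n) : a ^ m ≤ b ^ m * X := by
  obtain ⟨j, rfl⟩ : ∃ j, n = j + m := ⟨n - m, by omega⟩
  rw [pow_add, pow_add] at h
  have h1 : b ^ j ≤ a ^ j := pow_le_pow_left₀ hb.le hab j
  have h2 : 0 < b ^ j := by positivity
  have h3 : 0 ≤ a ^ m := pow_nonneg (hb.le.trans hab) m
  have h4 : b ^ j * a ^ m ≤ b ^ j * (b ^ m * X) := by
    calc b ^ j * a ^ m ≤ a ^ j * a ^ m := mul_le_mul_of_nonneg_right h1 h3
      _ ≤ b ^ j * b ^ m * X := h
      _ = _ := by ring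
  exact le_of_mul_le_mul_left h4 h2

lemma V_mul_mono {d i j : ℕ} (hd : 1 ≤ d) {x y : ℝ} (hx : 1 ≤ x) (hxy : x ≤ y) :
    V d (x ^ i) * V d (x ^ j) ≤ V d (y ^ i) * V d (y ^ j) := by
  have h1 := V_mono hd (pow_le_pow_left₀ (by linarith) hxy i)
  have h2 := V_mono hd (pow_le_pow_left₀ (by linarith) hxy j)
  have h3 := V_one_le hd (one_le_pow₀ hx (n := i))
  have h4 := V_one_le hd (one_le_pow₀ hx (n := j))
  exact mul_le_mul h1 h2 (by linarith) (by linarith)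

/-- the numerical cases -/
def Good (d n p : ℕ) : Prop :=
  (d = 3 ∧ 2 ≤ n ∧ (p = 11 ∨ p = 13 ∨ p = 17 ∨ p = 19 ∨ p = 23 ∨ p = 29)) ∨
  (d = 4 ∧ 2 ≤ n ∧ (p = 11 ∨ p = 13)) ∨
  (d = 4 ∧ 3 ≤ n ∧ (p = 17 ∨ p = 19)) ∨
  (d = 5 ∧ 3 ≤ n ∧ (p = 13 ∨ p = 17))

lemma base_num {n p : ℕ} (hn : 2 ≤ n)
    (hp : p = 11 ∨ p = 13 ∨ p = 17 ∨ p = 19 ∨ p = 23 ∨ p = 29) {m : ℝ} (hm : 1 ≤ m)
    (h : (p : ℝ) ^ n ≤ 2 ^ n * m ^ (p + 1)) : (1.179 : ℝ) < m := by
  by_contra hcon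
  push Not at hcon
  have h1 : (p : ℝ) ^ n ≤ 2 ^ n * (1.179 : ℝ) ^ (p + 1) :=
    h.trans (mul_le_mul_of_nonneg_left (pow_le_pow_left₀ (by linarith) hcon _) (by positivity))
  have hp2 : (2 : ℝ) ≤ p := by
    have : 2 ≤ p := by omega
    exact_mod_cast this
  have h2 := pow_cancel (by norm_num) hp2 h1 hn
  rcases hp with rfl | rfl | rfl | rfl | rfl | rfl <;> norm_num at h2

theorem good_bound {k K : Type*} [Field k] [NumberField k] [Field K] [NumberField K] [Algebra k K]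
    {p : ℕ} (hp : p.Prime) {φ : k ≃ₐ[ℚ] k} (hφ : IsFrob p φ)
    (hg : Good (finrank k K) (finrank ℚ k) p) (β : K) (hβ : IsIntegral ℤ β) (h0 : β ≠ 0)
    (hnt : ∀ n : ℕ, 0 < n → β ^ n ≠ 1) : (1.179 : ℝ) < MK K β := by
  have hm := one_le_MK K β
  rcases hg with ⟨hd, hn, hp'⟩ | ⟨hd, hn, hp'⟩ | ⟨hd, hn, hp'⟩ | ⟨hd, hn, hp'⟩
  · rcases deg_three hp (by omega) hφ hd β hβ h0 hnt with h | h
    · exact base_num hn hp' hm h
    · by_contra hcon
      push Not at hcon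
      have h1 := V_mul_mono (d := 3) (i := p) (j := 1) (by norm_num) hm hcon
      rw [pow_one, pow_one] at h1
      have h2 := h.trans (mul_le_mul_of_nonneg_left h1 (by positivity))
      have hp2 : (6 : ℝ) ≤ p := by
        have : 6 ≤ p := by omega
        exact_mod_cast this
      have h3 := pow_cancel (by norm_num) hp2 h2 hn
      unfold V at h3
      rcases hp' with rfl | rfl | rfl | rfl | rfl | rfl <;> norm_num at h3
  · rcases deg_four hp (by omega) hφ hd β hβ h0 hnt with h | h | h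
    · exact base_num hn (by omega) hm h
    · by_contra hcon
      push Not at hcon
      have h1 := V_mul_mono (d := 4) (i := p) (j := 1) (by norm_num) hm hcon
      rw [pow_one, pow_one] at h1
      have h2 := h.trans (mul_le_mul_of_nonneg_left h1 (by positivity))
      have hp2 : (8 : ℝ) ≤ p := by
        have : 8 ≤ p := by omega
        exact_mod_cast this
      have h3 := pow_cancel (by norm_num) hp2 h2 hn
      unfold V at h3
      rcases hp' with rfl | rfl <;> norm_num at h3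
    · by_contra hcon
      push Not at hcon
      have h1 := V_mul_mono (d := 4) (i := 2 * p) (j := 2) (by norm_num) hm hcon
      have h2 := h.trans (mul_le_mul_of_nonneg_left h1 (by positivity))
      have hp2 : (8 : ℝ) ≤ 2 * p := by
        have : 8 ≤ 2 * p := by omega
        exact_mod_cast this
      have h3 := pow_cancel (by norm_num) hp2 h2 hn
      unfold V at h3
      rcases hp' with rfl | rfl <;> norm_num at h3
  · rcases deg_four hp (by omega) hφ hd β hβ h0 hnt with h | h | h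
    · exact base_num (by omega) (by omega) hm h
    · by_contra hcon
      push Not at hcon
      have h1 := V_mul_mono (d := 4) (i := p) (j := 1) (by norm_num) hm hcon
      rw [pow_one, pow_one] at h1
      have h2 := h.trans (mul_le_mul_of_nonneg_left h1 (by positivity))
      have hp2 : (8 : ℝ) ≤ p := by
        have : 8 ≤ p := by omega
        exact_mod_cast this
      have h3 := pow_cancel (by norm_num) hp2 h2 hn
      unfold V at h3
      rcases hp' with rfl | rfl <;> norm_num at h3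
    · by_contra hcon
      push Not at hcon
      have h1 := V_mul_mono (d := 4) (i := 2 * p) (j := 2) (by norm_num) hm hcon
      have h2 := h.trans (mul_le_mul_of_nonneg_left h1 (by positivity))
      have hp2 : (8 : ℝ) ≤ 2 * p := by
        have : 8 ≤ 2 * p := by omega
        exact_mod_cast this
      have h3 := pow_cancel (by norm_num) hp2 h2 hn
      unfold V at h3
      rcases hp' with rfl | rfl <;> norm_num at h3
  · rcases deg_five hp (by omega) hφ hd β hβ h0 hnt with h | h | h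
    · exact base_num (by omega) (by omega) hm h
    · by_contra hcon
      push Not at hcon
      have h1 := V_mul_mono (d := 5) (i := p) (j := 1) (by norm_num) hm hcon
      rw [pow_one, pow_one] at h1
      have h2 := h.trans (mul_le_mul_of_nonneg_left h1 (by positivity))
      have hp2 : (10 : ℝ) ≤ p := by
        have : 10 ≤ p := by omega
        exact_mod_cast this
      have h3 := pow_cancel (by norm_num) hp2 h2 hn
      unfold V at h3
      rcases hp' with rfl | rfl <;> norm_num at h3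
    · by_contra hcon
      push Not at hcon
      have h1 := V_mul_mono (d := 5) (i := 2 * p) (j := 2) (by norm_num) hm hcon
      have h2 := h.trans (mul_le_mul_of_nonneg_left h1 (by positivity))
      have hp2 : (10 : ℝ) ≤ 2 * p := by
        have : 10 ≤ 2 * p := by omega
        exact_mod_cast this
      have h3 := pow_cancel (by norm_num) hp2 h2 hn
      unfold V at h3
      rcases hp' with rfl | rfl <;> norm_num at h3

end Pool.Agent.J4.H64.GL
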