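import Mathlib
import Pool.Agent.J4.H64.GL.Tr3

/-!
# Degree two over a field with a Frobenius automorphism, sharper form
-/

set_option autoImplicit false

open Polynomial Module ComplexConjugate IntermediateField

namespace Pool.Agent.J4.H64.GL

universe u v

lemma fin2 (x y : Fin 2 → ℂ) (h1 : ∑ i, x i = ∑ i, y i) (h3 : ∏ i, x i = ∏ i, y i) (i : Fin 2) :
    ∃ i', x i = y i' := by
  simp only [Fin.sum_univ_two, Fin.prod_univ_two] at h1 h3
  have h5 : (x i - x 0) * (x i - x 1) = 0 := by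
    fin_cases i <;> simp
  have h6 : (x i - y 0) * (x i - y 1) = 0 := by
    linear_combination h5 + (x i) * h1 - h3
  rcases mul_eq_zero.1 h6 with h8 | h8
  · exact ⟨0, sub_eq_zero.1 h8⟩
  · exact ⟨1, sub_eq_zero.1 h8⟩

/-- degree two -/
theorem deg_two {k K : Type*} [Field k] [NumberField k] [Field K] [NumberField K] [Algebra k K]
    {p : ℕ} (hp : p.Prime) (hp3 : 3 ≤ p) {φ : k ≃ₐ[ℚ] k} (hφ : IsFrob p φ)
    (hd : finrank k K = 2) (β : K) (hβ : IsIntegral ℤ β) (h0 : β ≠ 0)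
    (hnt : ∀ n : ℕ, 0 < n → β ^ n ≠ 1) :
    (p : ℝ) ^ (finrank ℚ k) ≤ 2 ^ (finrank ℚ k) * MK K β ^ (p + 1) ∨
    (p : ℝ) ^ (finrank ℚ k) ≤ 4 ^ (finrank ℚ k) * (V 2 (MK K β ^ p) * V 2 (MK K β)) := by
  have hfd : FiniteDimensional k K := FiniteDimensional.right ℚ k K
  set γ := Algebra.norm k β with hγ
  have hγint : IsIntegral ℤ γ := Algebra.isIntegral_norm k hβ
  have hγ0 : γ ≠ 0 := Algebra.norm_ne_zero_iff.2 h0
  by_cases htor : ∀ n : ℕ, 0 < n → γ ^ n ≠ 1
  · left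
    have h1 := frob_base (by omega) hφ γ hγint hγ0 htor
    have h2 : MK k γ ≤ MK K β := norm_measure_le β
    refine h1.trans ?_
    exact mul_le_mul_of_nonneg_left (pow_le_pow_left₀ (by linarith [one_le_MK k γ]) h2 _)
      (by positivity)
  right
  push Not at htor
  obtain ⟨n, hn, hγn⟩ := htor
  have hγφ := frob_torsion hp3 hφ γ hγint hn hγn
  by_cases h1 : EE p φ β = 0
  · exfalso
    obtain ⟨m, hm, h3⟩ := torsion_of_conj hp.two_le β h0 (fun σ => by
      obtain ⟨x, y, hx, hy, h3, h4, ⟨i, hi⟩, h6⟩ := transfer hd β h0 hγφ σ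
      have e1 := h4 1 (by simpa using h1)
      simp only [zpow_one] at e1
      obtain ⟨i', hi'⟩ := fin2 x y e1 h3 i
      obtain ⟨σ', hσ'⟩ := h6 i'
      exact ⟨σ', by rw [← hi, hi', hσ']⟩)
    exact hnt m hm h3
  · have h3 := EE_estimate hp hφ β hβ h1
    rw [hd] at h3
    norm_num at h3 ⊢
    exact h3

/-- the inequality for the measure `m`, with `n = [k : ℚ]` -/
def Ineq2 (p n : ℕ) (m : ℝ) : Prop :=
  (p : ℝ) ^ n ≤ 2 ^ n * m ^ (p + 1) ∨ (p : ℝ) ^ n ≤ 4 ^ n * (V 2 (m ^ p) * V 2 m)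

lemma Ineq2.mono {p n : ℕ} {x y : ℝ} (hx : 1 ≤ x) (hxy : x ≤ y) (h : Ineq2 p n x) :
    Ineq2 p n y := by
  rcases h with h | h
  · left
    exact h.trans (mul_le_mul_of_nonneg_left (pow_le_pow_left₀ (by linarith) hxy _)
      (by positivity))
  · right
    have h1 := V_mul_mono (d := 2) (i := p) (j := 1) (by norm_num) hx hxy
    rw [pow_one, pow_one] at h1
    exact h.trans (mul_le_mul_of_nonneg_left h1 (by positivity))

theorem frob_multi2 {k : Type v} [Field k] [NumberField k] {K : Type u} [Field K] [NumberField K]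
    [Algebra k K] [IsGalois k K] {p : ℕ} (hpp : p.Prime) (hp : 3 ≤ p) {φ : k ≃ₐ[ℚ] k}
    (hφ : IsFrob p φ) (hexp : ∀ g : K ≃ₐ[k] K, g * g = 1) (α : K) (hα : IsIntegral ℤ α)
    (h0 : α ≠ 0) (hnt : ∀ n : ℕ, 0 < n → α ^ n ≠ 1) : Ineq2 p (finrank ℚ k) (MK K α) :=
  multi_gen (fun x => Ineq2 p (finrank ℚ k) x) (fun _ _ hx hxy h => h.mono hx hxy)
    (fun x hx hx0 hxnt => Or.inl (frob_base (by omega) hφ x hx hx0 hxnt))
    (fun _ _ _ _ _ hd β hβ hβ0 hβnt => deg_two hpp hp hφ hd β hβ hβ0 hβnt)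
    (finrank k K) K hexp le_rfl α hα h0 hnt

lemma Ineq2.large {p n : ℕ} (hp : p = 5 ∨ p = 7 ∨ p = 11 ∨ p = 13 ∨ p = 17 ∨ p = 19 ∨ p = 23)
    (hn : 2 ≤ n) {m : ℝ} (hm : 1 ≤ m) (h : Ineq2 p n m) : 6 / 5 < m := by
  by_contra hcon
  push Not at hcon
  have h1 := h.mono hm hcon
  have hp5 : (5 : ℝ) ≤ p := by
    have : 5 ≤ p := by omega
    exact_mod_cast this
  rcases h1 with h2 | h2
  · have h3 := pow_cancel (by norm_num) (by linarith) h2 hn
    rcases hp with rfl | rfl | rfl | rfl | rfl | rfl | rfl <;> norm_num at h3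
  · have h3 := pow_cancel (by norm_num) (by linarith) h2 hn
    unfold V at h3
    rcases hp with rfl | rfl | rfl | rfl | rfl | rfl | rfl <;> norm_num at h3

lemma Ineq2.large' {p n : ℕ} (hp : p = 29 ∨ p = 31)
    (hn : 2 ≤ n) {m : ℝ} (hm : 1 ≤ m) (h : Ineq2 p n m) : 1.18 < m := by
  by_contra hcon
  push Not at hcon
  have h1 := h.mono hm hcon
  have hp5 : (5 : ℝ) ≤ p := by
    have : 5 ≤ p := by omega
    exact_mod_cast this
  rcases h1 with h2 | h2
  · have h3 := pow_cancel (by norm_num) (by linarith) h2 hn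
    rcases hp with rfl | rfl <;> norm_num at h3
  · have h3 := pow_cancel (by norm_num) (by linarith) h2 hn
    unfold V at h3
    rcases hp with rfl | rfl <;> norm_num at h3

end Pool.Agent.J4.H64.GL
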